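import Pool.Agent.H42.HG.Token
import Pool.Agent.H47.HJ.Defs
import Pool.Agent.H94.HG.Frame

/-!
# HG (package HookGeo of MP_a352f3_pr): definitions

FRAME COORDINATES of a face `F` of `Q` (`H94/HG/Frame.lean`): the height is coordinate `0`; `Q` is
`[-R+1, 0] × [0, R)^(n+1)`, so the face is at height `0` and everything at height `≥ 1` over it is outside `Q`. `R = 2^i`,
`i > q0 + n + 10`.

Binary levels `t = 0, 1, …, TT = (n+1)(i - q0 - n - 10)`. A node is a pair `(t, lo)`: the box with lower corner `lo` and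
sides `sd t k`. Going from level `t` to `t + 1` two nodes which are neighbours in the direction `jj t` are merged. Unit
of length of the level: `rho t` (radius of all the balls); `sd t (jj t) = 2^(n+10) rho (t+1)`, all `sd t k` are at least
that. `rho (t+1)` is `rho t` or `2 rho t`.

Lanes of the node `(t, lo)`: the vertical lines over the points `centre ± 16 rho t (1, …, 1)`; `s = false` is the lower
one, `s = true` the upper one. The port of the lane is its point `ln` at height `Ht t`.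
-/

open MeasureTheory Filter Topology
open Pool.Agent.H17.IIC Pool.Agent.H41.QC Pool.Agent.H47.GM Pool.Agent.H17.QA
open Pool.Agent.H94.HG Pool.Agent.H47.HJ

namespace Pool.Agent.H30.HG

variable {n d : ℕ}

/-! ### staircases and connections of requirements -/

/-- staircase from `p` to `q`: the coordinates are adjusted one after the other, coordinate `0` first -/
noncomputable def St (p q : V d) : Finset (V d) :=
  Finset.univ.biUnion fun k : Fin d =>
    (Finset.Icc (min (p k) (q k)) (max (p k) (q k))).image fun t =>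
      fun m => if m < k then q m else if m = k then t else p m

/-- adjacency of requirements -/
def QAdj (a b : V d × ℕ) : Prop := (a.1 = b.1 ∨ LatAdj a.1 b.1) ∧ a.2 ≤ 2 * b.2 ∧ b.2 ≤ 2 * a.2

/-- `a` and `b` are connected inside `Z` -/
def Lk (Z : Finset (V d × ℕ)) (a b : V d × ℕ) : Prop :=
  a ∈ Z ∧ Relation.ReflTransGen (fun a b => QAdj a b ∧ b ∈ Z) a b

/-- union of the balls -/
def Zr (Z : Finset (V d × ℕ)) : Set (V d) := {v | ∃ q ∈ Z, v ∈ Bx q.1 q.2}

open Classical in
/-- a set of vertices with one radius -/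
noncomputable def im (r : ℕ) (S : Finset (V d)) : Finset (V d × ℕ) := S.image fun z => (z, r)

/-! ### the dyadic structure over a face -/

/-- unit of length of the level `t` -/
def rho (n q0 t : ℕ) : ℕ := 2 ^ (q0 + (t - 1) / (n + 1))

/-- direction in which two nodes of level `t` are merged -/
def jj (n t : ℕ) : Fin (n + 2) := ⟨t % (n + 1) + 1, by
  have := Nat.mod_lt t (show 0 < n + 1 by omega); omega⟩

/-- side of the nodes of level `t` in the direction `k` -/
def sd (n q0 t : ℕ) (k : Fin (n + 2)) : ℕ := 2 ^ (q0 + n + 10 + (t + n + 1 - k) / (n + 1))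

/-- height of the token boxes (`H42/HG/Token.lean`) -/
def hb (n q0 : ℕ) : ℕ := Pool.Agent.H42.HG.HT n (2 ^ (q0 + n + 10))

/-- height of the ports of the nodes of level `t` -/
def Ht (n q0 : ℕ) : ℕ → ℕ
  | 0 => hb n q0 + 16 * rho n q0 0
  | t + 1 => Ht n q0 t + 40 * rho n q0 (t + 1)

/-- number of levels over a face of side `2^i` -/
def TT (n q0 i : ℕ) : ℕ := (n + 1) * (i - (q0 + n + 10))

/-- the point at height `h` over the centre of the node `(t, lo)`, moved by `o (1, …, 1)` -/
def Po (q0 t : ℕ) (lo : V (n + 2)) (h o : ℤ) : V (n + 2) :=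
  fun k => if k = 0 then h else lo k + ((sd n q0 t k / 2 : ℕ) : ℤ) + o

/-- port: end of the lane `s` of the node `(t, lo)` -/
def ln (q0 t : ℕ) (lo : V (n + 2)) (s : Bool) : V (n + 2) :=
  Po q0 t lo (Ht n q0 t) (sg s * (16 * rho n q0 t))

/-- the child `c` of the node `(t + 1, lo)` -/
def ch (q0 t : ℕ) (lo : V (n + 2)) (c : Bool) : V (n + 2) :=
  if c then lo + Pi.single (jj n t) (sd n q0 t (jj n t) : ℤ) else lo

/-- the vertex `v` of the face lies under the node -/
def InN (q0 t : ℕ) (lo v : V (n + 2)) : Prop :=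
  v 0 = 0 ∧ ∀ k, k ≠ 0 → lo k ≤ v k ∧ v k < lo k + sd n q0 t k

/-- column over the node -/
def Col (q0 t : ℕ) (lo : V (n + 2)) : Set (V (n + 2)) :=
  {v | 1 ≤ v 0 ∧ ∀ k, k ≠ 0 → lo k ≤ v k ∧ v k < lo k + sd n q0 t k}

/-- all nodes of the tree below `(t, lo)` (inclusive) -/
noncomputable def nodes (q0 : ℕ) : ℕ → V (n + 2) → Finset (ℕ × V (n + 2))
  | 0, lo => {(0, lo)}
  | t + 1, lo => open Classical in
    insert (t + 1, lo) (nodes q0 t (ch q0 t lo false) ∪ nodes q0 t (ch q0 t lo true))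

/-- neighbourhood of the lane `s` near the top of the node -/
def zoneS (q0 t : ℕ) (lo : V (n + 2)) (s : Bool) : Set (V (n + 2)) :=
  {v | v ∈ Col q0 t lo ∧ (Ht n q0 t : ℤ) - 2 * rho n q0 t ≤ v 0 ∧ v 0 ≤ (Ht n q0 t : ℤ) + 2 * rho n q0 t ∧
    14 * (rho n q0 t : ℤ) ≤ sg s * (v (jj n t) - (lo (jj n t) + ((sd n q0 t (jj n t) / 2 : ℕ) : ℤ)))}

/-- region of a node -/
def regS (q0 : ℕ) : ℕ → V (n + 2) → Set (V (n + 2))
  | 0, lo => {v | v ∈ Col q0 0 lo ∧ v 0 ≤ (Ht n q0 0 : ℤ) + 2 * rho n q0 0}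
  | t + 1, lo => {v | v ∈ Col q0 (t + 1) lo ∧ (Ht n q0 t : ℤ) + 2 * rho n q0 t < v 0 ∧
      v 0 ≤ (Ht n q0 (t + 1) : ℤ) + 2 * rho n q0 (t + 1)}

/-! ### the base boxes -/

/-- closed base box of the cell with corner `lo`: heights `0, …, hb + 8 rho 0` -/
noncomputable def ClB (q0 : ℕ) (lo : V (n + 2)) : Finset (V (n + 2)) :=
  Fintype.piFinset fun k => if k = 0 then Finset.Icc 0 ((hb n q0 : ℤ) + 8 * rho n q0 0)
    else Finset.Ico (lo k) (lo k + sd n q0 0 k)

open Classical in
/-- the elements of the base box which are not inside the face -/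
noncomputable def FlS (q0 : ℕ) (lo : V (n + 2)) : Finset (El (n + 2)) :=
  ((ClB q0 lo ×ˢ ClB q0 lo).image fun e => s(e.1, e.2)).filter fun e => ∃ v ∈ e, 1 ≤ v 0

/-- bound of the lengths of the paths inside a base box -/
def mB (n q0 : ℕ) : ℕ := 8 * ((hb n q0 + 8 * rho n q0 0 + 1) * (2 ^ (q0 + n + 10)) ^ (n + 1))

/-! ### the gadget which merges the two children of `(t + 1, lo)` -/

/-- way point of the lane `s` of the child `c` at the height `8 l rho (t+1)` over the top of the child -/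
def Wp (q0 t : ℕ) (lo : V (n + 2)) (c s : Bool) (l : ℕ) : V (n + 2) :=
  Po q0 t (ch q0 t lo c) (Ht n q0 t + 8 * l * rho n q0 (t + 1)) (sg s * (16 * rho n q0 (t + 1)))

/-- way point of the lane `s` of the parent -/
def Up (q0 t : ℕ) (lo : V (n + 2)) (s : Bool) (l : ℕ) : V (n + 2) :=
  Po q0 (t + 1) lo (Ht n q0 t + 8 * l * rho n q0 (t + 1)) (sg s * (16 * rho n q0 (t + 1)))

open Classical in
/-- first part of all routes from the lane `s` of the child `c` -/
noncomputable def botZ (q0 t : ℕ) (lo : V (n + 2)) (c s : Bool) : Finset (V (n + 2) × ℕ) :=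
  insert (ln q0 t (ch q0 t lo c) s, rho n q0 t)
    (im (rho n q0 (t + 1)) (St (ln q0 t (ch q0 t lo c) s) (Wp q0 t lo c s 1)))

open Classical in
/-- route from the lane `s` of the child `c` to the lane `s'` of the parent, with horizontal part at level `l` -/
noncomputable def upZ (q0 t : ℕ) (lo : V (n + 2)) (c s s' : Bool) (l : ℕ) :
    Finset (V (n + 2) × ℕ) :=
  botZ q0 t lo c s ∪ im (rho n q0 (t + 1)) (St (Wp q0 t lo c s 1) (Wp q0 t lo c s l) ∪
    St (Wp q0 t lo c s l) (Up q0 t lo s' l) ∪ St (Up q0 t lo s' l) (Up q0 t lo s' 5))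

open Classical in
/-- route from the lane `s` of the child `false` to the lane `false` of the child `true` -/
noncomputable def joZ (q0 t : ℕ) (lo : V (n + 2)) (s : Bool) : Finset (V (n + 2) × ℕ) :=
  botZ q0 t lo false s ∪ botZ q0 t lo true false ∪
    im (rho n q0 (t + 1)) (St (Wp q0 t lo false s 1) (Wp q0 t lo false s 2) ∪
      St (Wp q0 t lo false s 2) (Wp q0 t lo true false 2) ∪
      St (Wp q0 t lo true false 1) (Wp q0 t lo true false 2))

/-- vertical part of the lane `s` over the cell with corner `lo` -/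
noncomputable def leZ (q0 : ℕ) (lo : V (n + 2)) (s : Bool) : Finset (V (n + 2) × ℕ) :=
  im (rho n q0 0) (St (Po q0 0 lo (hb n q0 + 4 * rho n q0 0) (sg s * (16 * rho n q0 0))) (ln q0 0 lo s))

open Classical in
/-- all requirements of the node -/
noncomputable def TN (q0 : ℕ) : ℕ → V (n + 2) → Finset (V (n + 2) × ℕ)
  | 0, lo => leZ q0 lo false ∪ leZ q0 lo true
  | t + 1, lo => upZ q0 t lo false false false 4 ∪ upZ q0 t lo false true true 3 ∪
      upZ q0 t lo true false false 3 ∪ upZ q0 t lo true true true 4 ∪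
      upZ q0 t lo true false true 4 ∪ upZ q0 t lo true true false 4 ∪
      joZ q0 t lo false ∪ joZ q0 t lo true

/-! ### top routes (frame coordinates of a face) -/

/-- end of the first (vertical) leg, height `R/2` -/
def tp1 (n q0 i : ℕ) (σ : Bool) : V (n + 2) :=
  Function.update (ln q0 (TT n q0 i) 0 σ) 0 (2 ^ (i - 1))

/-- after the second leg, in the direction `k` -/
def tp2 (n q0 i : ℕ) (σ : Bool) (k : Fin (n + 2)) (δ : Bool) : V (n + 2) :=
  if k = 0 then tp1 n q0 i σ else
    Function.update (tp1 n q0 i σ) k (if δ then 3 * 2 ^ (i - 1) else -2 ^ (i - 1))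

/-- after the third leg: all coordinates except `k` are those of `C` -/
def tp3 (n q0 i : ℕ) (σ : Bool) (k : Fin (n + 2)) (δ : Bool) (C : V (n + 2)) : V (n + 2) :=
  Function.update C k (tp2 n q0 i σ k δ k)

/-- point of the last leg at distance `e` from the end `C ± A e_k` -/
def tpe (C : V (n + 2)) (A : ℕ) (k : Fin (n + 2)) (δ : Bool) (e : ℕ) : V (n + 2) :=
  Function.update C k (C k + sg δ * ((A : ℤ) - e))

/-- length of the last leg -/
def tpD (n q0 i : ℕ) (σ : Bool) (k : Fin (n + 2)) (δ : Bool) (C : V (n + 2)) (A : ℕ) : ℕ :=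
  ((A : ℤ) + sg δ * (C k - tp2 n q0 i σ k δ k)).toNat

open Classical in
/-- last leg, radius decreasing to `r6` at the distance `16 r6` -/
noncomputable def lastZ (n q0 i : ℕ) (σ : Bool) (k : Fin (n + 2)) (δ : Bool) (C : V (n + 2)) (A r6 : ℕ) :
    Finset (V (n + 2) × ℕ) :=
  (Finset.Icc (16 * r6) (tpD n q0 i σ k δ C A)).image fun e =>
    (tpe C A k δ e, min (rho n q0 (TT n q0 i)) (e / 16))

open Classical in
/-- TOP ROUTE from the lane `σ` of the root to the port `C ± A e_k` -/
noncomputable def topZ (n q0 i : ℕ) (σ : Bool) (k : Fin (n + 2)) (δ : Bool) (C : V (n + 2)) (A r6 : ℕ) :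
    Finset (V (n + 2) × ℕ) :=
  im (rho n q0 (TT n q0 i)) (St (ln q0 (TT n q0 i) 0 σ) (tp1 n q0 i σ) ∪
    St (tp1 n q0 i σ) (tp2 n q0 i σ k δ) ∪
    St (tp2 n q0 i σ k δ) (tp3 n q0 i σ k δ C)) ∪ lastZ n q0 i σ k δ C A r6

/-! ### objects in actual coordinates -/

/-- labels of the trees -/
abbrev X (n : ℕ) : Type := Face n × (ℕ × V (n + 2))

lemma rho_pos (n q0 t : ℕ) : 1 ≤ rho n q0 t := Nat.one_le_two_pow

lemma rho_mono (n q0 : ℕ) {t t' : ℕ} (h : t ≤ t') : rho n q0 t ≤ rho n q0 t' := by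
  unfold rho
  apply Nat.pow_le_pow_right (by norm_num)
  have : (t - 1) / (n + 1) ≤ (t' - 1) / (n + 1) := Nat.div_le_div_right (by omega)
  omega

lemma zoneS_sub (q0 t : ℕ) (lo : V (n + 2)) (s : Bool) : zoneS q0 t lo s ⊆ regS q0 t lo := by
  rintro v ⟨h1, h2, h3, -⟩
  cases t with
  | zero => exact ⟨h1, h3⟩
  | succ t =>
    refine ⟨h1, ?_, h3⟩
    have e : Ht n q0 (t + 1) = Ht n q0 t + 40 * rho n q0 (t + 1) := rfl
    have h4 := rho_mono n q0 (Nat.le_succ t)
    have h5 := rho_pos n q0 t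
    rw [e] at h2
    push_cast at h2
    have h6 : (rho n q0 t : ℤ) ≤ rho n q0 (t + 1) := by exact_mod_cast h4
    have h7 : (1 : ℤ) ≤ rho n q0 t := by exact_mod_cast h5
    linarith

lemma zoneS_disj (q0 t : ℕ) (lo : V (n + 2)) : Disjoint (zoneS q0 t lo false) (zoneS q0 t lo true) := by
  rw [Set.disjoint_left]
  rintro v ⟨-, -, -, h1⟩ ⟨-, -, -, h2⟩
  have h7 : (1 : ℤ) ≤ rho n q0 t := by exact_mod_cast rho_pos n q0 t
  simp only [sg, Bool.false_eq_true, if_false, if_true] at h1 h2
  linarith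

/-- regions, zones, hubs of the trees over the faces of `cube i a` -/
noncomputable def geo {κ : Kind} {p : unitInterval} (RS : RoadSys κ (n + 2) p) (q0 i : ℕ)
    (a : V (n + 2)) (ω' : El (n + 2) → Bool) : Geo (X n) (n + 2) where
  reg x := fr i a x.1 '' regS q0 x.2.1 x.2.2
  zone x s := fr i a x.1 '' zoneS q0 x.2.1 x.2.2 s
  hub x s := fr i a x.1 (RS.hub (ln q0 x.2.1 x.2.2 s) (rho n q0 x.2.1) (tr (fr i a x.1) ω'))
  zone_sub _ _ := Set.image_mono (zoneS_sub _ _ _ _)
  zone_disj x := (Set.disjoint_image_iff (fr i a x.1).injective).2 (zoneS_disj _ _ _)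

/-- cost of a node -/
noncomputable def KK {κ : Kind} {p : unitInterval} (RS : RoadSys κ (n + 2) p) (q0 i : ℕ)
    (a : V (n + 2)) (ω' : El (n + 2) → Bool) (x : X n) : ℕ :=
  ∑ q ∈ TN q0 x.2.1 x.2.2, RS.lam q.1 q.2 (tr (fr i a x.1) ω')

/-- the tree of the node `(t, lo)` over the face `F` -/
noncomputable def tree (q0 : ℕ) (F : Face n) : ℕ → V (n + 2) → Pool.Agent.H47.HJ.Tree (X n)
  | 0, lo => .leaf (F, (0, lo))
  | t + 1, lo => .node (F, (t + 1, lo)) (tree q0 F t (ch q0 t lo false)) (tree q0 F t (ch q0 t lo true))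

/-- end point of the module in the direction `g = (coordinate, sign)` -/
def Port (n m h U : ℕ) (g : Face n) : V (n + 2) :=
  cen n m h + (sg g.2 * (2 ^ (m - h + 7) * U)) • (Pi.single g.1 1 : V (n + 2))

/-- half ball at the port -/
noncomputable def HB (n m h U r6 : ℕ) (g : Face n) : Finset (V (n + 2)) :=
  (Bx (Port n m h U g) (32 * r6)).filter fun v => sg g.2 * (v g.1 - cen n m h g.1) ≤ 2 ^ (m - h + 7) * U

open Classical in
/-- the elements inside the half balls -/
noncomputable def Fl0S (n m h U r6 : ℕ) : Finset (El (n + 2)) :=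
  Finset.univ.biUnion fun g : Face n => (HB n m h U r6 g ×ˢ HB n m h U r6 g).image fun e => s(e.1, e.2)

/-- frame direction of the actual direction `g` over the face `F` (for `g ≠ -F`) -/
def dk (F g : Face n) : Fin (n + 2) := Equiv.swap 0 F.1 g.1

/-- sign of the frame direction -/
def dδ (F g : Face n) : Bool := if g.1 = F.1 then true else g.2

/-- top route over the face `F` from the lane `σ` in the actual direction `g` (frame coordinates of `F`) -/
noncomputable def tR (n q0 m h U r6 i : ℕ) (a : V (n + 2)) (F : Face n) (σ : Bool) (g : Face n) :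
    Finset (V (n + 2) × ℕ) :=
  topZ n q0 i σ (dk F g) (dδ F g) ((fr i a F).symm (cen n m h)) (2 ^ (m - h + 7) * U) r6

end Pool.Agent.H30.HG
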