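import Pool.Agent.H30.HG.Defs
import Pool.Agent.H94.BM.Splice

/-!
# HG module Stair: staircases and connections of requirements (pure combinatorics)

`St p q` is the union over `k` of the points `(q 0, …, q (k-1), t, p (k+1), …)` with `t` between `p k` and `q k`. `St_lk`: walk
along coordinate `0`, then coordinate `1`, …; consecutive points are `LatAdj` (`stepVec`); the radius is constant.
-/

open MeasureTheory Filter Topology
open Pool.Agent.H17.IIC Pool.Agent.H41.QC Pool.Agent.H47.GM Pool.Agent.H17.QA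
open Pool.Agent.H94.HG Pool.Agent.H94.BM Pool.Agent.H47.HJ

namespace Pool.Agent.H30.HG

variable {n d : ℕ}

lemma mem_im {r : ℕ} {S : Finset (V d)} {q : V d × ℕ} : q ∈ im r S ↔ q.1 ∈ S ∧ q.2 = r := by
  unfold im
  rw [Finset.mem_image]
  constructor
  · rintro ⟨v, hv, rfl⟩; exact ⟨hv, rfl⟩
  · rintro ⟨h1, h2⟩; exact ⟨q.1, h1, by rw [← h2]⟩

private lemma Stair_mem {p q v : V d} : v ∈ St p q ↔ ∃ k : Fin d, ∃ t : ℤ,
    (min (p k) (q k) ≤ t ∧ t ≤ max (p k) (q k)) ∧
      v = fun m => if m < k then q m else if m = k then t else p m := by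
  unfold St
  simp only [Finset.mem_biUnion, Finset.mem_univ, true_and, Finset.mem_image, Finset.mem_Icc]
  constructor
  · rintro ⟨k, t, ht, rfl⟩; exact ⟨k, t, ht, rfl⟩
  · rintro ⟨k, t, ht, rfl⟩; exact ⟨k, t, ht, rfl⟩

/-- every point of the staircase is in the bounding box of its ends -/
lemma St_bd {p q z : V d} (h : z ∈ St p q) (m : Fin d) : min (p m) (q m) ≤ z m ∧ z m ≤ max (p m) (q m) := by
  obtain ⟨k, t, ht, rfl⟩ := Stair_mem.1 h
  dsimp only
  by_cases h1 : m < k
  · rw [if_pos h1]; exact ⟨min_le_right _ _, le_max_right _ _⟩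
  · by_cases h2 : m = k
    · rw [if_neg h1, if_pos h2, h2]; exact ht
    · rw [if_neg h1, if_neg h2]; exact ⟨min_le_left _ _, le_max_left _ _⟩

/-- the form of the points -/
lemma St_mem {p q z : V d} : z ∈ St p q ↔ ∃ k : Fin d, (∀ m, m < k → z m = q m) ∧
    (min (p k) (q k) ≤ z k ∧ z k ≤ max (p k) (q k)) ∧ ∀ m, k < m → z m = p m := by
  rw [Stair_mem]
  constructor
  · rintro ⟨k, t, ht, rfl⟩
    refine ⟨k, fun m hm => ?_, ?_, fun m hm => ?_⟩
    · dsimp only; rw [if_pos hm]
    · dsimp only; rw [if_neg (lt_irrefl k), if_pos rfl]; exact ht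
    · dsimp only; rw [if_neg (not_lt.2 hm.le), if_neg (ne_of_gt hm)]
  · rintro ⟨k, h1, h2, h3⟩
    refine ⟨k, z k, h2, ?_⟩
    funext m
    rcases lt_trichotomy m k with h | h | h
    · rw [if_pos h]; exact h1 m h
    · subst h; rw [if_neg (lt_irrefl m), if_pos rfl]
    · rw [if_neg (not_lt.2 h.le), if_neg (ne_of_gt h)]; exact h3 m h

lemma St_left (p q : V (n + 1)) : p ∈ St p q := by
  rw [St_mem]
  refine ⟨0, fun m hm => absurd hm (Fin.not_lt_zero m), ⟨min_le_left _ _, le_max_left _ _⟩,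
    fun _ _ => rfl⟩

lemma St_right (p q : V (n + 1)) : q ∈ St p q := by
  rw [St_mem]
  refine ⟨Fin.last n, fun _ _ => rfl, ⟨min_le_right _ _, le_max_right _ _⟩,
    fun m hm => absurd hm (not_lt.2 (Fin.le_last m))⟩

lemma St_card {p q : V d} {B : ℕ} (h : ∀ k, |p k - q k| ≤ B) : (St p q).card ≤ d * (B + 1) := by
  unfold St
  calc _ ≤ ∑ k : Fin d, ((Finset.Icc (min (p k) (q k)) (max (p k) (q k))).image fun t =>
            (fun m => if m < k then q m else if m = k then t else p m : V d)).card :=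
        Finset.card_biUnion_le
    _ ≤ ∑ _k : Fin d, (B + 1) := by
        refine Finset.sum_le_sum fun k _ => Finset.card_image_le.trans ?_
        rw [Int.card_Icc]
        have h1 := h k
        rcases le_total (p k) (q k) with h2 | h2
        · rw [min_eq_left h2, max_eq_right h2]
          rw [abs_le] at h1
          omega
        · rw [min_eq_right h2, max_eq_left h2]
          rw [abs_le] at h1
          omega
    _ = d * (B + 1) := by simp

lemma Lk.mono {Z Z' : Finset (V d × ℕ)} {a b : V d × ℕ} (h : Lk Z a b) (hZ : Z ⊆ Z') : Lk Z' a b :=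
  ⟨hZ h.1, by
    obtain ⟨-, h⟩ := h
    induction h with
    | refl => exact Relation.ReflTransGen.refl
    | tail _ h2 ih => exact ih.tail ⟨h2.1, hZ h2.2⟩⟩

lemma Lk.right {Z : Finset (V d × ℕ)} {a b : V d × ℕ} (h : Lk Z a b) : b ∈ Z := by
  obtain ⟨ha, h⟩ := h
  cases h with
  | refl => exact ha
  | tail _ h2 => exact h2.2

private lemma Stair_qadj_symm {a b : V d × ℕ} (h : QAdj a b) : QAdj b a :=
  ⟨h.1.elim (fun h => Or.inl h.symm) (fun h => Or.inr (Split_latAdj_symm h)), h.2.2, h.2.1⟩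

lemma Lk.symm {Z : Finset (V d × ℕ)} {a b : V d × ℕ} (h : Lk Z a b) : Lk Z b a := by
  obtain ⟨ha, h⟩ := h
  induction h with
  | refl => exact ⟨ha, Relation.ReflTransGen.refl⟩
  | tail h1 h2 ih => exact ⟨h2.2, Relation.ReflTransGen.head ⟨Stair_qadj_symm h2.1, ih.1⟩ ih.2⟩

lemma Lk.trans {Z : Finset (V d × ℕ)} {a b c : V d × ℕ} (h : Lk Z a b) (h' : Lk Z b c) : Lk Z a c :=
  ⟨h.1, Relation.ReflTransGen.trans h.2 h'.2⟩

/-- one step -/
lemma Lk.single {Z : Finset (V d × ℕ)} {a b : V d × ℕ} (ha : a ∈ Z) (hb : b ∈ Z) (h : QAdj a b) :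
    Lk Z a b := ⟨ha, Relation.ReflTransGen.single ⟨h, hb⟩⟩

private lemma Stair_seg {Z : Finset (V d × ℕ)} {r : ℕ} {g : ℤ → V d}
    (hg : ∀ t, LatAdj (g t) (g (t + 1)))
    {s t : ℤ} (hst : s ≤ t) (hZ : ∀ u, s ≤ u → u ≤ t → (g u, r) ∈ Z) : Lk Z (g s, r) (g t, r) := by
  induction t, hst using Int.leInduction with
  | base => exact ⟨hZ s le_rfl le_rfl, Relation.ReflTransGen.refl⟩
  | succ t ht ih =>
    refine Lk.trans (ih fun u h1 h2 => hZ u h1 (by omega)) ?_
    refine Lk.single (hZ t ht (by omega)) (hZ (t + 1) (by omega) le_rfl) ⟨Or.inr (hg t), ?_, ?_⟩ <;>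
      dsimp only <;> omega

/-- walking along the staircase with constant radius -/
theorem St_lk (r : ℕ) (p q : V (n + 1)) : Lk (im r (St p q)) (p, r) (q, r) := by
  classical
  -- corners
  set c : ℕ → V (n + 1) := fun j m => if (m : ℕ) < j then q m else p m with hc
  have h0 : c 0 = p := by
    funext m; simp only [hc, Nat.not_lt_zero, if_false]
  have hd : c (n + 1) = q := by
    funext m; simp only [hc, m.isLt, if_true]
  have hstep : ∀ j, j < n + 1 → Lk (im r (St p q)) (c j, r) (c (j + 1), r) := by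
    intro j hj
    set k : Fin (n + 1) := ⟨j, hj⟩ with hk
    set g : ℤ → V (n + 1) := fun t m => if m < k then q m else if m = k then t else p m with hg
    have hadj : ∀ t, LatAdj (g t) (g (t + 1)) := by
      intro t
      refine ⟨(k, true), ?_⟩
      funext m
      simp only [hg, stepVec, Pi.add_apply, if_true]
      by_cases h1 : m < k
      · rw [if_pos h1, if_pos h1, Pi.single_eq_of_ne (ne_of_lt h1), add_zero]
      · by_cases h2 : m = k
        · subst h2
          rw [if_neg h1, if_pos rfl, if_neg h1, if_pos rfl, Pi.single_eq_same]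
        · rw [if_neg h1, if_neg h2, if_neg h1, if_neg h2, Pi.single_eq_of_ne h2, add_zero]
    have hZ : ∀ u, min (p k) (q k) ≤ u → u ≤ max (p k) (q k) → (g u, r) ∈ im r (St p q) := by
      intro u h1 h2
      exact mem_im.2 ⟨Stair_mem.2 ⟨k, u, ⟨h1, h2⟩, rfl⟩, rfl⟩
    have e1 : g (p k) = c j := by
      funext m
      simp only [hg, hc]
      by_cases h1 : m < k
      · have : (m : ℕ) < j := h1
        rw [if_pos h1, if_pos this]
      · have h3 : ¬ (m : ℕ) < j := fun h => h1 h
        rw [if_neg h1, if_neg h3]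
        by_cases h2 : m = k
        · rw [if_pos h2, h2]
        · rw [if_neg h2]
    have e2 : g (q k) = c (j + 1) := by
      funext m
      simp only [hg, hc]
      by_cases h1 : m < k
      · have : (m : ℕ) < j + 1 := by have : (m : ℕ) < j := h1; omega
        rw [if_pos h1, if_pos this]
      · by_cases h2 : m = k
        · have : (m : ℕ) < j + 1 := by rw [h2]; show j < j + 1; omega
          rw [if_neg h1, if_pos h2, if_pos this, h2]
        · have h3 : ¬ (m : ℕ) < j + 1 := by
            intro h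
            have h4 : (m : ℕ) ≠ j := fun h5 => h2 (Fin.ext h5)
            exact h1 (show (m : ℕ) < j by omega)
          rw [if_neg h1, if_neg h2, if_neg h3]
    rw [← e1, ← e2]
    rcases le_total (p k) (q k) with h | h
    · exact Stair_seg hadj h fun u h1 h2 => hZ u (by rw [min_eq_left h]; exact h1)
        (by rw [max_eq_right h]; exact h2)
    · exact Lk.symm (Stair_seg hadj h fun u h1 h2 => hZ u (by rw [min_eq_right h]; exact h1)
        (by rw [max_eq_left h]; exact h2))
  have hall : ∀ j, j ≤ n + 1 → Lk (im r (St p q)) (c 0, r) (c j, r) := by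
    intro j
    induction j with
    | zero =>
      intro _
      exact ⟨(hstep 0 (Nat.succ_pos n)).1, Relation.ReflTransGen.refl⟩
    | succ j ih =>
      intro hj
      exact Lk.trans (ih (by omega)) (hstep j (by omega))
  have := hall (n + 1) le_rfl
  rwa [h0, hd] at this

lemma Zr_mono {Z Z' : Finset (V d × ℕ)} (h : Z ⊆ Z') : Zr Z ⊆ Zr Z' := by
  rintro v ⟨q, hq, hv⟩
  exact ⟨q, h hq, hv⟩

lemma Zr_union (Z Z' : Finset (V d × ℕ)) [DecidableEq (V d × ℕ)] : Zr (Z ∪ Z') = Zr Z ∪ Zr Z' := by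
  ext v
  constructor
  · rintro ⟨q, hq, hv⟩
    rcases Finset.mem_union.1 hq with h | h
    · exact Or.inl ⟨q, h, hv⟩
    · exact Or.inr ⟨q, h, hv⟩
  · rintro (⟨q, hq, hv⟩ | ⟨q, hq, hv⟩)
    · exact ⟨q, Finset.mem_union_left _ hq, hv⟩
    · exact ⟨q, Finset.mem_union_right _ hq, hv⟩

/-- balls over a staircase: the bounding box, enlarged by the radius -/
lemma Zr_St {r : ℕ} {p q v : V d} (h : v ∈ Zr (im r (St p q))) (m : Fin d) :
    min (p m) (q m) - r ≤ v m ∧ v m ≤ max (p m) (q m) + r := by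
  obtain ⟨z, hz, hv⟩ := h
  obtain ⟨h1, h2⟩ := mem_im.1 hz
  have h3 := St_bd h1 m
  have h4 : |v m - z.1 m| ≤ (z.2 : ℤ) := mem_Bx.1 hv m
  rw [h2, abs_le] at h4
  constructor <;> omega

/-- balls over a staircase whose ends differ in the coordinate `k` only -/
lemma Zr_St_single {r : ℕ} {p q v : V d} {k : Fin d} (hpq : ∀ m, m ≠ k → p m = q m)
    (h : v ∈ Zr (im r (St p q))) : (∀ m, m ≠ k → |v m - p m| ≤ r) ∧
    min (p k) (q k) - r ≤ v k ∧ v k ≤ max (p k) (q k) + r := by
  refine ⟨fun m hm => ?_, Zr_St h k⟩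
  have h1 := Zr_St h m
  rw [hpq m hm, min_self, max_self] at h1
  rw [hpq m hm, abs_le]
  constructor <;> omega

end Pool.Agent.H30.HG
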