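import Pool.Agent.H30.HG.Lvl
import Pool.Agent.H30.HG.Stair

/-!
# HG module GadA: the routes of the gadget are connected

Concatenate `St_lk`; the first step is from `(ln, rho t)` to `(ln, rho (t+1))`. `Up … s' 5 = ln (t+1) lo s'` because
`Ht (t+1) = Ht t + 40 rho (t+1)`.
-/

open MeasureTheory Filter Topology
open Pool.Agent.H17.IIC Pool.Agent.H41.QC Pool.Agent.H47.GM Pool.Agent.H17.QA
open Pool.Agent.H94.HG Pool.Agent.H94.BM Pool.Agent.H47.HJ

namespace Pool.Agent.H30.HG

variable {n d : ℕ}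

lemma GadA_im_mono {r : ℕ} {S S' : Finset (V d)} (h : S ⊆ S') : im r S ⊆ im r S' := by
  intro q hq
  rw [mem_im] at hq ⊢
  exact ⟨h hq.1, hq.2⟩

lemma GadA_Up5 (q0 t : ℕ) (lo : V (n + 2)) (s : Bool) : Up q0 t lo s 5 = ln q0 (t + 1) lo s := by
  unfold Up ln
  have e : ((Ht n q0 (t + 1) : ℕ) : ℤ) = (Ht n q0 t : ℤ) + 8 * ((5 : ℕ) : ℤ) * rho n q0 (t + 1) := by
    show ((Ht n q0 t + 40 * rho n q0 (t + 1) : ℕ) : ℤ) = _
    push_cast
    ring
  rw [e]

lemma GadA_bot (q0 t : ℕ) (lo : V (n + 2)) (c s : Bool) :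
    Lk (botZ q0 t lo c s) (ln q0 t (ch q0 t lo c) s, rho n q0 t)
      (Wp q0 t lo c s 1, rho n q0 (t + 1)) := by
  classical
  have hst := St_lk (n := n + 1) (rho n q0 (t + 1)) (ln q0 t (ch q0 t lo c) s) (Wp q0 t lo c s 1)
  have hsub : im (rho n q0 (t + 1)) (St (ln q0 t (ch q0 t lo c) s) (Wp q0 t lo c s 1)) ⊆
      botZ q0 t lo c s := by
    unfold botZ
    exact Finset.subset_insert _ _
  have h1 : (ln q0 t (ch q0 t lo c) s, rho n q0 t) ∈ botZ q0 t lo c s := by
    unfold botZ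
    exact Finset.mem_insert_self _ _
  refine Lk.trans (Lk.single h1 (hsub hst.1) ⟨Or.inl rfl, ?_, ?_⟩) (hst.mono hsub)
  · have := rho_mono n q0 (Nat.le_succ t)
    show rho n q0 t ≤ 2 * rho n q0 (t + 1)
    have h : rho n q0 t ≤ rho n q0 (t + 1) := this
    omega
  · exact rho_succ_le n q0 t

theorem lk_up (q0 t : ℕ) (lo : V (n + 2)) (c s s' : Bool) (l : ℕ) :
    Lk (upZ q0 t lo c s s' l) (ln q0 t (ch q0 t lo c) s, rho n q0 t) (ln q0 (t + 1) lo s', rho n q0 (t + 1)) := by
  classical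
  have hb : botZ q0 t lo c s ⊆ upZ q0 t lo c s s' l := by
    unfold upZ
    exact Finset.subset_union_left
  have hi : ∀ S : Finset (V (n + 2)), S ⊆ St (Wp q0 t lo c s 1) (Wp q0 t lo c s l) ∪
      St (Wp q0 t lo c s l) (Up q0 t lo s' l) ∪ St (Up q0 t lo s' l) (Up q0 t lo s' 5) →
      im (rho n q0 (t + 1)) S ⊆ upZ q0 t lo c s s' l := by
    intro S hS
    unfold upZ
    exact (GadA_im_mono hS).trans Finset.subset_union_right
  have h1 := (GadA_bot q0 t lo c s).mono hb
  have h2 := (St_lk (n := n + 1) (rho n q0 (t + 1)) (Wp q0 t lo c s 1) (Wp q0 t lo c s l)).mono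
    (hi _ (Finset.subset_union_left.trans Finset.subset_union_left))
  have h3 := (St_lk (n := n + 1) (rho n q0 (t + 1)) (Wp q0 t lo c s l) (Up q0 t lo s' l)).mono
    (hi _ (Finset.subset_union_right.trans Finset.subset_union_left))
  have h4 := (St_lk (n := n + 1) (rho n q0 (t + 1)) (Up q0 t lo s' l) (Up q0 t lo s' 5)).mono
    (hi _ Finset.subset_union_right)
  have h5 := ((h1.trans h2).trans h3).trans h4
  rwa [GadA_Up5] at h5

theorem lk_jo (q0 t : ℕ) (lo : V (n + 2)) (s : Bool) :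
    Lk (joZ q0 t lo s) (ln q0 t (ch q0 t lo false) s, rho n q0 t) (ln q0 t (ch q0 t lo true) false, rho n q0 t) := by
  classical
  have hb1 : botZ q0 t lo false s ⊆ joZ q0 t lo s := by
    unfold joZ
    exact Finset.subset_union_left.trans Finset.subset_union_left
  have hb2 : botZ q0 t lo true false ⊆ joZ q0 t lo s := by
    unfold joZ
    exact Finset.subset_union_right.trans Finset.subset_union_left
  have hi : ∀ S : Finset (V (n + 2)), S ⊆ St (Wp q0 t lo false s 1) (Wp q0 t lo false s 2) ∪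
      St (Wp q0 t lo false s 2) (Wp q0 t lo true false 2) ∪
      St (Wp q0 t lo true false 1) (Wp q0 t lo true false 2) →
      im (rho n q0 (t + 1)) S ⊆ joZ q0 t lo s := by
    intro S hS
    unfold joZ
    exact (GadA_im_mono hS).trans Finset.subset_union_right
  have h1 := (GadA_bot q0 t lo false s).mono hb1
  have h2 := (St_lk (n := n + 1) (rho n q0 (t + 1)) (Wp q0 t lo false s 1) (Wp q0 t lo false s 2)).mono
    (hi _ (Finset.subset_union_left.trans Finset.subset_union_left))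
  have h3 := (St_lk (n := n + 1) (rho n q0 (t + 1)) (Wp q0 t lo false s 2)
    (Wp q0 t lo true false 2)).mono
    (hi _ (Finset.subset_union_right.trans Finset.subset_union_left))
  have h4 := (St_lk (n := n + 1) (rho n q0 (t + 1)) (Wp q0 t lo true false 1)
    (Wp q0 t lo true false 2)).mono (hi _ Finset.subset_union_right)
  have h5 := (GadA_bot q0 t lo true false).mono hb2
  exact (((h1.trans h2).trans h3).trans h4.symm).trans h5.symm

theorem lk_le (q0 : ℕ) (lo : V (n + 2)) (s : Bool) :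
    Lk (leZ q0 lo s) (Po q0 0 lo (hb n q0 + 4 * rho n q0 0) (sg s * (16 * rho n q0 0)), rho n q0 0)
      (ln q0 0 lo s, rho n q0 0) := by
  unfold leZ
  exact St_lk (n := n + 1) _ _ _

lemma GadA_bot_rad (q0 t : ℕ) (lo : V (n + 2)) (c s : Bool) {q : V (n + 2) × ℕ}
    (h : q ∈ botZ q0 t lo c s) : q.2 = rho n q0 t ∨ q.2 = rho n q0 (t + 1) := by
  classical
  unfold botZ at h
  rw [Finset.mem_insert, mem_im] at h
  rcases h with rfl | h
  · exact Or.inl rfl
  · exact Or.inr h.2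

lemma GadA_up_rad (q0 t : ℕ) (lo : V (n + 2)) (c s s' : Bool) (l : ℕ) {q : V (n + 2) × ℕ}
    (h : q ∈ upZ q0 t lo c s s' l) : q.2 = rho n q0 t ∨ q.2 = rho n q0 (t + 1) := by
  classical
  unfold upZ at h
  rw [Finset.mem_union, mem_im] at h
  rcases h with h | h
  · exact GadA_bot_rad q0 t lo c s h
  · exact Or.inr h.2

lemma GadA_jo_rad (q0 t : ℕ) (lo : V (n + 2)) (s : Bool) {q : V (n + 2) × ℕ}
    (h : q ∈ joZ q0 t lo s) : q.2 = rho n q0 t ∨ q.2 = rho n q0 (t + 1) := by
  classical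
  unfold joZ at h
  rw [Finset.mem_union, Finset.mem_union, mem_im] at h
  rcases h with (h | h) | h
  · exact GadA_bot_rad q0 t lo _ _ h
  · exact GadA_bot_rad q0 t lo _ _ h
  · exact Or.inr h.2

/-- the radii -/
theorem TN_rad (q0 t : ℕ) (lo : V (n + 2)) {q : V (n + 2) × ℕ} (h : q ∈ TN q0 t lo) :
    rho n q0 t ≤ 2 * q.2 ∧ 1 ≤ q.2 ∧ q.2 ≤ rho n q0 t := by
  classical
  cases t with
  | zero =>
    have h1 : q.2 = rho n q0 0 := by
      unfold TN leZ at h
      rw [Finset.mem_union, mem_im, mem_im] at h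
      rcases h with h | h
      · exact h.2
      · exact h.2
    have h2 := rho_pos n q0 0
    rw [h1]
    omega
  | succ t =>
    have h1 : q.2 = rho n q0 t ∨ q.2 = rho n q0 (t + 1) := by
      unfold TN at h
      simp only [Finset.mem_union] at h
      rcases h with ((((((h | h) | h) | h) | h) | h) | h) | h
      · exact GadA_up_rad _ _ _ _ _ _ _ h
      · exact GadA_up_rad _ _ _ _ _ _ _ h
      · exact GadA_up_rad _ _ _ _ _ _ _ h
      · exact GadA_up_rad _ _ _ _ _ _ _ h
      · exact GadA_up_rad _ _ _ _ _ _ _ h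
      · exact GadA_up_rad _ _ _ _ _ _ _ h
      · exact GadA_jo_rad _ _ _ _ h
      · exact GadA_jo_rad _ _ _ _ h
    have h2 := rho_pos n q0 t
    have h3 := rho_pos n q0 (t + 1)
    have h4 : rho n q0 t ≤ rho n q0 (t + 1) := rho_mono n q0 (Nat.le_succ t)
    have h5 := rho_succ_le n q0 t
    rcases h1 with h1 | h1 <;> rw [h1] <;> omega

/-! ### cardinalities -/

lemma GadA_Po (q0 t : ℕ) (lo : V (n + 2)) (h h' o o' : ℤ) (k : Fin (n + 2)) :
    |Po q0 t lo h o k - Po q0 t lo h' o' k| ≤ |h - h'| + |o - o'| := by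
  unfold Po
  have h1 := abs_nonneg (h - h')
  have h2 := abs_nonneg (o - o')
  by_cases hk : k = 0
  · simp only [if_pos hk]
    linarith
  · simp only [if_neg hk]
    have : lo k + ((sd n q0 t k / 2 : ℕ) : ℤ) + o - (lo k + ((sd n q0 t k / 2 : ℕ) : ℤ) + o') =
        o - o' := by ring
    rw [this]
    linarith

lemma GadA_sg (s : Bool) : sg s = 1 ∨ sg s = -1 := by
  cases s
  · exact Or.inr rfl
  · exact Or.inl rfl

/-- centres of a child and of the parent, and of the two children -/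
lemma GadA_cen (q0 t : ℕ) (lo : V (n + 2)) (c : Bool) (k : Fin (n + 2)) (hk : k ≠ 0) :
    |(ch q0 t lo c k + ((sd n q0 t k / 2 : ℕ) : ℤ)) - (lo k + ((sd n q0 (t + 1) k / 2 : ℕ) : ℤ))| ≤
      2 ^ (n + 10) * (rho n q0 (t + 1) : ℤ) := by
  have h1 := sd_succ n q0 t hk
  have h2 := sd_half n q0 t k
  have h3 := sd_half n q0 (t + 1) k
  have h4 := sd_jj n q0 t
  have hpos : (0 : ℤ) ≤ 2 ^ (n + 10) * (rho n q0 (t + 1) : ℤ) := by positivity
  by_cases hj : k = jj n t
  · subst hj
    rw [if_pos rfl] at h1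
    have h5 : ((sd n q0 t (jj n t) : ℕ) : ℤ) = 2 ^ (n + 10) * (rho n q0 (t + 1) : ℤ) := by
      rw [h4]; push_cast; ring
    have h6 : (((sd n q0 t (jj n t) / 2 : ℕ) : ℤ)) * 2 = ((sd n q0 t (jj n t) : ℕ) : ℤ) := by
      have : sd n q0 t (jj n t) / 2 * 2 = sd n q0 t (jj n t) := by omega
      exact_mod_cast this
    have h7 : sd n q0 (t + 1) (jj n t) / 2 = sd n q0 t (jj n t) := by omega
    rw [h7]
    cases c
    · simp only [ch, Bool.false_eq_true, if_false]
      rw [abs_le]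
      constructor <;> linarith
    · simp only [ch, if_true, Pi.add_apply, Pi.single_eq_same]
      rw [abs_le]
      constructor <;> linarith
  · rw [if_neg hj] at h1
    rw [h1]
    cases c
    · simp only [ch, Bool.false_eq_true, if_false]
      rw [sub_self, abs_zero]
      exact hpos
    · simp only [ch, if_true, Pi.add_apply, Pi.single_eq_of_ne hj, add_zero]
      rw [sub_self, abs_zero]
      exact hpos

lemma GadA_PoPo (q0 t : ℕ) (lo : V (n + 2)) (c : Bool) (h o o' : ℤ) (k : Fin (n + 2)) :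
    |Po q0 t (ch q0 t lo c) h o k - Po q0 (t + 1) lo h o' k| ≤
      2 ^ (n + 10) * (rho n q0 (t + 1) : ℤ) + |o - o'| := by
  unfold Po
  have h2 := abs_nonneg (o - o')
  have hpos : (0 : ℤ) ≤ 2 ^ (n + 10) * (rho n q0 (t + 1) : ℤ) := by positivity
  by_cases hk : k = 0
  · simp only [if_pos hk]
    rw [sub_self, abs_zero]
    linarith
  · simp only [if_neg hk]
    have e : ch q0 t lo c k + ((sd n q0 t k / 2 : ℕ) : ℤ) + o -
        (lo k + ((sd n q0 (t + 1) k / 2 : ℕ) : ℤ) + o') =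
        ((ch q0 t lo c k + ((sd n q0 t k / 2 : ℕ) : ℤ)) -
          (lo k + ((sd n q0 (t + 1) k / 2 : ℕ) : ℤ))) + (o - o') := by ring
    rw [e]
    exact (abs_add_le _ _).trans (add_le_add (GadA_cen q0 t lo c k hk) le_rfl)

/-- staircases between points which differ by at most `2^(n+12) rho` in every coordinate -/
lemma GadA_card {q0 t : ℕ} {p q : V (n + 2)}
    (h : ∀ k, |p k - q k| ≤ 2 ^ (n + 12) * (rho n q0 (t + 1) : ℤ)) :
    (St p q).card ≤ (n + 2) * (2 ^ (n + 13) * rho n q0 (t + 1)) := by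
  have h1 : (St p q).card ≤ (n + 2) * (2 ^ (n + 12) * rho n q0 (t + 1) + 1) := by
    apply St_card
    intro k
    refine (h k).trans (le_of_eq ?_)
    push_cast
    ring
  refine h1.trans (Nat.mul_le_mul_left _ ?_)
  have h2 := rho_pos n q0 (t + 1)
  have h3 : 1 ≤ 2 ^ (n + 12) := Nat.one_le_two_pow
  have h4 : 1 ≤ 2 ^ (n + 12) * rho n q0 (t + 1) := Nat.mul_pos h3 h2
  have h5 : 2 ^ (n + 13) * rho n q0 (t + 1) = 2 * (2 ^ (n + 12) * rho n q0 (t + 1)) := by ring
  omega

lemma GadA_im_card {r : ℕ} (S : Finset (V d)) : (im r S).card ≤ S.card := by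
  classical
  unfold im
  exact Finset.card_image_le

/-- the three numerical bounds used for the staircases -/
lemma GadA_num (n q0 t : ℕ) : (64 : ℤ) * (rho n q0 (t + 1) : ℤ) ≤ 2 ^ (n + 10) * (rho n q0 (t + 1) : ℤ) ∧
    4 * (2 ^ (n + 10) * (rho n q0 (t + 1) : ℤ)) = 2 ^ (n + 12) * (rho n q0 (t + 1) : ℤ) ∧
    (rho n q0 t : ℤ) ≤ rho n q0 (t + 1) ∧ (0 : ℤ) ≤ rho n q0 t := by
  have h2 : (0 : ℤ) ≤ (rho n q0 (t + 1) : ℤ) := by positivity
  refine ⟨mul_le_mul_of_nonneg_right ?_ h2, by ring, ?_, by positivity⟩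
  · have : (2 : ℤ) ^ (n + 10) = 2 ^ n * 1024 := by rw [pow_add]; norm_num
    rw [this]
    have h3 : (1 : ℤ) ≤ 2 ^ n := one_le_pow₀ (by norm_num)
    linarith
  · exact_mod_cast rho_mono n q0 (Nat.le_succ t)

lemma GadA_bot_card (q0 t : ℕ) (lo : V (n + 2)) (c s : Bool) :
    (botZ q0 t lo c s).card ≤ 1 + (n + 2) * (2 ^ (n + 13) * rho n q0 (t + 1)) := by
  classical
  unfold botZ
  refine (Finset.card_insert_le _ _).trans ?_
  rw [add_comm]
  refine Nat.add_le_add_left ((GadA_im_card _).trans (GadA_card fun k => ?_)) 1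
  unfold ln Wp
  refine (GadA_Po q0 t _ _ _ _ _ k).trans ?_
  obtain ⟨h1, h2, h3, h4⟩ := GadA_num n q0 t
  have e1 : |(Ht n q0 t : ℤ) - (Ht n q0 t + 8 * (1 : ℕ) * rho n q0 (t + 1))| ≤
      8 * (rho n q0 (t + 1) : ℤ) := by
    rw [abs_le]; push_cast; constructor <;> linarith
  have e2 : |sg s * (16 * (rho n q0 t : ℤ)) - sg s * (16 * rho n q0 (t + 1))| ≤
      16 * (rho n q0 (t + 1) : ℤ) := by
    rcases GadA_sg s with h | h <;> rw [h, abs_le] <;> constructor <;> linarith
  linarith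

lemma GadA_ver (q0 t : ℕ) (lo : V (n + 2)) (o : ℤ) {l l' : ℕ} (hl : l ≤ 5) (hl' : l' ≤ 5) (t' : ℕ)
    (k : Fin (n + 2)) :
    |Po q0 t' lo (Ht n q0 t + 8 * l * rho n q0 (t + 1)) o k -
      Po q0 t' lo (Ht n q0 t + 8 * l' * rho n q0 (t + 1)) o k| ≤
      2 ^ (n + 12) * (rho n q0 (t + 1) : ℤ) := by
  refine (GadA_Po q0 t' _ _ _ _ _ k).trans ?_
  obtain ⟨h1, h2, h3, h4⟩ := GadA_num n q0 t
  rw [sub_self, abs_zero, add_zero]
  have hl1 : (l : ℤ) ≤ 5 := by exact_mod_cast hl
  have hl2 : (l' : ℤ) ≤ 5 := by exact_mod_cast hl'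
  have hl3 : (0 : ℤ) ≤ l := by positivity
  have hl4 : (0 : ℤ) ≤ l' := by positivity
  have e : (Ht n q0 t : ℤ) + 8 * l * rho n q0 (t + 1) - (Ht n q0 t + 8 * l' * rho n q0 (t + 1)) =
      ((l : ℤ) - l') * (8 * rho n q0 (t + 1)) := by ring
  rw [e, abs_mul, abs_of_nonneg (by linarith : (0 : ℤ) ≤ 8 * rho n q0 (t + 1))]
  have h5 : |(l : ℤ) - l'| ≤ 5 := by rw [abs_le]; constructor <;> linarith
  have h6 : |(l : ℤ) - l'| * (8 * rho n q0 (t + 1)) ≤ 5 * (8 * (rho n q0 (t + 1) : ℤ)) :=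
    mul_le_mul_of_nonneg_right h5 (by linarith)
  linarith

lemma GadA_up_card (q0 t : ℕ) (lo : V (n + 2)) (c s s' : Bool) {l : ℕ} (hl : l ≤ 5) :
    (upZ q0 t lo c s s' l).card ≤ 1 + 4 * ((n + 2) * (2 ^ (n + 13) * rho n q0 (t + 1))) := by
  classical
  obtain ⟨h1, h2, h3, h4⟩ := GadA_num n q0 t
  have c1 : (St (Wp q0 t lo c s 1) (Wp q0 t lo c s l)).card ≤
      (n + 2) * (2 ^ (n + 13) * rho n q0 (t + 1)) :=
    GadA_card fun k => GadA_ver q0 t _ _ (by norm_num) hl t k
  have c3 : (St (Up q0 t lo s' l) (Up q0 t lo s' 5)).card ≤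
      (n + 2) * (2 ^ (n + 13) * rho n q0 (t + 1)) :=
    GadA_card fun k => GadA_ver q0 t _ _ hl le_rfl (t + 1) k
  have c2 : (St (Wp q0 t lo c s l) (Up q0 t lo s' l)).card ≤
      (n + 2) * (2 ^ (n + 13) * rho n q0 (t + 1)) := by
    refine GadA_card fun k => (GadA_PoPo q0 t lo c _ _ _ k).trans ?_
    have e2 : |sg s * (16 * (rho n q0 (t + 1) : ℤ)) - sg s' * (16 * rho n q0 (t + 1))| ≤
        32 * (rho n q0 (t + 1) : ℤ) := by
      rcases GadA_sg s with h | h <;> rcases GadA_sg s' with h' | h' <;> rw [h, h', abs_le] <;>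
        constructor <;> linarith
    linarith
  unfold upZ
  refine (Finset.card_union_le _ _).trans ?_
  have e1 := GadA_bot_card q0 t lo c s
  have e2 : (im (rho n q0 (t + 1)) (St (Wp q0 t lo c s 1) (Wp q0 t lo c s l) ∪
    St (Wp q0 t lo c s l) (Up q0 t lo s' l) ∪ St (Up q0 t lo s' l) (Up q0 t lo s' 5))).card ≤
      3 * ((n + 2) * (2 ^ (n + 13) * rho n q0 (t + 1))) := by
    refine (GadA_im_card _).trans ((Finset.card_union_le _ _).trans ?_)
    have := Finset.card_union_le (St (Wp q0 t lo c s 1) (Wp q0 t lo c s l))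
      (St (Wp q0 t lo c s l) (Up q0 t lo s' l))
    omega
  omega

lemma GadA_jo_card (q0 t : ℕ) (lo : V (n + 2)) (s : Bool) :
    (joZ q0 t lo s).card ≤ 2 + 5 * ((n + 2) * (2 ^ (n + 13) * rho n q0 (t + 1))) := by
  classical
  obtain ⟨h1, h2, h3, h4⟩ := GadA_num n q0 t
  have c1 : ∀ c s', (St (Wp q0 t lo c s' 1) (Wp q0 t lo c s' 2)).card ≤
      (n + 2) * (2 ^ (n + 13) * rho n q0 (t + 1)) := fun c s' =>
    GadA_card fun k => GadA_ver q0 t _ _ (by norm_num) (by norm_num) t k
  have c2 : (St (Wp q0 t lo false s 2) (Wp q0 t lo true false 2)).card ≤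
      (n + 2) * (2 ^ (n + 13) * rho n q0 (t + 1)) := by
    refine GadA_card fun k => ?_
    have f1 := GadA_PoPo q0 t lo false (Ht n q0 t + 8 * (2 : ℕ) * rho n q0 (t + 1))
      (sg s * (16 * rho n q0 (t + 1))) 0 k
    have f2 := GadA_PoPo q0 t lo true (Ht n q0 t + 8 * (2 : ℕ) * rho n q0 (t + 1))
      (sg false * (16 * rho n q0 (t + 1))) 0 k
    have e : ∀ s : Bool, |sg s * (16 * (rho n q0 (t + 1) : ℤ)) - 0| ≤
        16 * (rho n q0 (t + 1) : ℤ) := by
      intro s
      rcases GadA_sg s with h | h <;> rw [h, abs_le] <;> constructor <;> linarith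
    have e1 := e s
    have e2 := e false
    unfold Wp
    refine (abs_sub_le _ (Po q0 (t + 1) lo (Ht n q0 t + 8 * (2 : ℕ) * rho n q0 (t + 1)) 0 k) _).trans ?_
    rw [abs_sub_comm (Po q0 (t + 1) lo (Ht n q0 t + 8 * (2 : ℕ) * rho n q0 (t + 1)) 0 k)]
    linarith
  unfold joZ
  refine (Finset.card_union_le _ _).trans ?_
  have e0 := Finset.card_union_le (botZ q0 t lo false s) (botZ q0 t lo true false)
  have e1 := GadA_bot_card q0 t lo false s
  have e1' := GadA_bot_card q0 t lo true false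
  have e2 : (im (rho n q0 (t + 1)) (St (Wp q0 t lo false s 1) (Wp q0 t lo false s 2) ∪
      St (Wp q0 t lo false s 2) (Wp q0 t lo true false 2) ∪
      St (Wp q0 t lo true false 1) (Wp q0 t lo true false 2))).card ≤
      3 * ((n + 2) * (2 ^ (n + 13) * rho n q0 (t + 1))) := by
    refine (GadA_im_card _).trans ((Finset.card_union_le _ _).trans ?_)
    have := Finset.card_union_le (St (Wp q0 t lo false s 1) (Wp q0 t lo false s 2))
      (St (Wp q0 t lo false s 2) (Wp q0 t lo true false 2))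
    have g1 := c1 false s
    have g2 := c1 true false
    omega
  omega

/-- number of requirements of a node (each staircase has at most `(n+2)(2^(n+12) rho t + 1)` points) -/
theorem TN_card (q0 t : ℕ) (lo : V (n + 2)) (hq : 1 ≤ q0) :
    (TN q0 t lo).card ≤ 64 * (n + 2) * (2 ^ (n + 13) * rho n q0 t) := by
  classical
  have hone : ∀ t, 1 ≤ (n + 2) * (2 ^ (n + 13) * rho n q0 t) := by
    intro t
    have h2 := rho_pos n q0 t
    have h3 : 1 ≤ 2 ^ (n + 13) := Nat.one_le_two_pow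
    exact Nat.mul_pos (by omega) (Nat.mul_pos h3 h2)
  cases t with
  | zero =>
    have hr : rho n q0 0 = rho n q0 1 := by rw [rho_zero, rho_one]
    have hc : ∀ s, (leZ q0 lo s).card ≤ (n + 2) * (2 ^ (n + 13) * rho n q0 0) := by
      intro s
      unfold leZ
      refine (GadA_im_card _).trans ?_
      rw [hr]
      refine GadA_card (t := 0) fun k => ?_
      unfold ln
      refine (GadA_Po q0 0 _ _ _ _ _ k).trans ?_
      obtain ⟨h1, h2, h3, h4⟩ := GadA_num n q0 0
      have e : (Ht n q0 0 : ℤ) = hb n q0 + 16 * rho n q0 0 := by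
        show (((hb n q0 + 16 * rho n q0 0 : ℕ)) : ℤ) = _
        push_cast
        ring
      rw [e, hr, sub_self, abs_zero, add_zero]
      rw [abs_le]
      have h5 : (0 : ℤ) ≤ rho n q0 (0 + 1) := by positivity
      have h6 : (rho n q0 1 : ℤ) = rho n q0 (0 + 1) := rfl
      rw [h6]
      constructor <;> linarith
    unfold TN
    refine (Finset.card_union_le _ _).trans ?_
    have g1 := hc false
    have g2 := hc true
    have : 64 * (n + 2) * (2 ^ (n + 13) * rho n q0 0) =
      64 * ((n + 2) * (2 ^ (n + 13) * rho n q0 0)) := by ring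
    omega
  | succ t =>
    unfold TN
    have u : ∀ c s s' l, l ≤ 5 → (upZ q0 t lo c s s' l).card ≤
        1 + 4 * ((n + 2) * (2 ^ (n + 13) * rho n q0 (t + 1))) := fun c s s' l hl =>
      GadA_up_card q0 t lo c s s' hl
    have j := GadA_jo_card q0 t lo
    have h0 := hone (t + 1)
    have e : 64 * (n + 2) * (2 ^ (n + 13) * rho n q0 (t + 1)) =
      64 * ((n + 2) * (2 ^ (n + 13) * rho n q0 (t + 1))) := by ring
    rw [e]
    refine (Finset.card_union_le _ _).trans ?_
    refine (Nat.add_le_add_right (Finset.card_union_le _ _) _).trans ?_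
    refine (Nat.add_le_add_right (Nat.add_le_add_right (Finset.card_union_le _ _) _) _).trans ?_
    refine (Nat.add_le_add_right (Nat.add_le_add_right (Nat.add_le_add_right
      (Finset.card_union_le _ _) _) _) _).trans ?_
    refine (Nat.add_le_add_right (Nat.add_le_add_right (Nat.add_le_add_right (Nat.add_le_add_right
      (Finset.card_union_le _ _) _) _) _) _).trans ?_
    refine (Nat.add_le_add_right (Nat.add_le_add_right (Nat.add_le_add_right (Nat.add_le_add_right
      (Nat.add_le_add_right (Finset.card_union_le _ _) _) _) _) _) _).trans ?_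
    refine (Nat.add_le_add_right (Nat.add_le_add_right (Nat.add_le_add_right (Nat.add_le_add_right
      (Nat.add_le_add_right (Nat.add_le_add_right (Finset.card_union_le _ _) _) _) _) _) _) _).trans ?_
    have u1 := u false false false 4 (by norm_num)
    have u2 := u false true true 3 (by norm_num)
    have u3 := u true false false 3 (by norm_num)
    have u4 := u true true true 4 (by norm_num)
    have u5 := u true false true 4 (by norm_num)
    have u6 := u true true false 4 (by norm_num)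
    have j1 := j false
    have j2 := j true
    omega

end Pool.Agent.H30.HG
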