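import Pool.Agent.H30.HG.Lvl
import Pool.Agent.H30.HG.Stair

/-!
# HG module GadB: where the routes of the gadget are

`r = rho (t+1)`, `j = jj t`. `cx c` = centre of the child `c` in the coordinate `j`, `px` = centre of the parent.
Everything by `Zr_St` (bounding box enlarged by the radius) for each of the staircases; bottom part: the staircase
`ln → Wp 1` first goes up (coordinate `0` comes first), then the offset changes from `16 rho t` to `16 rho (t+1)`.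
-/

open MeasureTheory Filter Topology
open Pool.Agent.H17.IIC Pool.Agent.H41.QC Pool.Agent.H47.GM Pool.Agent.H17.QA
open Pool.Agent.H94.HG Pool.Agent.H94.BM Pool.Agent.H47.HJ

namespace Pool.Agent.H30.HG

variable {n d : ℕ}

/-- centre of the child in the direction of the merging -/
def cx (q0 t : ℕ) (lo : V (n + 2)) (c : Bool) : ℤ :=
  ch q0 t lo c (jj n t) + ((sd n q0 t (jj n t) / 2 : ℕ) : ℤ)

/-- centre of the parent in the direction of the merging -/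
def px (q0 t : ℕ) (lo : V (n + 2)) : ℤ := lo (jj n t) + ((sd n q0 (t + 1) (jj n t) / 2 : ℕ) : ℤ)

lemma cx_eq (q0 t : ℕ) (lo : V (n + 2)) :
    cx q0 t lo false + ((2 ^ (n + 9) * rho n q0 (t + 1) : ℕ) : ℤ) = px q0 t lo ∧
      cx q0 t lo true = px q0 t lo + ((2 ^ (n + 9) * rho n q0 (t + 1) : ℕ) : ℤ) := by
  have h1 : sd n q0 t (jj n t) / 2 = 2 ^ (n + 9) * rho n q0 (t + 1) := by
    rw [sd_jj, show 2 ^ (n + 10) = 2 * 2 ^ (n + 9) by rw [pow_succ]; ring, mul_assoc,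
      Nat.mul_div_cancel_left _ (by norm_num)]
  have h2 : sd n q0 (t + 1) (jj n t) / 2 = sd n q0 t (jj n t) := by
    rw [sd_succ n q0 t (jj_ne n t), if_pos rfl, Nat.mul_div_cancel_left _ (by norm_num)]
  have h3 : sd n q0 t (jj n t) = 2 * (2 ^ (n + 9) * rho n q0 (t + 1)) := by
    rw [sd_jj]; ring
  unfold cx px ch
  rw [h2, h1, h3]
  constructor
  · simp only [Bool.false_eq_true, if_false]
    push_cast
    ring
  · simp only [if_true, Pi.add_apply, Pi.single_eq_same]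

private lemma gadB_Po0 (q0 t : ℕ) (lo : V (n + 2)) (h o : ℤ) : Po q0 t lo h o 0 = h := by
  simp [Po]

private lemma gadB_Poj (q0 t t' : ℕ) (lo : V (n + 2)) (h o : ℤ) : Po q0 t lo h o (jj n t') =
    lo (jj n t') + ((sd n q0 t (jj n t') / 2 : ℕ) : ℤ) + o := by
  simp [Po, jj_ne n t']

private lemma gadB_ln0 (q0 t : ℕ) (lo : V (n + 2)) (s : Bool) : ln q0 t lo s 0 = (Ht n q0 t : ℤ) :=
  gadB_Po0 _ _ _ _ _

private lemma gadB_lnj (q0 t : ℕ) (lo : V (n + 2)) (c s : Bool) :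
    ln q0 t (ch q0 t lo c) s (jj n t) = cx q0 t lo c + sg s * (16 * rho n q0 t) :=
  gadB_Poj _ _ _ _ _ _

private lemma gadB_Wp0 (q0 t : ℕ) (lo : V (n + 2)) (c s : Bool) (l : ℕ) :
    Wp q0 t lo c s l 0 = (Ht n q0 t : ℤ) + 8 * l * rho n q0 (t + 1) := gadB_Po0 _ _ _ _ _

private lemma gadB_Wpj (q0 t : ℕ) (lo : V (n + 2)) (c s : Bool) (l : ℕ) :
    Wp q0 t lo c s l (jj n t) = cx q0 t lo c + sg s * (16 * rho n q0 (t + 1)) :=
  gadB_Poj _ _ _ _ _ _

private lemma gadB_Up0 (q0 t : ℕ) (lo : V (n + 2)) (s : Bool) (l : ℕ) :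
    Up q0 t lo s l 0 = (Ht n q0 t : ℤ) + 8 * l * rho n q0 (t + 1) := gadB_Po0 _ _ _ _ _

private lemma gadB_Upj (q0 t : ℕ) (lo : V (n + 2)) (s : Bool) (l : ℕ) :
    Up q0 t lo s l (jj n t) = px q0 t lo + sg s * (16 * rho n q0 (t + 1)) :=
  gadB_Poj _ _ _ _ _ _

private lemma gadB_Zr_union {Z Z' : Finset (V (n + 2) × ℕ)} [DecidableEq (V (n + 2) × ℕ)]
    {v : V (n + 2)} (h : v ∈ Zr (Z ∪ Z')) : v ∈ Zr Z ∨ v ∈ Zr Z' := by
  rw [Zr_union] at h; exact h

private lemma gadB_im_union {r : ℕ} {S S' : Finset (V (n + 2))} [DecidableEq (V (n + 2))]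
    {v : V (n + 2)} (h : v ∈ Zr (im r (S ∪ S'))) : v ∈ Zr (im r S) ∨ v ∈ Zr (im r S') := by
  obtain ⟨q, hq, hv⟩ := h
  rw [mem_im, Finset.mem_union] at hq
  rcases hq with ⟨h1 | h1, h2⟩
  · exact Or.inl ⟨q, mem_im.2 ⟨h1, h2⟩, hv⟩
  · exact Or.inr ⟨q, mem_im.2 ⟨h1, h2⟩, hv⟩

private lemma gadB_rho (n q0 t : ℕ) : (1 : ℤ) ≤ rho n q0 t ∧ (rho n q0 t : ℤ) ≤ rho n q0 (t + 1) ∧
    (rho n q0 (t + 1) : ℤ) ≤ 2 * rho n q0 t := by
  refine ⟨by exact_mod_cast rho_pos n q0 t, by exact_mod_cast rho_mono n q0 (Nat.le_succ t), ?_⟩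
  exact_mod_cast rho_succ_le n q0 t

/-- profile of the bottom part -/
def PrB (q0 t : ℕ) (lo : V (n + 2)) (c s : Bool) (l : ℤ) (v : V (n + 2)) : Prop :=
  (Ht n q0 t : ℤ) - rho n q0 (t + 1) ≤ v 0 ∧ v 0 ≤ (Ht n q0 t : ℤ) + (8 * l + 1) * rho n q0 (t + 1) ∧
    7 * (rho n q0 (t + 1) : ℤ) ≤ sg s * (v (jj n t) - cx q0 t lo c) ∧
    sg s * (v (jj n t) - cx q0 t lo c) ≤ 17 * (rho n q0 (t + 1) : ℤ)

/-- profile of a horizontal part at level `l` from the abscissa `x` to the abscissa `y` -/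
def PrH (q0 t : ℕ) (x y l : ℤ) (v : V (n + 2)) : Prop :=
  (Ht n q0 t : ℤ) + (8 * l - 1) * rho n q0 (t + 1) ≤ v 0 ∧
    v 0 ≤ (Ht n q0 t : ℤ) + (8 * l + 1) * rho n q0 (t + 1) ∧
    min x y - rho n q0 (t + 1) ≤ v (jj n t) ∧ v (jj n t) ≤ max x y + rho n q0 (t + 1)

/-- profile of the top part -/
def PrT (q0 t : ℕ) (lo : V (n + 2)) (s : Bool) (l : ℤ) (v : V (n + 2)) : Prop :=
  (Ht n q0 t : ℤ) + (8 * l - 1) * rho n q0 (t + 1) ≤ v 0 ∧
    v 0 ≤ (Ht n q0 t : ℤ) + 41 * rho n q0 (t + 1) ∧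
    |v (jj n t) - (px q0 t lo + sg s * (16 * rho n q0 (t + 1)))| ≤ rho n q0 (t + 1)

private lemma gadB_PrB_mono {q0 t : ℕ} {lo : V (n + 2)} {c s : Bool} {l l' : ℤ} (hl : l ≤ l')
    {v : V (n + 2)} (h : PrB q0 t lo c s l v) : PrB q0 t lo c s l' v := by
  obtain ⟨h1, h2, h3, h4⟩ := h
  refine ⟨h1, h2.trans ?_, h3, h4⟩
  have hr : (0 : ℤ) ≤ rho n q0 (t + 1) := by positivity
  have := mul_le_mul_of_nonneg_right (show 8 * l + 1 ≤ 8 * l' + 1 by linarith) hr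
  linarith

/-- the bottom part -/
private lemma gadB_bot {q0 t : ℕ} {lo : V (n + 2)} {c s : Bool} {v : V (n + 2)}
    (h : v ∈ Zr (botZ q0 t lo c s)) : PrB q0 t lo c s 1 v := by
  obtain ⟨hr1, hr2, hr3⟩ := gadB_rho n q0 t
  unfold botZ at h
  obtain ⟨q, hq, hv⟩ := h
  rw [Finset.mem_insert] at hq
  rcases hq with rfl | hq
  · rw [mem_Bx] at hv
    have h0 := abs_le.1 (hv 0)
    have hj := abs_le.1 (hv (jj n t))
    dsimp only at h0 hj
    rw [gadB_ln0] at h0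
    rw [gadB_lnj] at hj
    unfold PrB
    generalize (rho n q0 t : ℤ) = a at *
    generalize (rho n q0 (t + 1) : ℤ) = b at *
    cases s <;> simp only [sg, Bool.false_eq_true, if_false, if_true] at hj ⊢ <;>
      refine ⟨?_, ?_, ?_, ?_⟩ <;> linarith [h0.1, h0.2, hj.1, hj.2]
  · have hz : v ∈ Zr (im (rho n q0 (t + 1)) (St (ln q0 t (ch q0 t lo c) s) (Wp q0 t lo c s 1))) :=
      ⟨q, hq, hv⟩
    have h0 := Zr_St hz 0
    have hj := Zr_St hz (jj n t)
    rw [gadB_ln0, gadB_Wp0] at h0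
    rw [gadB_lnj, gadB_Wpj] at hj
    unfold PrB
    push_cast at h0 hj
    generalize (rho n q0 t : ℤ) = a at *
    generalize (rho n q0 (t + 1) : ℤ) = b at *
    cases s <;> simp only [sg, Bool.false_eq_true, if_false, if_true] at hj ⊢ <;>
      refine ⟨?_, ?_, ?_, ?_⟩ <;> omega

/-- vertical part -/
private lemma gadB_ver {q0 t : ℕ} {lo : V (n + 2)} {c s : Bool} {l : ℕ} (hl : 1 ≤ l) {v : V (n + 2)}
    (h : v ∈ Zr (im (rho n q0 (t + 1)) (St (Wp q0 t lo c s 1) (Wp q0 t lo c s l)))) :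
    PrB q0 t lo c s l v := by
  obtain ⟨hr1, hr2, hr3⟩ := gadB_rho n q0 t
  have h0 := Zr_St h 0
  have hj := Zr_St h (jj n t)
  rw [gadB_Wp0, gadB_Wp0] at h0
  rw [gadB_Wpj, gadB_Wpj] at hj
  unfold PrB
  have hl' : (1 : ℤ) ≤ l := by exact_mod_cast hl
  have e1 : (8 * (l : ℤ) + 1) * rho n q0 (t + 1) = 8 * (l * rho n q0 (t + 1)) + rho n q0 (t + 1) := by
    ring
  have e2 : (8 * (l : ℤ)) * rho n q0 (t + 1) = 8 * (l * rho n q0 (t + 1)) := by ring
  have e3 : (rho n q0 (t + 1) : ℤ) ≤ l * rho n q0 (t + 1) := le_mul_of_one_le_left (by omega) hl'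
  rw [e2] at h0
  rw [e1]
  push_cast at h0 hj
  generalize (l : ℤ) * (rho n q0 (t + 1) : ℤ) = w at *
  generalize (rho n q0 t : ℤ) = a at *
  generalize (rho n q0 (t + 1) : ℤ) = b at *
  cases s <;> simp only [sg, Bool.false_eq_true, if_false, if_true] at hj ⊢ <;>
    refine ⟨?_, ?_, ?_, ?_⟩ <;> omega

/-- PROFILE of an upward route -/
theorem up_prof {q0 t : ℕ} {lo : V (n + 2)} {c s s' : Bool} {l : ℕ} (hl : 2 ≤ l) (hl' : l ≤ 5) {v : V (n + 2)}
    (h : v ∈ Zr (upZ q0 t lo c s s' l)) :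
    PrB q0 t lo c s l v ∨
    PrH q0 t (cx q0 t lo c + sg s * (16 * rho n q0 (t + 1))) (px q0 t lo + sg s' * (16 * rho n q0 (t + 1))) l v ∨
    PrT q0 t lo s' l v := by
  classical
  obtain ⟨hr1, hr2, hr3⟩ := gadB_rho n q0 t
  unfold upZ at h
  rcases gadB_Zr_union h with h | h
  · exact Or.inl (gadB_PrB_mono (by exact_mod_cast (show 1 ≤ l by omega)) (gadB_bot h))
  rcases gadB_im_union h with h | h
  · rcases gadB_im_union h with h | h
    · exact Or.inl (gadB_ver (by omega) h)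
    · right; left
      have h0 := Zr_St h 0
      have hj := Zr_St h (jj n t)
      rw [gadB_Wp0, gadB_Up0] at h0
      rw [gadB_Wpj, gadB_Upj] at hj
      refine ⟨?_, ?_, hj.1, hj.2⟩
      · have e : ((Ht n q0 t : ℤ)) + (8 * l - 1) * rho n q0 (t + 1) =
          min ((Ht n q0 t : ℤ) + 8 * l * rho n q0 (t + 1)) ((Ht n q0 t : ℤ) + 8 * l * rho n q0 (t + 1))
            - rho n q0 (t + 1) := by rw [min_self]; ring
        rw [e]; exact h0.1
      · have e : ((Ht n q0 t : ℤ)) + (8 * l + 1) * rho n q0 (t + 1) =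
          max ((Ht n q0 t : ℤ) + 8 * l * rho n q0 (t + 1)) ((Ht n q0 t : ℤ) + 8 * l * rho n q0 (t + 1))
            + rho n q0 (t + 1) := by rw [max_self]; ring
        rw [e]; exact h0.2
  · right; right
    have h0 := Zr_St h 0
    have hj := Zr_St h (jj n t)
    rw [gadB_Up0, gadB_Up0] at h0
    rw [gadB_Upj, gadB_Upj] at hj
    have hl5 : (l : ℤ) ≤ 5 := by exact_mod_cast hl'
    have e3 : (l : ℤ) * rho n q0 (t + 1) ≤ 5 * rho n q0 (t + 1) :=
      mul_le_mul_of_nonneg_right hl5 (by omega)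
    have e1 : (8 * (l : ℤ) - 1) * rho n q0 (t + 1) =
      8 * (l * rho n q0 (t + 1)) - rho n q0 (t + 1) := by ring
    have e2 : (8 * (l : ℤ)) * rho n q0 (t + 1) = 8 * (l * rho n q0 (t + 1)) := by ring
    rw [e2] at h0
    push_cast at h0
    unfold PrT
    rw [e1, abs_le]
    generalize (l : ℤ) * (rho n q0 (t + 1) : ℤ) = w at *
    generalize sg s' * (16 * (rho n q0 (t + 1) : ℤ)) = z at *
    generalize (rho n q0 (t + 1) : ℤ) = b at *
    refine ⟨?_, ?_, ?_, ?_⟩ <;> omega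

/-- PROFILE of a join -/
theorem jo_prof {q0 t : ℕ} {lo : V (n + 2)} {s : Bool} {v : V (n + 2)} (h : v ∈ Zr (joZ q0 t lo s)) :
    PrB q0 t lo false s 2 v ∨
    PrH q0 t (cx q0 t lo false + sg s * (16 * rho n q0 (t + 1))) (cx q0 t lo true - 16 * rho n q0 (t + 1)) 2 v ∨
    PrB q0 t lo true false 2 v := by
  classical
  obtain ⟨hr1, hr2, hr3⟩ := gadB_rho n q0 t
  unfold joZ at h
  rcases gadB_Zr_union h with h | h
  · rcases gadB_Zr_union h with h | h
    · exact Or.inl (gadB_PrB_mono (by norm_num) (gadB_bot h))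
    · exact Or.inr (Or.inr (gadB_PrB_mono (by norm_num) (gadB_bot h)))
  rcases gadB_im_union h with h | h
  · rcases gadB_im_union h with h | h
    · exact Or.inl (by have := gadB_ver (by norm_num) h; exact_mod_cast this)
    · right; left
      have h0 := Zr_St h 0
      have hj := Zr_St h (jj n t)
      rw [gadB_Wp0, gadB_Wp0] at h0
      rw [gadB_Wpj, gadB_Wpj] at hj
      have e : cx q0 t lo true + sg false * (16 * (rho n q0 (t + 1) : ℤ)) =
        cx q0 t lo true - 16 * rho n q0 (t + 1) := by simp [sg]; ring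
      rw [e] at hj
      push_cast at h0
      refine ⟨?_, ?_, hj.1, hj.2⟩ <;> omega
  · exact Or.inr (Or.inr (by have := gadB_ver (by norm_num) h; exact_mod_cast this))

end Pool.Agent.H30.HG
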