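import Pool.Agent.H30.HG.Lvl
import Pool.Agent.H30.HG.Stair

/-!
# HG module GadB2: regions and zones of the routes of the gadget

The same analysis as in GadB, now in all coordinates: a point of height `≤ Ht t + 2 rho t` is in a ball whose centre has
height `≤ Ht t + 2 rho t + rho (t+1) < Ht t + 8 rho (t+1)`, so the centre is on the vertical line over `ln` (the staircase
`ln → Wp 1` adjusts the height first) and `|v k - ln k| ≤ rho (t+1) ≤ 2 rho t` for all `k ≠ 0`. A point of height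
`≥ Ht (t+1) - 2 rho (t+1)` is within `rho (t+1)` of the vertical line over `ln (t+1) lo s'`.
-/

open MeasureTheory Filter Topology
open Pool.Agent.H17.IIC Pool.Agent.H41.QC Pool.Agent.H47.GM Pool.Agent.H17.QA
open Pool.Agent.H94.HG Pool.Agent.H94.BM Pool.Agent.H47.HJ

namespace Pool.Agent.H30.HG

variable {n d : ℕ}

lemma GadB2_Po0 (q0 t : ℕ) (lo : V (n + 2)) (h o : ℤ) : Po q0 t lo h o 0 = h := by
  simp [Po]

lemma GadB2_Pok (q0 t : ℕ) (lo : V (n + 2)) (h o : ℤ) {k : Fin (n + 2)} (hk : k ≠ 0) :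
    Po q0 t lo h o k = lo k + ((sd n q0 t k / 2 : ℕ) : ℤ) + o := by
  simp [Po, hk]

lemma GadB2_St {r : ℕ} {p q v : V d} (h : v ∈ Zr (im r (St p q))) (m : Fin d) {L U : ℤ}
    (h1 : L ≤ p m) (h2 : L ≤ q m) (h3 : p m ≤ U) (h4 : q m ≤ U) : L - r ≤ v m ∧ v m ≤ U + r := by
  obtain ⟨a, b⟩ := Zr_St h m
  have a1 := le_min h1 h2
  have b1 := max_le h3 h4
  constructor <;> linarith

lemma GadB2_sg (s : Bool) (x : ℤ) (hx : 0 ≤ x) : -x ≤ sg s * x ∧ sg s * x ≤ x := by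
  cases s <;> simp [sg] <;> linarith

/-- basic facts about `rho` in the integers -/
lemma GadB2_rho (n q0 t : ℕ) : (1 : ℤ) ≤ rho n q0 t ∧ (rho n q0 t : ℤ) ≤ rho n q0 (t + 1) ∧
    (rho n q0 (t + 1) : ℤ) ≤ 2 * rho n q0 t := by
  refine ⟨by exact_mod_cast rho_pos n q0 t, by exact_mod_cast rho_mono n q0 (Nat.le_succ t), ?_⟩
  exact_mod_cast rho_succ_le n q0 t

/-- centre of the child -/
def GadB2_cc (q0 t : ℕ) (lo : V (n + 2)) (c : Bool) (k : Fin (n + 2)) : ℤ :=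
  ch q0 t lo c k + ((sd n q0 t k / 2 : ℕ) : ℤ)

/-- centre of the parent -/
def GadB2_cp (q0 t : ℕ) (lo : V (n + 2)) (k : Fin (n + 2)) : ℤ :=
  lo k + ((sd n q0 (t + 1) k / 2 : ℕ) : ℤ)

lemma GadB2_half (n q0 t : ℕ) (k : Fin (n + 2)) :
    2 * ((sd n q0 t k / 2 : ℕ) : ℤ) = sd n q0 t k := by
  exact_mod_cast sd_half n q0 t k

lemma GadB2_big (n q0 t : ℕ) (k : Fin (n + 2)) : 512 * (rho n q0 (t + 1) : ℤ) ≤ ((sd n q0 t k / 2 : ℕ) : ℤ) := by
  have h1 := sd_ge n q0 t k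
  have h2 : (1024 : ℕ) ≤ 2 ^ (n + 10) := by
    have : (2 : ℕ) ^ 10 ≤ 2 ^ (n + 10) := Nat.pow_le_pow_right (by norm_num) (by omega)
    simpa using this
  have h3 : 1024 * rho n q0 (t + 1) ≤ sd n q0 t k := le_trans (Nat.mul_le_mul_right _ h2) h1
  have h4 : (1024 : ℤ) * rho n q0 (t + 1) ≤ sd n q0 t k := by exact_mod_cast h3
  have h5 := GadB2_half n q0 t k
  linarith

/-- the child box has margin in the parent box -/
lemma GadB2_cc_bd (q0 t : ℕ) (lo : V (n + 2)) (c : Bool) {k : Fin (n + 2)} (hk : k ≠ 0) :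
    lo k + 512 * (rho n q0 (t + 1) : ℤ) ≤ GadB2_cc q0 t lo c k ∧
      GadB2_cc q0 t lo c k + 512 * (rho n q0 (t + 1) : ℤ) ≤ lo k + (sd n q0 (t + 1) k : ℤ) := by
  have h1 := GadB2_big n q0 t k
  have h2 := GadB2_half n q0 t k
  have h3 := sd_succ n q0 t hk
  unfold GadB2_cc ch
  by_cases hj : k = jj n t
  · subst hj
    rw [if_pos rfl] at h3
    have h4 : (sd n q0 (t + 1) (jj n t) : ℤ) = 2 * sd n q0 t (jj n t) := by exact_mod_cast h3
    rw [h4]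
    cases c
    · simp only [Bool.false_eq_true, if_false]
      constructor <;> linarith
    · simp only [if_true, Pi.add_apply, Pi.single_eq_same]
      constructor <;> linarith
  · rw [if_neg hj] at h3
    rw [h3]
    have h5 : (if c then lo + Pi.single (jj n t) (sd n q0 t (jj n t) : ℤ) else lo) k = lo k := by
      cases c
      · simp
      · simp [Pi.single_eq_of_ne hj]
    rw [h5]
    constructor <;> linarith

lemma GadB2_cp_bd (q0 t : ℕ) (lo : V (n + 2)) {k : Fin (n + 2)} (hk : k ≠ 0) :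
    lo k + 512 * (rho n q0 (t + 1) : ℤ) ≤ GadB2_cp q0 t lo k ∧
      GadB2_cp q0 t lo k + 512 * (rho n q0 (t + 1) : ℤ) ≤ lo k + (sd n q0 (t + 1) k : ℤ) := by
  have h1 := GadB2_big n q0 t k
  have h2 := GadB2_half n q0 (t + 1) k
  have h3 := sd_succ n q0 t hk
  have h6 := GadB2_half n q0 t k
  have h7 : sd n q0 t k ≤ sd n q0 (t + 1) k := by
    rw [h3]; split_ifs <;> omega
  have h8 : (sd n q0 t k : ℤ) ≤ sd n q0 (t + 1) k := by exact_mod_cast h7
  unfold GadB2_cp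
  constructor <;> linarith

/-- the column of the parent -/
lemma GadB2_col (q0 t : ℕ) (lo : V (n + 2)) {v : V (n + 2)} (h0 : 1 ≤ v 0)
    (h : ∀ k, k ≠ 0 → lo k + 480 * (rho n q0 (t + 1) : ℤ) ≤ v k ∧
      v k + 480 * (rho n q0 (t + 1) : ℤ) ≤ lo k + (sd n q0 (t + 1) k : ℤ)) : v ∈ Col q0 (t + 1) lo := by
  refine ⟨h0, fun k hk => ?_⟩
  obtain ⟨a, b⟩ := h k hk
  obtain ⟨r1, -, -⟩ := GadB2_rho n q0 (t + 1)
  constructor <;> linarith

lemma GadB2_H (n q0 t : ℕ) : 1 + 8 * (rho n q0 (t + 1) : ℤ) ≤ Ht n q0 t + 5 * (rho n q0 (t + 1) : ℤ) := by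
  have h1 := Ht_base n q0 t
  have h2 := hb_pos n q0
  obtain ⟨r1, r2, r3⟩ := GadB2_rho n q0 t
  have h3 : (hb n q0 : ℤ) + 8 * rho n q0 0 + 6 * rho n q0 t ≤ Ht n q0 t := by exact_mod_cast h1
  have h4 : (1 : ℤ) ≤ hb n q0 := by exact_mod_cast h2
  have h5 : (1 : ℤ) ≤ rho n q0 0 := by exact_mod_cast rho_pos n q0 0
  linarith

lemma GadB2_mem_union {Z Z' : Finset (V d × ℕ)} [DecidableEq (V d × ℕ)] {v : V d} (h : v ∈ Zr (Z ∪ Z')) :
    v ∈ Zr Z ∨ v ∈ Zr Z' := by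
  rw [Zr_union] at h
  exact h

lemma GadB2_im_union {r : ℕ} {S S' : Finset (V d)} [DecidableEq (V d)] {v : V d}
    (h : v ∈ Zr (im r (S ∪ S'))) : v ∈ Zr (im r S) ∨ v ∈ Zr (im r S') := by
  obtain ⟨q, hq, hv⟩ := h
  rw [mem_im, Finset.mem_union] at hq
  obtain ⟨h1 | h1, h2⟩ := hq
  · exact Or.inl ⟨q, mem_im.2 ⟨h1, h2⟩, hv⟩
  · exact Or.inr ⟨q, mem_im.2 ⟨h1, h2⟩, hv⟩

/-- ANALYSIS of the bottom part -/
lemma GadB2_bot {q0 t : ℕ} {lo : V (n + 2)} {c s : Bool} {v : V (n + 2)} (h : v ∈ Zr (botZ q0 t lo c s)) :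
    v ∈ zoneS q0 t (ch q0 t lo c) s ∨
      ((Ht n q0 t : ℤ) + 2 * rho n q0 t < v 0 ∧ v 0 ≤ (Ht n q0 t : ℤ) + 9 * rho n q0 (t + 1) ∧
        ∀ k, k ≠ 0 → GadB2_cc q0 t lo c k - 17 * (rho n q0 (t + 1) : ℤ) ≤ v k ∧
          v k ≤ GadB2_cc q0 t lo c k + 17 * (rho n q0 (t + 1) : ℤ)) := by
  obtain ⟨r1, r2, r3⟩ := GadB2_rho n q0 t
  have hH := GadB2_H n q0 t
  -- the criterion for the zone
  have key : (∀ k, k ≠ 0 → |v k - ln q0 t (ch q0 t lo c) s k| ≤ 2 * rho n q0 t) →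
      (Ht n q0 t : ℤ) - 2 * rho n q0 t ≤ v 0 → v 0 ≤ (Ht n q0 t : ℤ) + 2 * rho n q0 t →
      v ∈ zoneS q0 t (ch q0 t lo c) s := by
    intro hk h1 h2
    have h3 : ∀ k, k ≠ 0 → sg s * (16 * (rho n q0 t : ℤ)) - 2 * rho n q0 t ≤
        v k - (ch q0 t lo c k + ((sd n q0 t k / 2 : ℕ) : ℤ)) ∧
        v k - (ch q0 t lo c k + ((sd n q0 t k / 2 : ℕ) : ℤ)) ≤ sg s * (16 * (rho n q0 t : ℤ)) + 2 * rho n q0 t := by
      intro k hk0
      have h4 := hk k hk0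
      unfold ln at h4
      rw [GadB2_Pok _ _ _ _ _ hk0, abs_le] at h4
      constructor <;> linarith [h4.1, h4.2]
    refine ⟨⟨by linarith, fun k hk0 => ?_⟩, h1, h2, ?_⟩
    · obtain ⟨h4, h5⟩ := h3 k hk0
      have h6 := GadB2_big n q0 t k
      have h7 := GadB2_half n q0 t k
      obtain ⟨h8, h9⟩ := GadB2_sg s (16 * (rho n q0 t : ℤ)) (by linarith)
      constructor <;> linarith
    · obtain ⟨h4, h5⟩ := h3 (jj n t) (jj_ne n t)
      cases s
      · simp only [sg, Bool.false_eq_true, if_false] at h4 h5 ⊢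
        linarith
      · simp only [sg, if_true] at h4 h5 ⊢
        linarith
  obtain ⟨q, hq, hv⟩ := h
  rw [botZ, Finset.mem_insert] at hq
  rcases hq with rfl | hq
  · left
    rw [mem_Bx] at hv
    dsimp only at hv
    refine key (fun k _ => (hv k).trans (by linarith)) ?_ ?_
    · have := (abs_le.1 (hv 0)).1
      unfold ln at this
      rw [GadB2_Po0] at this
      linarith
    · have := (abs_le.1 (hv 0)).2
      unfold ln at this
      rw [GadB2_Po0] at this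
      linarith
  · rw [mem_im] at hq
    obtain ⟨hq1, hq2⟩ := hq
    rw [hq2, mem_Bx] at hv
    have hz : v ∈ Zr (im (rho n q0 (t + 1)) (St (ln q0 t (ch q0 t lo c) s) (Wp q0 t lo c s 1))) := by
      refine ⟨q, mem_im.2 ⟨hq1, hq2⟩, ?_⟩
      rw [hq2, mem_Bx]
      exact hv
    obtain ⟨b1, b2⟩ := GadB2_St hz 0 (L := (Ht n q0 t : ℤ)) (U := (Ht n q0 t : ℤ) + 8 * rho n q0 (t + 1))
      (by unfold ln; rw [GadB2_Po0]) (by unfold Wp; rw [GadB2_Po0]; push_cast; linarith)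
      (by unfold ln; rw [GadB2_Po0]; linarith) (by unfold Wp; rw [GadB2_Po0]; push_cast; linarith)
    by_cases hlow : v 0 ≤ (Ht n q0 t : ℤ) + 2 * rho n q0 t
    · left
      obtain ⟨k, hk1, hk2, hk3⟩ := St_mem.1 hq1
      have hk : k = 0 := by
        by_contra hne
        have h1 := hk1 0 (Fin.pos_iff_ne_zero.2 hne)
        unfold Wp at h1
        rw [GadB2_Po0] at h1
        push_cast at h1
        have h2 := (abs_le.1 (hv 0)).1
        rw [h1] at h2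
        linarith
      subst hk
      refine key (fun m hm => ?_) (by linarith) hlow
      have h1 := hk3 m (Fin.pos_iff_ne_zero.2 hm)
      rw [← h1]
      exact (hv m).trans r3
    · right
      refine ⟨not_le.1 hlow, by linarith, fun k hk => ?_⟩
      obtain ⟨h8, h9⟩ := GadB2_sg s (16 * (rho n q0 t : ℤ)) (by linarith)
      obtain ⟨h10, h11⟩ := GadB2_sg s (16 * (rho n q0 (t + 1) : ℤ)) (by linarith)
      obtain ⟨c1, c2⟩ := GadB2_St hz k (L := GadB2_cc q0 t lo c k - 16 * (rho n q0 (t + 1) : ℤ))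
        (U := GadB2_cc q0 t lo c k + 16 * (rho n q0 (t + 1) : ℤ))
        (by unfold ln; rw [GadB2_Pok _ _ _ _ _ hk]; unfold GadB2_cc; linarith)
        (by unfold Wp; rw [GadB2_Pok _ _ _ _ _ hk]; unfold GadB2_cc; linarith)
        (by unfold ln; rw [GadB2_Pok _ _ _ _ _ hk]; unfold GadB2_cc; linarith)
        (by unfold Wp; rw [GadB2_Pok _ _ _ _ _ hk]; unfold GadB2_cc; linarith)
      constructor <;> linarith

/-- ANALYSIS of a staircase between two way points at the heights `8 a rho`, `8 b rho` -/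
lemma GadB2_seg {q0 t : ℕ} {lo : V (n + 2)} {p q v : V (n + 2)} {a b : ℕ}
    (hp0 : p 0 = (Ht n q0 t : ℤ) + 8 * a * rho n q0 (t + 1)) (hq0 : q 0 = (Ht n q0 t : ℤ) + 8 * b * rho n q0 (t + 1))
    (hab : a ≤ b)
    (hp : ∀ k, k ≠ 0 → lo k + 496 * (rho n q0 (t + 1) : ℤ) ≤ p k ∧
      p k + 496 * (rho n q0 (t + 1) : ℤ) ≤ lo k + (sd n q0 (t + 1) k : ℤ))
    (hq : ∀ k, k ≠ 0 → lo k + 496 * (rho n q0 (t + 1) : ℤ) ≤ q k ∧
      q k + 496 * (rho n q0 (t + 1) : ℤ) ≤ lo k + (sd n q0 (t + 1) k : ℤ))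
    (h : v ∈ Zr (im (rho n q0 (t + 1)) (St p q))) :
    ((Ht n q0 t : ℤ) + (8 * a - 1) * rho n q0 (t + 1) ≤ v 0 ∧
      v 0 ≤ (Ht n q0 t : ℤ) + (8 * b + 1) * rho n q0 (t + 1)) ∧
    ∀ k, k ≠ 0 → lo k + 480 * (rho n q0 (t + 1) : ℤ) ≤ v k ∧
      v k + 480 * (rho n q0 (t + 1) : ℤ) ≤ lo k + (sd n q0 (t + 1) k : ℤ) := by
  obtain ⟨r1, r2, r3⟩ := GadB2_rho n q0 t
  have hr : (0 : ℤ) ≤ rho n q0 (t + 1) := by linarith
  have hab' : (a : ℤ) * rho n q0 (t + 1) ≤ b * rho n q0 (t + 1) :=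
    mul_le_mul_of_nonneg_right (by exact_mod_cast hab) hr
  constructor
  · obtain ⟨c1, c2⟩ := GadB2_St h 0 (L := (Ht n q0 t : ℤ) + 8 * a * rho n q0 (t + 1))
      (U := (Ht n q0 t : ℤ) + 8 * b * rho n q0 (t + 1)) (by rw [hp0]) (by rw [hq0]; linarith)
      (by rw [hp0]; linarith) (by rw [hq0])
    constructor <;> linarith
  · intro k hk
    obtain ⟨h1, h2⟩ := hp k hk
    obtain ⟨h3, h4⟩ := hq k hk
    obtain ⟨c1, c2⟩ := GadB2_St h k (L := lo k + 496 * (rho n q0 (t + 1) : ℤ))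
      (U := lo k + (sd n q0 (t + 1) k : ℤ) - 496 * (rho n q0 (t + 1) : ℤ)) h1 h3 (by linarith) (by linarith)
    constructor <;> linarith

lemma GadB2_Wp0 (q0 t : ℕ) (lo : V (n + 2)) (c s : Bool) (l : ℕ) :
    Wp q0 t lo c s l 0 = (Ht n q0 t : ℤ) + 8 * l * rho n q0 (t + 1) := by
  unfold Wp; rw [GadB2_Po0]

lemma GadB2_Up0 (q0 t : ℕ) (lo : V (n + 2)) (s : Bool) (l : ℕ) :
    Up q0 t lo s l 0 = (Ht n q0 t : ℤ) + 8 * l * rho n q0 (t + 1) := by
  unfold Up; rw [GadB2_Po0]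

lemma GadB2_Wpk (q0 t : ℕ) (lo : V (n + 2)) (c s : Bool) (l : ℕ) (k : Fin (n + 2)) (hk : k ≠ 0) :
    lo k + 496 * (rho n q0 (t + 1) : ℤ) ≤ Wp q0 t lo c s l k ∧
      Wp q0 t lo c s l k + 496 * (rho n q0 (t + 1) : ℤ) ≤ lo k + (sd n q0 (t + 1) k : ℤ) := by
  obtain ⟨r1, r2, r3⟩ := GadB2_rho n q0 t
  obtain ⟨h1, h2⟩ := GadB2_cc_bd q0 t lo c hk
  obtain ⟨h3, h4⟩ := GadB2_sg s (16 * (rho n q0 (t + 1) : ℤ)) (by linarith)
  unfold Wp
  rw [GadB2_Pok _ _ _ _ _ hk]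
  unfold GadB2_cc at h1 h2
  constructor <;> linarith

lemma GadB2_Upk (q0 t : ℕ) (lo : V (n + 2)) (s : Bool) (l : ℕ) (k : Fin (n + 2)) (hk : k ≠ 0) :
    lo k + 496 * (rho n q0 (t + 1) : ℤ) ≤ Up q0 t lo s l k ∧
      Up q0 t lo s l k + 496 * (rho n q0 (t + 1) : ℤ) ≤ lo k + (sd n q0 (t + 1) k : ℤ) := by
  obtain ⟨r1, r2, r3⟩ := GadB2_rho n q0 t
  obtain ⟨h1, h2⟩ := GadB2_cp_bd q0 t lo hk
  obtain ⟨h3, h4⟩ := GadB2_sg s (16 * (rho n q0 (t + 1) : ℤ)) (by linarith)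
  unfold Up
  rw [GadB2_Pok _ _ _ _ _ hk]
  unfold GadB2_cp at h1 h2
  constructor <;> linarith

/-- region of the parent from the height and the margins -/
lemma GadB2_reg {q0 t : ℕ} {lo v : V (n + 2)} (h1 : (Ht n q0 t : ℤ) + 2 * rho n q0 t < v 0)
    (h2 : v 0 ≤ (Ht n q0 t : ℤ) + 41 * rho n q0 (t + 1))
    (h : ∀ k, k ≠ 0 → lo k + 480 * (rho n q0 (t + 1) : ℤ) ≤ v k ∧
      v k + 480 * (rho n q0 (t + 1) : ℤ) ≤ lo k + (sd n q0 (t + 1) k : ℤ)) : v ∈ regS q0 (t + 1) lo := by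
  obtain ⟨r1, r2, r3⟩ := GadB2_rho n q0 t
  have hH := GadB2_H n q0 t
  refine ⟨GadB2_col q0 t lo (by linarith) h, h1, ?_⟩
  have e : Ht n q0 (t + 1) = Ht n q0 t + 40 * rho n q0 (t + 1) := rfl
  rw [e]
  push_cast
  linarith

lemma GadB2_bot_reg {q0 t : ℕ} {lo : V (n + 2)} {c s : Bool} {v : V (n + 2)} (h : v ∈ Zr (botZ q0 t lo c s)) :
    v ∈ zoneS q0 t (ch q0 t lo c) s ∨ v ∈ regS q0 (t + 1) lo := by
  obtain ⟨r1, r2, r3⟩ := GadB2_rho n q0 t
  rcases GadB2_bot h with h | ⟨h1, h2, h3⟩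
  · exact Or.inl h
  · refine Or.inr (GadB2_reg h1 (by linarith) fun k hk => ?_)
    obtain ⟨h4, h5⟩ := h3 k hk
    obtain ⟨h6, h7⟩ := GadB2_cc_bd q0 t lo c hk
    constructor <;> linarith

lemma GadB2_bot_high {q0 t : ℕ} {lo : V (n + 2)} {c s : Bool} {v : V (n + 2)} (h : v ∈ Zr (botZ q0 t lo c s)) :
    v 0 ≤ (Ht n q0 t : ℤ) + 9 * rho n q0 (t + 1) := by
  obtain ⟨r1, r2, r3⟩ := GadB2_rho n q0 t
  rcases GadB2_bot h with h | ⟨h1, h2, h3⟩
  · linarith [h.2.2.1]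
  · exact h2

/-- the zones of the parent are high -/
lemma GadB2_zone_high {q0 t : ℕ} {lo : V (n + 2)} {s : Bool} {v : V (n + 2)} (h : v ∈ zoneS q0 (t + 1) lo s) :
    (Ht n q0 t : ℤ) + 38 * rho n q0 (t + 1) ≤ v 0 := by
  have h1 := h.2.1
  have e : Ht n q0 (t + 1) = Ht n q0 t + 40 * rho n q0 (t + 1) := rfl
  rw [e] at h1
  push_cast at h1
  linarith

/-- upward routes stay in the region of the node and the zone of their start -/
theorem up_sub {q0 t : ℕ} {lo : V (n + 2)} {c s s' : Bool} {l : ℕ} (hl : 2 ≤ l) (hl' : l ≤ 5) {v : V (n + 2)}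
    (h : v ∈ Zr (upZ q0 t lo c s s' l)) : v ∈ regS q0 (t + 1) lo ∪ zoneS q0 t (ch q0 t lo c) s := by
  obtain ⟨r1, r2, r3⟩ := GadB2_rho n q0 t
  have hr : (0 : ℤ) ≤ rho n q0 (t + 1) := by linarith
  have hl1 : (2 : ℤ) * rho n q0 (t + 1) ≤ (l : ℤ) * rho n q0 (t + 1) :=
    mul_le_mul_of_nonneg_right (by exact_mod_cast hl) hr
  have hl2 : (l : ℤ) * rho n q0 (t + 1) ≤ 5 * rho n q0 (t + 1) :=
    mul_le_mul_of_nonneg_right (by exact_mod_cast hl') hr
  unfold upZ at h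
  rcases GadB2_mem_union h with h | h
  · rcases GadB2_bot_reg h with h | h
    · exact Or.inr h
    · exact Or.inl h
  left
  rcases GadB2_im_union h with h | h
  · rcases GadB2_im_union h with h | h
    · obtain ⟨⟨h1, h2⟩, h3⟩ := GadB2_seg (GadB2_Wp0 q0 t lo c s 1) (GadB2_Wp0 q0 t lo c s l) (by omega)
        (GadB2_Wpk q0 t lo c s 1) (GadB2_Wpk q0 t lo c s l) h
      push_cast at h1 h2
      exact GadB2_reg (by linarith) (by linarith) h3
    · obtain ⟨⟨h1, h2⟩, h3⟩ := GadB2_seg (GadB2_Wp0 q0 t lo c s l) (GadB2_Up0 q0 t lo s' l) le_rfl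
        (GadB2_Wpk q0 t lo c s l) (GadB2_Upk q0 t lo s' l) h
      exact GadB2_reg (by linarith) (by linarith) h3
  · obtain ⟨⟨h1, h2⟩, h3⟩ := GadB2_seg (GadB2_Up0 q0 t lo s' l) (GadB2_Up0 q0 t lo s' 5) hl'
      (GadB2_Upk q0 t lo s' l) (GadB2_Upk q0 t lo s' 5) h
    push_cast at h1 h2
    exact GadB2_reg (by linarith) (by linarith) h3

/-- joins stay in the region of the node and the zones of their ends -/
theorem jo_sub {q0 t : ℕ} {lo : V (n + 2)} {s : Bool} {v : V (n + 2)} (h : v ∈ Zr (joZ q0 t lo s)) :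
    v ∈ regS q0 (t + 1) lo ∪ zoneS q0 t (ch q0 t lo false) s ∪ zoneS q0 t (ch q0 t lo true) false := by
  obtain ⟨r1, r2, r3⟩ := GadB2_rho n q0 t
  have hr : (0 : ℤ) ≤ rho n q0 (t + 1) := by linarith
  unfold joZ at h
  rcases GadB2_mem_union h with h | h
  · rcases GadB2_mem_union h with h | h
    · rcases GadB2_bot_reg h with h | h
      · exact Or.inl (Or.inr h)
      · exact Or.inl (Or.inl h)
    · rcases GadB2_bot_reg h with h | h
      · exact Or.inr h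
      · exact Or.inl (Or.inl h)
  refine Or.inl (Or.inl ?_)
  rcases GadB2_im_union h with h | h
  · rcases GadB2_im_union h with h | h
    · obtain ⟨⟨h1, h2⟩, h3⟩ := GadB2_seg (GadB2_Wp0 q0 t lo false s 1) (GadB2_Wp0 q0 t lo false s 2) (by omega)
        (GadB2_Wpk q0 t lo false s 1) (GadB2_Wpk q0 t lo false s 2) h
      push_cast at h1 h2
      exact GadB2_reg (by linarith) (by linarith) h3
    · obtain ⟨⟨h1, h2⟩, h3⟩ := GadB2_seg (GadB2_Wp0 q0 t lo false s 2) (GadB2_Wp0 q0 t lo true false 2) le_rfl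
        (GadB2_Wpk q0 t lo false s 2) (GadB2_Wpk q0 t lo true false 2) h
      push_cast at h1 h2
      exact GadB2_reg (by linarith) (by linarith) h3
  · obtain ⟨⟨h1, h2⟩, h3⟩ := GadB2_seg (GadB2_Wp0 q0 t lo true false 1) (GadB2_Wp0 q0 t lo true false 2) (by omega)
      (GadB2_Wpk q0 t lo true false 1) (GadB2_Wpk q0 t lo true false 2) h
    push_cast at h1 h2
    exact GadB2_reg (by linarith) (by linarith) h3

/-- an upward route avoids the zone of the other port of the node -/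
theorem up_av {q0 t : ℕ} {lo : V (n + 2)} {c s s' : Bool} {l : ℕ} (hl : 2 ≤ l) (hl' : l ≤ 4) {v : V (n + 2)}
    (h : v ∈ Zr (upZ q0 t lo c s s' l)) : v ∉ zoneS q0 (t + 1) lo (!s') := by
  obtain ⟨r1, r2, r3⟩ := GadB2_rho n q0 t
  have hr : (0 : ℤ) ≤ rho n q0 (t + 1) := by linarith
  have hl1 : (2 : ℤ) * rho n q0 (t + 1) ≤ (l : ℤ) * rho n q0 (t + 1) :=
    mul_le_mul_of_nonneg_right (by exact_mod_cast hl) hr
  have hl2 : (l : ℤ) * rho n q0 (t + 1) ≤ 4 * rho n q0 (t + 1) :=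
    mul_le_mul_of_nonneg_right (by exact_mod_cast hl') hr
  intro hz
  have hh := GadB2_zone_high hz
  unfold upZ at h
  rcases GadB2_mem_union h with h | h
  · have := GadB2_bot_high h
    linarith
  rcases GadB2_im_union h with h | h
  · rcases GadB2_im_union h with h | h
    · obtain ⟨⟨h1, h2⟩, h3⟩ := GadB2_seg (GadB2_Wp0 q0 t lo c s 1) (GadB2_Wp0 q0 t lo c s l) (by omega)
        (GadB2_Wpk q0 t lo c s 1) (GadB2_Wpk q0 t lo c s l) h
      linarith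
    · obtain ⟨⟨h1, h2⟩, h3⟩ := GadB2_seg (GadB2_Wp0 q0 t lo c s l) (GadB2_Up0 q0 t lo s' l) le_rfl
        (GadB2_Wpk q0 t lo c s l) (GadB2_Upk q0 t lo s' l) h
      linarith
  · have hj := jj_ne n (t + 1)
    have e : ∀ l' : ℕ, Up q0 t lo s' l' (jj n (t + 1)) =
        lo (jj n (t + 1)) + ((sd n q0 (t + 1) (jj n (t + 1)) / 2 : ℕ) : ℤ) + sg s' * (16 * rho n q0 (t + 1)) := by
      intro l'
      unfold Up
      rw [GadB2_Pok _ _ _ _ _ hj]
    obtain ⟨c1, c2⟩ := GadB2_St h (jj n (t + 1)) (L := _) (U := _) (e l).ge (e 5).ge (e l).le (e 5).le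
    have h4 := hz.2.2.2
    cases s'
    · simp only [sg, Bool.not_false, Bool.false_eq_true, if_false, if_true] at h4 c1 c2
      linarith
    · simp only [sg, Bool.not_true, Bool.false_eq_true, if_false, if_true] at h4 c1 c2
      linarith

/-- a join avoids the zones of both ports of the node -/
theorem jo_av {q0 t : ℕ} {lo : V (n + 2)} {s : Bool} {v : V (n + 2)} (h : v ∈ Zr (joZ q0 t lo s)) (s' : Bool) :
    v ∉ zoneS q0 (t + 1) lo s' := by
  obtain ⟨r1, r2, r3⟩ := GadB2_rho n q0 t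
  have hr : (0 : ℤ) ≤ rho n q0 (t + 1) := by linarith
  intro hz
  have hh := GadB2_zone_high hz
  unfold joZ at h
  rcases GadB2_mem_union h with h | h
  · rcases GadB2_mem_union h with h | h
    · have := GadB2_bot_high h
      linarith
    · have := GadB2_bot_high h
      linarith
  rcases GadB2_im_union h with h | h
  · rcases GadB2_im_union h with h | h
    · obtain ⟨⟨h1, h2⟩, h3⟩ := GadB2_seg (GadB2_Wp0 q0 t lo false s 1) (GadB2_Wp0 q0 t lo false s 2) (by omega)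
        (GadB2_Wpk q0 t lo false s 1) (GadB2_Wpk q0 t lo false s 2) h
      push_cast at h1 h2
      linarith
    · obtain ⟨⟨h1, h2⟩, h3⟩ := GadB2_seg (GadB2_Wp0 q0 t lo false s 2) (GadB2_Wp0 q0 t lo true false 2) le_rfl
        (GadB2_Wpk q0 t lo false s 2) (GadB2_Wpk q0 t lo true false 2) h
      push_cast at h1 h2
      linarith
  · obtain ⟨⟨h1, h2⟩, h3⟩ := GadB2_seg (GadB2_Wp0 q0 t lo true false 1) (GadB2_Wp0 q0 t lo true false 2) (by omega)
      (GadB2_Wpk q0 t lo true false 1) (GadB2_Wpk q0 t lo true false 2) h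
    push_cast at h1 h2
    linarith

end Pool.Agent.H30.HG
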