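import Pool.Agent.H30.HG.GadB

/-!
# HG module GadC: the routes of one pattern are disjoint

`up_prof`, `jo_prof`, `cx_eq`: everything in the two coordinates `v 0` and `v (jj t)`; unit `r = rho (t+1) ≥ 1`,
`px = cx false + W`, `cx true = px + W` with `W = 2^(n+9) r ≥ 512 r`. Set `W = 512 r + w`, `w ≥ 0`; `omega` after splitting the
cases (`r` and `w` as atoms: first `generalize` the products).
-/

open MeasureTheory Filter Topology
open Pool.Agent.H17.IIC Pool.Agent.H41.QC Pool.Agent.H47.GM Pool.Agent.H17.QA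
open Pool.Agent.H94.HG Pool.Agent.H94.BM Pool.Agent.H47.HJ

namespace Pool.Agent.H30.HG

variable {n d : ℕ}

private lemma gadC_W (n q0 t : ℕ) : 1 ≤ (rho n q0 (t + 1) : ℤ) ∧
    512 * (rho n q0 (t + 1) : ℤ) ≤ ((2 ^ (n + 9) * rho n q0 (t + 1) : ℕ) : ℤ) := by
  refine ⟨by exact_mod_cast rho_pos n q0 (t + 1), ?_⟩
  have h : 512 ≤ 2 ^ (n + 9) := by
    calc 512 = 2 ^ 9 := by norm_num
      _ ≤ 2 ^ (n + 9) := Nat.pow_le_pow_right (by norm_num) (by omega)
  exact_mod_cast Nat.mul_le_mul_right _ h

/-- twoL -/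
theorem dj_twoL (q0 t : ℕ) (lo : V (n + 2)) :
    Disjoint (Zr (upZ q0 t lo false false false 4)) (Zr (upZ q0 t lo false true true 3)) := by
  rw [Set.disjoint_left]
  intro v h1 h2
  obtain ⟨hr, hW⟩ := gadC_W n q0 t
  obtain ⟨e1, e2⟩ := cx_eq q0 t lo
  generalize ((2 ^ (n + 9) * rho n q0 (t + 1) : ℕ) : ℤ) = W at *
  rcases up_prof (by norm_num) (by norm_num) h1 with a | a | a <;> rcases up_prof (by norm_num) (by norm_num) h2 with b | b | b <;>
    simp only [PrB, PrH, PrT, sg, Bool.false_eq_true, if_false, if_true, abs_le, Nat.cast_ofNat] at a b <;>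
    generalize cx q0 t lo false = cF at * <;> generalize cx q0 t lo true = cT at * <;>
    generalize px q0 t lo = pp at * <;> generalize (rho n q0 (t + 1) : ℤ) = r at * <;>
    generalize (Ht n q0 t : ℤ) = H at * <;> generalize v 0 = v0 at * <;>
    generalize v (jj n t) = vj at * <;> omega

/-- twoR -/
theorem dj_twoR (q0 t : ℕ) (lo : V (n + 2)) :
    Disjoint (Zr (upZ q0 t lo true false false 3)) (Zr (upZ q0 t lo true true true 4)) := by
  rw [Set.disjoint_left]
  intro v h1 h2
  obtain ⟨hr, hW⟩ := gadC_W n q0 t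
  obtain ⟨e1, e2⟩ := cx_eq q0 t lo
  generalize ((2 ^ (n + 9) * rho n q0 (t + 1) : ℕ) : ℤ) = W at *
  rcases up_prof (by norm_num) (by norm_num) h1 with a | a | a <;> rcases up_prof (by norm_num) (by norm_num) h2 with b | b | b <;>
    simp only [PrB, PrH, PrT, sg, Bool.false_eq_true, if_false, if_true, abs_le, Nat.cast_ofNat] at a b <;>
    generalize cx q0 t lo false = cF at * <;> generalize cx q0 t lo true = cT at * <;>
    generalize px q0 t lo = pp at * <;> generalize (rho n q0 (t + 1) : ℤ) = r at * <;>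
    generalize (Ht n q0 t : ℤ) = H at * <;> generalize v 0 = v0 at * <;>
    generalize v (jj n t) = vj at * <;> omega

/-- pass -/
theorem dj_pass (q0 t : ℕ) (lo : V (n + 2)) :
    Disjoint (Zr (upZ q0 t lo false false false 4)) (Zr (upZ q0 t lo true false true 4)) := by
  rw [Set.disjoint_left]
  intro v h1 h2
  obtain ⟨hr, hW⟩ := gadC_W n q0 t
  obtain ⟨e1, e2⟩ := cx_eq q0 t lo
  generalize ((2 ^ (n + 9) * rho n q0 (t + 1) : ℕ) : ℤ) = W at *
  rcases up_prof (by norm_num) (by norm_num) h1 with a | a | a <;> rcases up_prof (by norm_num) (by norm_num) h2 with b | b | b <;>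
    simp only [PrB, PrH, PrT, sg, Bool.false_eq_true, if_false, if_true, abs_le, Nat.cast_ofNat] at a b <;>
    generalize cx q0 t lo false = cF at * <;> generalize cx q0 t lo true = cT at * <;>
    generalize px q0 t lo = pp at * <;> generalize (rho n q0 (t + 1) : ℤ) = r at * <;>
    generalize (Ht n q0 t : ℤ) = H at * <;> generalize v 0 = v0 at * <;>
    generalize v (jj n t) = vj at * <;> omega

/-- j21, j22 -/
theorem dj_j21 (q0 t : ℕ) (lo : V (n + 2)) :
    Disjoint (Zr (joZ q0 t lo true)) (Zr (upZ q0 t lo false false false 4)) := by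
  rw [Set.disjoint_left]
  intro v h1 h2
  obtain ⟨hr, hW⟩ := gadC_W n q0 t
  obtain ⟨e1, e2⟩ := cx_eq q0 t lo
  generalize ((2 ^ (n + 9) * rho n q0 (t + 1) : ℕ) : ℤ) = W at *
  rcases jo_prof h1 with a | a | a <;> rcases up_prof (by norm_num) (by norm_num) h2 with b | b | b <;>
    simp only [PrB, PrH, PrT, sg, Bool.false_eq_true, if_false, if_true, abs_le, Nat.cast_ofNat] at a b <;>
    generalize cx q0 t lo false = cF at * <;> generalize cx q0 t lo true = cT at * <;>
    generalize px q0 t lo = pp at * <;> generalize (rho n q0 (t + 1) : ℤ) = r at * <;>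
    generalize (Ht n q0 t : ℤ) = H at * <;> generalize v 0 = v0 at * <;>
    generalize v (jj n t) = vj at * <;> omega

/-- j12 -/
theorem dj_j12 (q0 t : ℕ) (lo : V (n + 2)) :
    Disjoint (Zr (joZ q0 t lo false)) (Zr (upZ q0 t lo true true false 4)) := by
  rw [Set.disjoint_left]
  intro v h1 h2
  obtain ⟨hr, hW⟩ := gadC_W n q0 t
  obtain ⟨e1, e2⟩ := cx_eq q0 t lo
  generalize ((2 ^ (n + 9) * rho n q0 (t + 1) : ℕ) : ℤ) = W at *
  rcases jo_prof h1 with a | a | a <;> rcases up_prof (by norm_num) (by norm_num) h2 with b | b | b <;>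
    simp only [PrB, PrH, PrT, sg, Bool.false_eq_true, if_false, if_true, abs_le, Nat.cast_ofNat] at a b <;>
    generalize cx q0 t lo false = cF at * <;> generalize cx q0 t lo true = cT at * <;>
    generalize px q0 t lo = pp at * <;> generalize (rho n q0 (t + 1) : ℤ) = r at * <;>
    generalize (Ht n q0 t : ℤ) = H at * <;> generalize v 0 = v0 at * <;>
    generalize v (jj n t) = vj at * <;> omega

/-- j22 -/
theorem dj_j22a (q0 t : ℕ) (lo : V (n + 2)) :
    Disjoint (Zr (joZ q0 t lo true)) (Zr (upZ q0 t lo true true true 4)) := by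
  rw [Set.disjoint_left]
  intro v h1 h2
  obtain ⟨hr, hW⟩ := gadC_W n q0 t
  obtain ⟨e1, e2⟩ := cx_eq q0 t lo
  generalize ((2 ^ (n + 9) * rho n q0 (t + 1) : ℕ) : ℤ) = W at *
  rcases jo_prof h1 with a | a | a <;> rcases up_prof (by norm_num) (by norm_num) h2 with b | b | b <;>
    simp only [PrB, PrH, PrT, sg, Bool.false_eq_true, if_false, if_true, abs_le, Nat.cast_ofNat] at a b <;>
    generalize cx q0 t lo false = cF at * <;> generalize cx q0 t lo true = cT at * <;>
    generalize px q0 t lo = pp at * <;> generalize (rho n q0 (t + 1) : ℤ) = r at * <;>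
    generalize (Ht n q0 t : ℤ) = H at * <;> generalize v 0 = v0 at * <;>
    generalize v (jj n t) = vj at * <;> omega

/-- j22 -/
theorem dj_j22b (q0 t : ℕ) (lo : V (n + 2)) :
    Disjoint (Zr (upZ q0 t lo false false false 4)) (Zr (upZ q0 t lo true true true 4)) := by
  rw [Set.disjoint_left]
  intro v h1 h2
  obtain ⟨hr, hW⟩ := gadC_W n q0 t
  obtain ⟨e1, e2⟩ := cx_eq q0 t lo
  generalize ((2 ^ (n + 9) * rho n q0 (t + 1) : ℕ) : ℤ) = W at *
  rcases up_prof (by norm_num) (by norm_num) h1 with a | a | a <;> rcases up_prof (by norm_num) (by norm_num) h2 with b | b | b <;>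
    simp only [PrB, PrH, PrT, sg, Bool.false_eq_true, if_false, if_true, abs_le, Nat.cast_ofNat] at a b <;>
    generalize cx q0 t lo false = cF at * <;> generalize cx q0 t lo true = cT at * <;>
    generalize px q0 t lo = pp at * <;> generalize (rho n q0 (t + 1) : ℤ) = r at * <;>
    generalize (Ht n q0 t : ℤ) = H at * <;> generalize v 0 = v0 at * <;>
    generalize v (jj n t) = vj at * <;> omega

end Pool.Agent.H30.HG
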