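import Pool.Agent.H30.HG.Stair
import Pool.Agent.H47.HJ.Road
import Pool.Agent.H74.HG.Poly
import Pool.Agent.H94.BM.Walks

/-!
# HG module Road: roads along connected sets of requirements, open staircases, transport of `Zc`

`road_of_lk`: `Lk Z a b` gives a list with the chain property and elements in `Z`; `exists_nodup_chain` / `road_of_wire` of
`H74/HG/Poly.lean` make it a list without repetition, hence the cost is at most the sum over `Z`; then `rw_tr`, `rw_congr` of
`H47/HJ/Road.lean`. `rw_iff`, `rw_trans`, `rw_mono` of `H94/BM/Walks.lean`, `rw_symm`, `rw_left`, `rw_right` of `H47/HJ/RwT.lean`.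
-/

open MeasureTheory Filter Topology
open Pool.Agent.H17.IIC Pool.Agent.H41.QC Pool.Agent.H47.GM Pool.Agent.H17.QA
open Pool.Agent.H94.HG Pool.Agent.H94.BM Pool.Agent.H47.HJ

namespace Pool.Agent.H30.HG

variable {n d : ℕ}

private lemma Road_list {Z : Finset (V d × ℕ)} {a b : V d × ℕ} (h : Lk Z a b) :
    ∃ w : List (V d × ℕ), w.IsChain QAdj ∧ w.head? = some a ∧ w.getLast? = some b ∧
      ∀ q ∈ w, q ∈ Z := by
  obtain ⟨ha, h⟩ := h
  induction h with
  | refl => exact ⟨[a], List.IsChain.singleton _, rfl, rfl, by simpa using ha⟩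
  | @tail c b' h1 h2 ih =>
    obtain ⟨w, w1, w2, w3, w4⟩ := ih
    refine ⟨w ++ [b'], ?_, ?_, ?_, ?_⟩
    · rw [List.isChain_append]
      refine ⟨w1, List.IsChain.singleton _, ?_⟩
      intro x hx y hy
      rw [w3] at hx
      simp only [Option.mem_def, Option.some.injEq] at hx
      simp only [List.head?_cons, Option.mem_def, Option.some.injEq] at hy
      subst hx; subst hy
      exact h2.1
    · cases w with
      | nil => simp at w2
      | cons x t => simpa using w2
    · simp
    · intro q hq
      rcases List.mem_append.1 hq with h | h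
      · exact w4 q h
      · have : q = b' := by simpa using h
        rw [this]; exact h2.2

private lemma Road_nodup {Z : Finset (V d × ℕ)} {a b : V d × ℕ} (h : Lk Z a b) :
    ∃ w : List (V d × ℕ), w.Nodup ∧ w.IsChain QAdj ∧ w.head? = some a ∧ w.getLast? = some b ∧
      ∀ q ∈ w, q ∈ Z := by
  obtain ⟨w, w1, w2, w3, w4⟩ := Road_list h
  obtain ⟨l, l1, l2, l3, l4, l5⟩ := Pool.Agent.H74.HG.exists_nodup_chain QAdj w.length w le_rfl w1
    a b w2 w3
  exact ⟨l, l1, l2, l3, l4, fun q hq => w4 q (l5 hq)⟩

/-- ROAD ALONG A CONNECTED SET, in the frame `φ`, with a change of configuration -/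
theorem road_of_lk {κ : Kind} {p : unitInterval} (RS : RoadSys κ d p) {φ : V d ≃ V d} (hφ : IsAut φ)
    {ω ω' : El d → Bool} {Z : Finset (V d × ℕ)}
    (hreg : ∀ q ∈ Z, 1 ≤ q.2 ∧ tr φ ω' ∈ RS.reg q.1 q.2)
    (hω : ∀ e ∈ InE (φ '' Zr Z), ω' e = true → ω e = true) {a b : V d × ℕ} (h : Lk Z a b) :
    Rw κ ω (φ '' Zr Z) (φ (RS.hub a.1 a.2 (tr φ ω'))) (φ (RS.hub b.1 b.2 (tr φ ω')))
      (∑ q ∈ Z, RS.lam q.1 q.2 (tr φ ω')) := by
  classical
  obtain ⟨l, l1, l2, l3, l4, l5⟩ := Road_nodup h
  have hsub : Rgn l ⊆ Zr Z := by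
    rintro v ⟨q, hq, hv⟩
    exact ⟨q, l5 q hq, hv⟩
  have hsub' : φ '' Rgn l ⊆ φ '' Zr Z := Set.image_mono hsub
  have := road_of_list RS hφ (ω := ω) (ω' := ω') (l := l) l2
    (fun q hq => hreg q (l5 q hq))
    (fun e he => hω e fun v hv => hsub' (he v hv)) l3 l4
  refine Pool.Agent.H94.BM.rw_mono (fun _ h => h) hsub' ?_ this
  have h6 : (l.map fun q => RS.lam q.1 q.2 (tr φ ω')).sum =
      ∑ q ∈ l.toFinset, RS.lam q.1 q.2 (tr φ ω') := (List.sum_toFinset _ l1).symm
  rw [h6]
  apply Finset.sum_le_sum_of_subset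
  intro q hq
  rw [List.mem_toFinset] at hq
  exact l5 q hq

/-- a chain of vertices all of whose steps are open -/
lemma rw_of_list {κ : Kind} {ω : El d → Bool} {l : List (V d)} {U : Set (V d)} {x y : V d}
    (hl : l.IsChain LatAdj) (hn : l.Nodup) (hx : l.head? = some x) (hy : l.getLast? = some y)
    (hU : ∀ v ∈ l, v ∈ U) (ho : ∀ v ∈ l, ∀ w ∈ l, ω s(v, w) = true) :
    Rw κ ω U x y l.length := by
  refine ⟨l, ⟨hn, hl, ?_⟩, hx, hy, hU, Nat.le_succ _⟩
  cases κ with
  | bond =>
    show l.IsChain (fun a b => ω s(a, b) = true)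
    rw [List.isChain_iff_getElem]
    intro i hi
    exact ho _ (List.getElem_mem _) _ (List.getElem_mem _)
  | site => exact fun a ha => ho a ha a ha

/-- along a staircase inside a set all of whose elements are open -/
theorem rw_St {κ : Kind} {ω : El (n + 1) → Bool} {p q : V (n + 1)} {U : Set (V (n + 1))}
    (hU : ∀ v ∈ St p q, v ∈ U)
    (h : ∀ v ∈ St p q, ∀ w ∈ St p q, ω s(v, w) = true) : Rw κ ω U p q (St p q).card := by
  classical
  obtain ⟨w, w1, w2, w3, w4, w5⟩ := Road_nodup (St_lk 0 p q)
  have hr : ∀ a ∈ w, a.1 ∈ St p q ∧ a.2 = 0 := fun a ha => mem_im.1 (w5 a ha)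
  have hinj : (w.map Prod.fst).Nodup := by
    refine w1.map_on ?_
    intro a ha b hb hab
    exact Prod.ext hab ((hr a ha).2.trans (hr b hb).2.symm)
  have hch : (w.map Prod.fst).IsChain LatAdj := by
    rw [List.isChain_iff_getElem]
    intro i hi
    have hi' : i + 1 < w.length := by simpa using hi
    have h1 := (List.isChain_iff_getElem.1 w2 i hi').1
    simp only [List.getElem_map]
    rcases h1 with h1 | h1
    · exfalso
      have h2 : (w.map Prod.fst)[i]'(by simpa using (by omega : i < w.length)) =
          (w.map Prod.fst)[i + 1]'hi := by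
        simpa only [List.getElem_map] using h1
      have h3 := (List.Nodup.getElem_inj_iff hinj).1 h2
      omega
    · exact h1
  have hmem : ∀ v ∈ w.map Prod.fst, v ∈ St p q := by
    intro v hv
    obtain ⟨a, ha, rfl⟩ := List.mem_map.1 hv
    exact (hr a ha).1
  have h1 : Rw κ ω U p q (w.map Prod.fst).length := by
    refine rw_of_list hch hinj ?_ ?_ (fun v hv => hU v (hmem v hv))
      (fun v hv u hu => h v (hmem v hv) u (hmem u hu))
    · rw [List.head?_map, w3]; rfl
    · rw [List.getLast?_map, w4]; rfl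
  refine Pool.Agent.H94.BM.rw_mono (fun _ h => h) (fun _ h => h) ?_ h1
  have h4 : (w.map Prod.fst).toFinset ⊆ St p q := fun z hz => hmem z (List.mem_toFinset.1 hz)
  have h5 := Finset.card_le_card h4
  rwa [List.toFinset_card_of_nodup hinj] at h5

/-- one open step -/
lemma rw_step {κ : Kind} {ω : El d → Bool} {U : Set (V d)} {x y : V d} (hx : x ∈ U) (hy : y ∈ U)
    (h : LatAdj x y) (hb : κ = .bond → ω s(x, y) = true)
    (hs : κ = .site → ω s(x, x) = true ∧ ω s(y, y) = true) : Rw κ ω U x y 1 := by
  have hne : x ≠ y := by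
    rintro rfl
    obtain ⟨s, hs'⟩ := h
    have h1 : stepVec s = (0 : V d) := by
      have := hs'
      exact (left_eq_add.1 this)
    have h2 := congrFun h1 s.1
    unfold stepVec at h2
    rw [Pi.single_eq_same] at h2
    rcases hb' : s.2 with _ | _ <;> simp [hb'] at h2
  refine ⟨[x, y], ⟨?_, ?_, ?_⟩, rfl, rfl, ?_, le_rfl⟩
  · simp [hne]
  · exact List.isChain_cons_cons.2 ⟨h, List.IsChain.singleton _⟩
  · cases κ with
    | bond =>
      show [x, y].IsChain (fun a b => ω s(a, b) = true)
      exact List.isChain_cons_cons.2 ⟨hb rfl, List.IsChain.singleton _⟩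
    | site =>
      intro a ha
      have : a = x ∨ a = y := by simpa using ha
      rcases this with rfl | rfl
      · exact (hs rfl).1
      · exact (hs rfl).2
  · intro v hv
    have : v = x ∨ v = y := by simpa using hv
    rcases this with rfl | rfl
    · exact hx
    · exact hy

/-- number of paths and automorphisms -/
theorem Zc_tr {κ : Kind} {φ : V d ≃ V d} (hφ : IsAut φ) (ω : El d → Bool) (A : Set (V d))
    (x y : V d) (N : ℕ) : Zc κ ω (φ '' A) (φ x) (φ y) N = Zc κ (tr φ ω) A x y N := by
  unfold Zc
  have hinj : Function.Injective (List.map φ) := List.map_injective_iff.2 φ.injective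
  have key : Fam κ ω (φ '' A) (φ x) (φ y) N = List.map φ '' Fam κ (tr φ ω) A x y N := by
    ext l
    constructor
    · rintro ⟨h, hN, hx, hy, hA⟩
      have hl : l = (l.map φ.symm).map φ := by
        rw [List.map_map]
        simp
      refine ⟨l.map φ.symm, ?_, hl.symm⟩
      set l' := l.map φ.symm with hl'
      rw [hl] at h hx hy hA hN
      refine ⟨⟨?_, ?_, ?_⟩, ?_, ?_, ?_, ?_⟩
      · exact (List.nodup_map_iff φ.injective).1 h.nodup
      · have := h.chain
        rw [List.isChain_map] at this
        exact this.imp fun a b hab => (hφ.adj a b).1 hab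
      · have ho := h.opn
        cases κ with
        | bond =>
          have ho' : (l'.map φ).IsChain (fun a b => ω s(a, b) = true) := ho
          rw [List.isChain_map] at ho'
          exact ho'
        | site =>
          intro a ha
          exact ho (φ a) (List.mem_map_of_mem ha)
      · simpa using hN
      · rw [List.head?_map] at hx
        cases hh : l'.head? with
        | none => rw [hh] at hx; simp at hx
        | some z => rw [hh] at hx; simpa using hx
      · rw [List.getLast?_map] at hy
        cases hh : l'.getLast? with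
        | none => rw [hh] at hy; simp at hy
        | some z => rw [hh] at hy; simpa using hy
      · intro v hv
        obtain ⟨w, hw, hwv⟩ := hA (φ v) (List.mem_map_of_mem hv)
        rw [← φ.injective hwv]
        exact hw
    · rintro ⟨l', ⟨h, hN, hx, hy, hA⟩, rfl⟩
      refine ⟨⟨h.nodup.map φ.injective, ?_, ?_⟩, ?_, ?_, ?_, ?_⟩
      · rw [List.isChain_map]
        exact h.chain.imp fun a b hab => (hφ.adj a b).2 hab
      · have ho := h.opn
        cases κ with
        | bond =>
          show (l'.map φ).IsChain (fun a b => ω s(a, b) = true)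
          rw [List.isChain_map]
          exact ho
        | site =>
          intro a ha
          obtain ⟨b, hb, rfl⟩ := List.mem_map.1 ha
          exact ho b hb
      · rw [List.length_map]; exact hN
      · rw [List.head?_map, hx]; rfl
      · rw [List.getLast?_map, hy]; rfl
      · intro v hv
        obtain ⟨b, hb, rfl⟩ := List.mem_map.1 hv
        exact ⟨b, hA b hb, rfl⟩
  rw [key]
  exact Set.ncard_image_of_injective _ hinj

end Pool.Agent.H30.HG
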