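import Pool.Agent.H30.HG.GadA
import Pool.Agent.H30.HG.Road
import Pool.Agent.H47.HJ.RwP
import Pool.Agent.H47.HJ.RwT

/-!
# HG module Leaf: `LeafOK` for a used base cell

`w = 2^(q0+n+10)`, corner `c j = lo (succ j)`. Frame position of the end `e`: `y_e` with `InN q0 0 lo y_e` (height `0`).
One token: step from `y_e` to `y_e + e_0` (height `1`: the element `s(y_e, y_e + e_0)` is in `FlS`; for site percolation the vertex
`y_e` itself is open because it is a vertex of a strand, `hF`), then `token_one` of `H42/HG/Token.lean` to `(P_false, hb)`,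
`P_s = centre + sg s 16 rho 0`, then vertically up to `(P_s, hb + 4 rho 0)`, then a staircase to the hub (in
`Bx (P_s, hb + 4 rho 0) (rho 0)`, `hub_mem`), all inside the closed base box `ClB`, where all elements with a vertex of height `≥ 1`
are open (`hFl`); then `road_of_lk` with `lk_le`. Two tokens: `token` (the two paths are disjoint; above the height `hb` the two
routes have lateral distance `≥ 30 rho 0`). Join: `token_join`. Positions of distinct ends are distinct (`pe_inj`).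
Lengths: lists without repetition in a box with `(hb + 8 rho 0 + 1) w^(n+1)` points. Needs `q0 ≥ 1`. This module can be divided
in two files (deterministic part in the frame / transport).
-/

open MeasureTheory Filter Topology
open Pool.Agent.H17.IIC Pool.Agent.H41.QC Pool.Agent.H47.GM Pool.Agent.H17.QA
open Pool.Agent.H94.HG Pool.Agent.H94.BM Pool.Agent.H47.HJ

namespace Pool.Agent.H30.HG

variable {n d : ℕ}

/-- lateral part -/
def Leaf_lat (y : V (n + 2)) : Fin (n + 1) → ℤ := fun j => y j.succ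

lemma Leaf_pt (y : V (n + 2)) : Pool.Agent.H42.HG.pt (y 0) (Leaf_lat y) = y := by
  funext k
  refine Fin.cases ?_ (fun j => ?_) k
  · simp
  · simp [Leaf_lat]

/-- arithmetic of the base cell -/
lemma Leaf_ar (n q0 : ℕ) : ∃ r H W : ℤ, r = (rho n q0 0 : ℤ) ∧ H = (hb n q0 : ℤ) ∧ 1 ≤ r ∧ 1 ≤ H ∧ 512 * r ≤ W ∧
    (∀ k : Fin (n + 2), k ≠ 0 → ((sd n q0 0 k / 2 : ℕ) : ℤ) = W ∧ (sd n q0 0 k : ℤ) = 2 * W) ∧
    ((2 ^ (q0 + n + 10) : ℕ) : ℤ) = 2 * W ∧ (Ht n q0 0 : ℤ) = H + 16 * r := by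
  refine ⟨_, _, (2 ^ (q0 + n + 9) : ℕ), rfl, rfl, ?_, ?_, ?_, ?_, ?_, ?_⟩
  · exact_mod_cast rho_pos n q0 0
  · exact_mod_cast hb_pos n q0
  · rw [rho_zero]
    have h1 : 512 * 2 ^ q0 ≤ 2 ^ (q0 + n + 9) := by
      have : (2 : ℕ) ^ (q0 + n + 9) = 512 * 2 ^ q0 * 2 ^ n := by
        rw [pow_add, pow_add]; ring
      rw [this]
      exact Nat.le_mul_of_pos_right _ (by positivity)
    exact_mod_cast h1
  · intro k hk
    have h2 : (2 : ℕ) ^ (q0 + n + 10) = 2 * 2 ^ (q0 + n + 9) := by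
      rw [← pow_succ']
    rw [sd_zero n q0 hk, h2]
    constructor
    · congr 1
      omega
    · push_cast; ring
  · have h2 : (2 : ℕ) ^ (q0 + n + 10) = 2 * 2 ^ (q0 + n + 9) := by
      rw [← pow_succ']
    rw [h2]
    push_cast; ring
  · show ((hb n q0 + 16 * rho n q0 0 : ℕ) : ℤ) = _
    push_cast
    ring

lemma Leaf_mem_ClB {q0 : ℕ} {lo v : V (n + 2)} : v ∈ ClB q0 lo ↔
    (0 ≤ v 0 ∧ v 0 ≤ (hb n q0 : ℤ) + 8 * rho n q0 0) ∧
      ∀ k, k ≠ 0 → lo k ≤ v k ∧ v k < lo k + sd n q0 0 k := by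
  unfold ClB
  rw [Fintype.mem_piFinset]
  constructor
  · intro h
    refine ⟨?_, fun k hk => ?_⟩
    · have := h 0
      rw [if_pos rfl, Finset.mem_Icc] at this
      exact this
    · have := h k
      rw [if_neg hk, Finset.mem_Ico] at this
      exact this
  · rintro ⟨h0, h1⟩ k
    by_cases hk : k = 0
    · subst hk
      rw [if_pos rfl, Finset.mem_Icc]
      exact h0
    · rw [if_neg hk, Finset.mem_Ico]
      exact h1 k hk

lemma Leaf_card (n q0 : ℕ) (lo : V (n + 2)) : 8 * (ClB q0 lo).card = mB n q0 ∧ 1 ≤ (ClB q0 lo).card := by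
  have h1 : (ClB q0 lo).card = (hb n q0 + 8 * rho n q0 0 + 1) * (2 ^ (q0 + n + 10)) ^ (n + 1) := by
    unfold ClB
    rw [Fintype.card_piFinset, Fin.prod_univ_succ, if_pos rfl]
    congr 1
    · rw [Int.card_Icc]
      have : (hb n q0 : ℤ) + 8 * rho n q0 0 + 1 - 0 = ((hb n q0 + 8 * rho n q0 0 + 1 : ℕ) : ℤ) := by
        push_cast; ring
      rw [this, Int.toNat_natCast]
    · have : ∀ j : Fin (n + 1), (if (j.succ : Fin (n + 2)) = 0 then Finset.Icc (0 : ℤ) ((hb n q0 : ℤ) + 8 * rho n q0 0)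
          else Finset.Ico (lo j.succ) (lo j.succ + sd n q0 0 j.succ)).card = 2 ^ (q0 + n + 10) := by
        intro j
        rw [if_neg (Fin.succ_ne_zero j), Int.card_Ico, sd_zero n q0 (Fin.succ_ne_zero j)]
        have : lo j.succ + ((2 ^ (q0 + n + 10) : ℕ) : ℤ) - lo j.succ = ((2 ^ (q0 + n + 10) : ℕ) : ℤ) := by ring
        rw [this, Int.toNat_natCast]
      rw [Finset.prod_congr rfl fun j _ => this j, Finset.prod_const, Finset.card_univ, Fintype.card_fin]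
  refine ⟨?_, ?_⟩
  · rw [h1]; rfl
  · rw [h1]
    exact Nat.one_le_iff_ne_zero.2 (by positivity)

/-- elements of the base box -/
lemma Leaf_FlS {q0 : ℕ} {lo u v : V (n + 2)} (hu : u ∈ ClB q0 lo) (hv : v ∈ ClB q0 lo)
    (h : 1 ≤ u 0 ∨ 1 ≤ v 0) : (s(u, v) : El (n + 2)) ∈ FlS q0 lo := by
  classical
  unfold FlS
  rw [Finset.mem_filter, Finset.mem_image]
  refine ⟨⟨(u, v), Finset.mem_product.2 ⟨hu, hv⟩, rfl⟩, ?_⟩
  rcases h with h | h
  · exact ⟨u, Sym2.mem_mk_left _ _, h⟩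
  · exact ⟨v, Sym2.mem_mk_right _ _, h⟩

/-- the token box -/
lemma Leaf_TB {q0 : ℕ} {lo v : V (n + 2)}
    (h : v ∈ Pool.Agent.H42.HG.TB (2 ^ (q0 + n + 10)) (Leaf_lat lo) 1
      (Pool.Agent.H42.HG.HT n (2 ^ (q0 + n + 10)) : ℤ)) :
    v ∈ ClB q0 lo ∧ 1 ≤ v 0 ∧ v 0 ≤ (hb n q0 : ℤ) ∧ ∀ k, k ≠ 0 → lo k ≤ v k ∧ v k < lo k + sd n q0 0 k := by
  obtain ⟨h1, h2, h3⟩ := h
  obtain ⟨r, H, W, hr, hH, hr1, hH1, -, hsd, hw, -⟩ := Leaf_ar n q0
  have h4 : ∀ k, k ≠ 0 → lo k ≤ v k ∧ v k < lo k + sd n q0 0 k := by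
    intro k hk
    obtain ⟨j, rfl⟩ := Fin.exists_succ_eq.2 hk
    have h5 := h3 j
    rw [(hsd _ hk).2, ← hw]
    exact h5
  have h2' : v 0 ≤ (hb n q0 : ℤ) := h2
  refine ⟨Leaf_mem_ClB.2 ⟨⟨by omega, ?_⟩, h4⟩, h1, h2', h4⟩
  rw [← hr, ← hH]
  rw [← hH] at h2'
  linarith

/-- lateral position of the lane -/
def Leaf_P (q0 : ℕ) (lo : V (n + 2)) (s : Bool) : Fin (n + 1) → ℤ :=
  Leaf_lat (Po q0 0 lo (hb n q0) (sg s * (16 * rho n q0 0)))

lemma Leaf_P_Gd (q0 : ℕ) (lo : V (n + 2)) (s : Bool) :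
    Pool.Agent.H42.HG.Gd (2 ^ (q0 + n + 10)) (Leaf_lat lo) (Leaf_P q0 lo s) := by
  intro j
  obtain ⟨r, H, W, hr, hH, hr1, hH1, hW, hsd, hw, -⟩ := Leaf_ar n q0
  have h1 : Leaf_P q0 lo s j = lo j.succ + W + sg s * (16 * r) := by
    unfold Leaf_P Leaf_lat Po
    rw [if_neg (Fin.succ_ne_zero j), (hsd _ (Fin.succ_ne_zero j)).1, hr]
  rw [h1, hw]
  unfold Leaf_lat
  cases s <;> simp only [sg, Bool.false_eq_true, if_false, if_true] <;> constructor <;> linarith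

lemma Leaf_P_ne (q0 : ℕ) (lo : V (n + 2)) : Leaf_P q0 lo false ≠ Leaf_P q0 lo true := by
  intro h
  obtain ⟨r, H, W, hr, hH, hr1, hH1, hW, hsd, hw, -⟩ := Leaf_ar n q0
  have h1 : ∀ s, Leaf_P q0 lo s 0 = lo (Fin.succ 0) + W + sg s * (16 * r) := by
    intro s
    unfold Leaf_P Leaf_lat Po
    rw [if_neg (Fin.succ_ne_zero _), (hsd _ (Fin.succ_ne_zero _)).1, hr]
  have h2 := congrFun h 0
  rw [h1, h1] at h2
  simp only [sg, Bool.false_eq_true, if_false, if_true] at h2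
  linarith

lemma Leaf_Gd {q0 : ℕ} {lo y : V (n + 2)} (hy : InN q0 0 lo y) :
    Pool.Agent.H42.HG.Gd (2 ^ (q0 + n + 10)) (Leaf_lat lo) (Leaf_lat y) := by
  intro j
  obtain ⟨r, H, W, hr, hH, hr1, hH1, hW, hsd, hw, -⟩ := Leaf_ar n q0
  have := hy.2 j.succ (Fin.succ_ne_zero j)
  rw [(hsd _ (Fin.succ_ne_zero j)).2] at this
  rw [hw]
  exact this

/-- region of a route in the frame -/
def Leaf_U (q0 : ℕ) (lo y : V (n + 2)) (l : List (V (n + 2))) (s : Bool) (h : V (n + 2)) :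
    Set (V (n + 2)) :=
  {v | v = y ∨ v ∈ l ∨ v ∈ St (Po q0 0 lo (hb n q0) (sg s * (16 * rho n q0 0))) h ∨ v ∈ Zr (leZ q0 lo s)}

/-- near the hub -/
def Leaf_near (q0 : ℕ) (lo : V (n + 2)) (s : Bool) (h : V (n + 2)) : Prop :=
  ∀ k, |h k - Po q0 0 lo (hb n q0 + 4 * rho n q0 0) (sg s * (16 * rho n q0 0)) k| ≤ rho n q0 0

/-- where the vertical staircase is -/
lemma Leaf_loc {q0 : ℕ} {lo h : V (n + 2)} {s : Bool} (hh : Leaf_near q0 lo s h) {v : V (n + 2)}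
    (hv : v ∈ St (Po q0 0 lo (hb n q0) (sg s * (16 * rho n q0 0))) h) :
    ((hb n q0 : ℤ) ≤ v 0 ∧ v 0 ≤ (hb n q0 : ℤ) + 5 * rho n q0 0) ∧
    (v 0 = (hb n q0 : ℤ) → v = Po q0 0 lo (hb n q0) (sg s * (16 * rho n q0 0))) ∧
    ∀ k, k ≠ 0 → |v k - (lo k + ((sd n q0 0 k / 2 : ℕ) : ℤ) + sg s * (16 * rho n q0 0))| ≤ rho n q0 0 := by
  obtain ⟨r, H, W, hr, hH, hr1, hH1, hW, hsd, hw, -⟩ := Leaf_ar n q0
  have hP0 : ∀ x o : ℤ, Po q0 0 lo x o 0 = x := fun x o => by unfold Po; rw [if_pos rfl]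
  have hPk : ∀ (x o : ℤ) (k : Fin (n + 2)), k ≠ 0 → Po q0 0 lo x o k = lo k + ((sd n q0 0 k / 2 : ℕ) : ℤ) + o :=
    fun x o k hk => by unfold Po; rw [if_neg hk]
  have h0 := hh 0
  rw [hP0, abs_le] at h0
  rw [← hr, ← hH] at h0 ⊢
  refine ⟨?_, ?_, ?_⟩
  · have h1 := St_bd hv 0
    rw [hP0, ← hH] at h1
    have h2 : H ≤ h 0 := by linarith
    rw [min_eq_left h2, max_eq_right h2] at h1
    exact ⟨h1.1, h1.2.trans (by linarith)⟩
  · intro hv0
    obtain ⟨k, h1, h2, h3⟩ := St_mem.1 hv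
    by_cases hk : k = 0
    · subst hk
      funext m
      by_cases hm : m = 0
      · subst hm
        rw [hP0, hv0]
      · have h4 := h3 m (Fin.pos_iff_ne_zero.2 hm)
        rw [← hH, ← hr] at h4
        exact h4
    · exfalso
      have h4 := h1 0 (Fin.pos_iff_ne_zero.2 hk)
      rw [hv0] at h4
      linarith
  · intro k hk
    have h1 := St_bd hv k
    have h2 := hh k
    rw [hPk _ _ k hk] at h1 h2
    rw [← hr] at h1 h2
    rw [abs_le] at h2 ⊢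
    constructor
    · refine le_trans ?_ (sub_le_sub_right h1.1 _)
      rw [le_sub_iff_add_le, le_min_iff]
      constructor <;> linarith
    · refine le_trans (sub_le_sub_right h1.2 _) ?_
      rw [sub_le_iff_le_add, max_le_iff]
      constructor <;> linarith

/-- where the road is -/
lemma Leaf_locZ {q0 : ℕ} {lo : V (n + 2)} {s : Bool} {v : V (n + 2)} (hv : v ∈ Zr (leZ q0 lo s)) :
    ((hb n q0 : ℤ) + 3 * rho n q0 0 ≤ v 0 ∧ v 0 ≤ (hb n q0 : ℤ) + 17 * rho n q0 0) ∧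
    ∀ k, k ≠ 0 → |v k - (lo k + ((sd n q0 0 k / 2 : ℕ) : ℤ) + sg s * (16 * rho n q0 0))| ≤ rho n q0 0 := by
  obtain ⟨r, H, W, hr, hH, hr1, hH1, hW, hsd, hw, hHt⟩ := Leaf_ar n q0
  have hP0 : ∀ x o : ℤ, Po q0 0 lo x o 0 = x := fun x o => by unfold Po; rw [if_pos rfl]
  have hPk : ∀ (x o : ℤ) (k : Fin (n + 2)), k ≠ 0 → Po q0 0 lo x o k = lo k + ((sd n q0 0 k / 2 : ℕ) : ℤ) + o :=
    fun x o k hk => by unfold Po; rw [if_neg hk]
  have hln : ln q0 0 lo s = Po q0 0 lo (Ht n q0 0) (sg s * (16 * rho n q0 0)) := rfl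
  unfold leZ at hv
  rw [hln] at hv
  obtain ⟨h1, h2⟩ := Zr_St_single (k := (0 : Fin (n + 2))) (fun m hm => by rw [hPk _ _ m hm, hPk _ _ m hm]) hv
  rw [hP0, hP0, hHt] at h2
  rw [← hr, ← hH] at h2 ⊢
  have h3 : H + 4 * r ≤ H + 16 * r := by linarith
  rw [min_eq_left h3, max_eq_right h3] at h2
  refine ⟨⟨by linarith [h2.1], by linarith [h2.2]⟩, ?_⟩
  intro k hk
  have h4 := h1 k hk
  rw [hPk _ _ k hk, ← hr] at h4
  exact h4

/-- the route stays in the region of the node -/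
lemma Leaf_reg {q0 : ℕ} {lo y h : V (n + 2)} {l : List (V (n + 2))} {s : Bool}
    (hh : Leaf_near q0 lo s h)
    (hl : ∀ v ∈ l, v ∈ Pool.Agent.H42.HG.TB (2 ^ (q0 + n + 10)) (Leaf_lat lo) 1
      (Pool.Agent.H42.HG.HT n (2 ^ (q0 + n + 10)) : ℤ)) :
    Leaf_U q0 lo y l s h ⊆ insert y (regS q0 0 lo) := by
  obtain ⟨r, H, W, hr, hH, hr1, hH1, hW, hsd, hw, hHt⟩ := Leaf_ar n q0
  have key : ∀ v : V (n + 2), 1 ≤ v 0 → v 0 ≤ H + 18 * r →
      (∀ k, k ≠ 0 → lo k ≤ v k ∧ v k < lo k + sd n q0 0 k) → v ∈ regS q0 0 lo := by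
    intro v h1 h2 h3
    refine ⟨⟨h1, h3⟩, ?_⟩
    rw [hHt, ← hr]
    linarith
  have lat : ∀ v : V (n + 2),
      (∀ k, k ≠ 0 → |v k - (lo k + ((sd n q0 0 k / 2 : ℕ) : ℤ) + sg s * (16 * rho n q0 0))| ≤ rho n q0 0) →
      (∀ k, k ≠ 0 → lo k ≤ v k ∧ v k < lo k + sd n q0 0 k) := by
    intro v hv k hk
    have h1 := hv k hk
    rw [(hsd k hk).1, ← hr, abs_le] at h1
    rw [(hsd k hk).2]
    cases s <;> simp only [sg, Bool.false_eq_true, if_false, if_true] at h1 <;> constructor <;> linarith [h1.1, h1.2]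
  rintro v (hv | hv | hv | hv)
  · exact Or.inl hv
  · obtain ⟨-, h1, h2, h3⟩ := Leaf_TB (hl v hv)
    rw [← hH] at h2
    exact Or.inr (key v h1 (by linarith) h3)
  · obtain ⟨⟨h1, h2⟩, -, h3⟩ := Leaf_loc hh hv
    rw [← hH] at h1 h2
    rw [← hr] at h2
    exact Or.inr (key v (by linarith) (by linarith) (lat v h3))
  · obtain ⟨⟨h1, h2⟩, h3⟩ := Leaf_locZ hv
    rw [← hH, ← hr] at h1 h2
    exact Or.inr (key v (by linarith) (by linarith) (lat v h3))

/-- the route avoids the zone of the other lane -/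
lemma Leaf_zone {q0 : ℕ} {lo y h : V (n + 2)} {l : List (V (n + 2))} {s s' : Bool} (hss : s ≠ s')
    (hh : Leaf_near q0 lo s h) (hy : InN q0 0 lo y)
    (hl : ∀ v ∈ l, v ∈ Pool.Agent.H42.HG.TB (2 ^ (q0 + n + 10)) (Leaf_lat lo) 1
      (Pool.Agent.H42.HG.HT n (2 ^ (q0 + n + 10)) : ℤ)) :
    Disjoint (Leaf_U q0 lo y l s h) (zoneS q0 0 lo s') := by
  obtain ⟨r, H, W, hr, hH, hr1, hH1, hW, hsd, hw, hHt⟩ := Leaf_ar n q0
  rw [Set.disjoint_left]
  rintro v hv ⟨-, hz1, hz2, hz3⟩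
  rw [hHt, ← hr] at hz1
  rcases hv with hv | hv | hv | hv
  · rw [hv, hy.1] at hz1
    linarith
  · obtain ⟨-, h1, h2, h3⟩ := Leaf_TB (hl v hv)
    rw [← hH] at h2
    linarith
  · obtain ⟨⟨h1, h2⟩, -, h3⟩ := Leaf_loc hh hv
    rw [← hH, ← hr] at h2
    linarith
  · obtain ⟨-, h3⟩ := Leaf_locZ hv
    have h4 := h3 (jj n 0) (jj_ne n 0)
    rw [← hr, abs_le] at h4
    rw [← hr] at hz3
    cases s <;> cases s' <;> simp only [sg, Bool.false_eq_true, if_false, if_true, ne_eq, not_true_eq_false] at h4 hz3 hss <;>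
      linarith [h4.1, h4.2]

/-- the two routes are disjoint -/
lemma Leaf_disj {q0 : ℕ} {lo y y' h h' : V (n + 2)} {l l' : List (V (n + 2))} {s s' : Bool} (hss : s ≠ s')
    (hh : Leaf_near q0 lo s h) (hh' : Leaf_near q0 lo s' h') (hy : InN q0 0 lo y) (hy' : InN q0 0 lo y')
    (hyy : y ≠ y')
    (hl : ∀ v ∈ l, v ∈ Pool.Agent.H42.HG.TB (2 ^ (q0 + n + 10)) (Leaf_lat lo) 1
      (Pool.Agent.H42.HG.HT n (2 ^ (q0 + n + 10)) : ℤ))
    (hl' : ∀ v ∈ l', v ∈ Pool.Agent.H42.HG.TB (2 ^ (q0 + n + 10)) (Leaf_lat lo) 1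
      (Pool.Agent.H42.HG.HT n (2 ^ (q0 + n + 10)) : ℤ))
    (hdis : l.Disjoint l') (he : Po q0 0 lo (hb n q0) (sg s * (16 * rho n q0 0)) ∈ l)
    (he' : Po q0 0 lo (hb n q0) (sg s' * (16 * rho n q0 0)) ∈ l') :
    Disjoint (Leaf_U q0 lo y l s h) (Leaf_U q0 lo y' l' s' h') := by
  obtain ⟨r, H, W, hr, hH, hr1, hH1, hW, hsd, hw, hHt⟩ := Leaf_ar n q0
  have lat : ∀ v : V (n + 2),
      (∀ k, k ≠ 0 → |v k - (lo k + ((sd n q0 0 k / 2 : ℕ) : ℤ) + sg s * (16 * rho n q0 0))| ≤ rho n q0 0) →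
      (∀ k, k ≠ 0 → |v k - (lo k + ((sd n q0 0 k / 2 : ℕ) : ℤ) + sg s' * (16 * rho n q0 0))| ≤ rho n q0 0) →
      False := by
    intro v h1 h2
    have h3 := h1 (jj n 0) (jj_ne n 0)
    have h4 := h2 (jj n 0) (jj_ne n 0)
    rw [← hr, abs_le] at h3 h4
    cases s <;> cases s' <;> simp only [sg, Bool.false_eq_true, if_false, if_true, ne_eq, not_true_eq_false] at h3 h4 hss <;>
      linarith [h3.1, h3.2, h4.1, h4.2]
  rw [Set.disjoint_left]
  rintro v hv hv'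
  have hv0 : ∀ {w : V (n + 2)}, InN q0 0 lo w → w 0 = 0 := fun hw => hw.1
  rcases hv with hv | hv | hv | hv
  · -- the first point
    have hz : v 0 = 0 := by rw [hv]; exact hy.1
    rcases hv' with hv' | hv' | hv' | hv'
    · exact hyy (hv.symm.trans hv')
    · have := (Leaf_TB (hl' v hv')).2.1
      omega
    · have := (Leaf_loc hh' hv').1.1
      rw [← hH] at this
      omega
    · have := (Leaf_locZ hv').1.1
      rw [← hH, ← hr] at this
      linarith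
  · -- the token path
    obtain ⟨-, h1, h2, -⟩ := Leaf_TB (hl v hv)
    rcases hv' with hv' | hv' | hv' | hv'
    · rw [hv', hy'.1] at h1
      omega
    · exact hdis hv hv'
    · obtain ⟨⟨h3, -⟩, h4, -⟩ := Leaf_loc hh' hv'
      have h5 := h4 (le_antisymm h2 h3)
      rw [h5] at hv
      exact hdis hv he'
    · have := (Leaf_locZ hv').1.1
      rw [← hH] at h2
      rw [← hH, ← hr] at this
      linarith
  · -- the staircase
    obtain ⟨⟨h1, h2⟩, h3, h4⟩ := Leaf_loc hh hv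
    rcases hv' with hv' | hv' | hv' | hv'
    · rw [hv', hy'.1, ← hH] at h1
      omega
    · obtain ⟨-, -, h5, -⟩ := Leaf_TB (hl' v hv')
      have h6 := h3 (le_antisymm h5 h1)
      rw [h6] at hv'
      exact hdis he hv'
    · exact lat v h4 (Leaf_loc hh' hv').2.2
    · exact lat v h4 (Leaf_locZ hv').2
  · -- the road
    obtain ⟨⟨h1, h2⟩, h4⟩ := Leaf_locZ hv
    rcases hv' with hv' | hv' | hv' | hv'
    · rw [hv', hy'.1, ← hH, ← hr] at h1
      linarith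
    · obtain ⟨-, -, h5, -⟩ := Leaf_TB (hl' v hv')
      rw [← hH] at h5
      rw [← hH, ← hr] at h1
      linarith
    · exact lat v h4 (Leaf_loc hh' hv').2.2
    · exact lat v h4 (Leaf_locZ hv').2

/-- first step and token path, in the frame -/
lemma Leaf_first {κ : Kind} {q0 : ℕ} {lo y x : V (n + 2)} {ω : El (n + 2) → Bool} {l : List (V (n + 2))}
    (hy : InN q0 0 lo y) (hFl : ∀ e ∈ FlS q0 lo, ω e = true)
    (hys : κ = .site → ω s(y, y) = true)
    (hl : Pool.Agent.H42.HG.PL (Pool.Agent.H42.HG.TB (2 ^ (q0 + n + 10)) (Leaf_lat lo) 1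
      (Pool.Agent.H42.HG.HT n (2 ^ (q0 + n + 10)) : ℤ)) (Pool.Agent.H42.HG.pt 1 (Leaf_lat y)) x l) :
    Rw κ ω {v | v = y ∨ v ∈ l} y x (1 + (ClB q0 lo).card) := by
  classical
  obtain ⟨r, H, W, hr, hH, hr1, hH1, hW, hsd, hw, hHt⟩ := Leaf_ar n q0
  have hmem := fun v hv => Leaf_TB (hl.mem v hv)
  have hyC : y ∈ ClB q0 lo := Leaf_mem_ClB.2 ⟨⟨by rw [hy.1], by rw [hy.1, ← hH, ← hr]; linarith⟩, hy.2⟩
  have h1 : Rw κ ω {v | v ∈ l} (Pool.Agent.H42.HG.pt 1 (Leaf_lat y)) x l.length := by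
    refine rw_of_list hl.chain hl.nodup hl.head hl.last (fun v hv => hv) ?_
    intro v hv w hw
    exact hFl _ (Leaf_FlS (hmem v hv).1 (hmem w hw).1 (Or.inl (hmem v hv).2.1))
  have hfirst : Pool.Agent.H42.HG.pt 1 (Leaf_lat y) ∈ l := List.mem_of_mem_head? (by
    rw [hl.head]; exact Option.mem_some_self _)
  have hadj : LatAdj y (Pool.Agent.H42.HG.pt 1 (Leaf_lat y)) := by
    have := Pool.Agent.H42.HG.latAdj_up 0 (Leaf_lat y)
    rw [zero_add] at this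
    have h2 : Pool.Agent.H42.HG.pt 0 (Leaf_lat y) = y := by
      conv_rhs => rw [← Leaf_pt y, hy.1]
    rwa [h2] at this
  have hm1 := hmem _ hfirst
  have h2 : Rw κ ω {v | v = y ∨ v ∈ l} y (Pool.Agent.H42.HG.pt 1 (Leaf_lat y)) 1 := by
    refine rw_step (Or.inl rfl) (Or.inr hfirst) hadj ?_ ?_
    · intro _
      exact hFl _ (Leaf_FlS hyC hm1.1 (Or.inr hm1.2.1))
    · intro hκ
      exact ⟨hys hκ, hFl _ (Leaf_FlS hm1.1 hm1.1 (Or.inr hm1.2.1))⟩
  have hlen : l.length ≤ (ClB q0 lo).card := by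
    rw [← List.toFinset_card_of_nodup hl.nodup]
    refine Finset.card_le_card fun v hv => ?_
    exact (hmem v (List.mem_toFinset.1 hv)).1
  have h3 := rw_union h2 h1
  refine rw_mono (fun _ h => h) ?_ (by omega) h3
  rintro v (hv | hv)
  · exact hv
  · exact Or.inr hv

/-- the route of one token, in actual coordinates -/
lemma Leaf_route {κ : Kind} {p : unitInterval} (RS : RoadSys κ (n + 2) p) {q0 i : ℕ}
    {a : V (n + 2)} {F : Face n} {lo : V (n + 2)} {ω ω' : El (n + 2) → Bool}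
    (hFl : ∀ e ∈ FlS q0 lo, ω (e.map (fr i a F)) = true)
    (hok : ∀ q ∈ TN q0 0 lo, tr (fr i a F) ω' ∈ RS.reg q.1 q.2)
    (hag : ∀ e ∈ InE (fr i a F '' Col q0 0 lo), ω' e = true → ω e = true) (s : Bool)
    {y : V (n + 2)} (hy : InN q0 0 lo y) (hys : κ = .site → ω s(fr i a F y, fr i a F y) = true)
    {l : List (V (n + 2))}
    (hl : Pool.Agent.H42.HG.PL (Pool.Agent.H42.HG.TB (2 ^ (q0 + n + 10)) (Leaf_lat lo) 1
      (Pool.Agent.H42.HG.HT n (2 ^ (q0 + n + 10)) : ℤ)) (Pool.Agent.H42.HG.pt 1 (Leaf_lat y))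
      (Pool.Agent.H42.HG.pt (Pool.Agent.H42.HG.HT n (2 ^ (q0 + n + 10)) : ℤ) (Leaf_P q0 lo s)) l) :
    ∃ h : V (n + 2), Leaf_near q0 lo s h ∧ Rw κ ω (fr i a F '' Leaf_U q0 lo y l s h) (fr i a F y)
      ((geo RS q0 i a ω').hub (F, (0, lo)) s) (mB n q0 + KK RS q0 i a ω' (F, (0, lo))) := by
  classical
  obtain ⟨r, H, W, hr, hH, hr1, hH1, hW, hsd, hw, hHt⟩ := Leaf_ar n q0
  have hsub : leZ q0 lo s ⊆ TN q0 0 lo := by
    intro q hq'
    show q ∈ leZ q0 lo false ∪ leZ q0 lo true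
    cases s
    · exact Finset.mem_union_left _ hq'
    · exact Finset.mem_union_right _ hq'
  have hlk := lk_le (n := n) q0 lo s
  set z0 : V (n + 2) := Po q0 0 lo (hb n q0 + 4 * rho n q0 0) (sg s * (16 * rho n q0 0)) with hz0
  set h : V (n + 2) := RS.hub z0 (rho n q0 0) (tr (fr i a F) ω') with hh
  have hnear : Leaf_near q0 lo s h := by
    have := RS.hub_mem z0 (rho n q0 0) _ (hok _ (hsub hlk.1))
    rw [mem_Bx] at this
    exact this
  refine ⟨h, hnear, ?_⟩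
  set p0 : V (n + 2) := Po q0 0 lo (hb n q0) (sg s * (16 * rho n q0 0)) with hp0
  have hend : Pool.Agent.H42.HG.pt (Pool.Agent.H42.HG.HT n (2 ^ (q0 + n + 10)) : ℤ) (Leaf_P q0 lo s) = p0 := by
    have h1 := Leaf_pt p0
    have h2 : p0 0 = (hb n q0 : ℤ) := by rw [hp0]; unfold Po; rw [if_pos rfl]
    rw [h2] at h1
    exact h1
  rw [hend] at hl
  -- token path
  have hA : Rw κ (tr (fr i a F) ω) {v | v = y ∨ v ∈ l} y p0 (1 + (ClB q0 lo).card) :=
    Leaf_first hy hFl hys hl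
  -- staircase
  have hStC : ∀ v ∈ St p0 h, v ∈ ClB q0 lo ∧ 1 ≤ v 0 := by
    intro v hv
    obtain ⟨⟨h1, h2⟩, -, h3⟩ := Leaf_loc hnear hv
    rw [← hH] at h1 h2
    rw [← hr] at h2
    refine ⟨Leaf_mem_ClB.2 ⟨⟨by linarith, by rw [← hH, ← hr]; linarith⟩, ?_⟩, by linarith⟩
    intro k hk
    have h4 := h3 k hk
    rw [(hsd k hk).1, ← hr, abs_le] at h4
    rw [(hsd k hk).2]
    cases s <;> simp only [sg, Bool.false_eq_true, if_false, if_true] at h4 <;> constructor <;> linarith [h4.1, h4.2]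
  have hB : Rw κ (tr (fr i a F) ω) {v | v ∈ St p0 h} p0 h (St p0 h).card := by
    refine rw_St (fun v hv => hv) ?_
    intro v hv w hw
    exact hFl _ (Leaf_FlS (hStC v hv).1 (hStC w hw).1 (Or.inl (hStC v hv).2))
  have hBc : (St p0 h).card ≤ (ClB q0 lo).card := Finset.card_le_card fun v hv => (hStC v hv).1
  have hAB := rw_tr (isAut_fr i a F) (rw_union hA hB)
  -- road
  have hZ : ∀ v ∈ Zr (leZ q0 lo s), v ∈ Col q0 0 lo := by
    intro v hv
    obtain ⟨⟨h1, h2⟩, h3⟩ := Leaf_locZ hv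
    rw [← hH, ← hr] at h1
    refine ⟨by linarith, ?_⟩
    intro k hk
    have h4 := h3 k hk
    rw [(hsd k hk).1, ← hr, abs_le] at h4
    rw [(hsd k hk).2]
    cases s <;> simp only [sg, Bool.false_eq_true, if_false, if_true] at h4 <;> constructor <;> linarith [h4.1, h4.2]
  have hC := road_of_lk RS (isAut_fr i a F) (ω := ω) (ω' := ω') (Z := leZ q0 lo s)
    (fun q hq => ⟨by
      have := (mem_im.1 hq).2
      rw [this]
      exact rho_pos n q0 0, hok q (hsub hq)⟩)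
    (fun e he => hag e fun v hv => by
      obtain ⟨u, hu, hu'⟩ := he v hv
      exact ⟨u, hZ u hu, hu'⟩) hlk
  have hABC := rw_union hAB hC
  refine rw_mono (fun _ h => h) ?_ ?_ hABC
  · rintro v (⟨u, hu, rfl⟩ | ⟨u, hu, rfl⟩)
    · refine ⟨u, ?_, rfl⟩
      rcases hu with (hu | hu) | hu
      · exact Or.inl hu
      · exact Or.inr (Or.inl hu)
      · exact Or.inr (Or.inr (Or.inl hu))
    · exact ⟨u, Or.inr (Or.inr (Or.inr hu)), rfl⟩
  · obtain ⟨h1, h2⟩ := Leaf_card n q0 lo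
    have h3 : ∑ q ∈ leZ q0 lo s, RS.lam q.1 q.2 (tr (fr i a F) ω') ≤ KK RS q0 i a ω' (F, (0, lo)) :=
      Finset.sum_le_sum_of_subset hsub
    omega

theorem leaf_ok {κ : Kind} {p : unitInterval} (RS : RoadSys κ (n + 2) p) {q0 i : ℕ} (hq : 1 ≤ q0)
    {a : V (n + 2)} {F : Face n} {lo : V (n + 2)} {ω ω' : El (n + 2) → Bool} {Q : Set (V (n + 2))}
    {D : TData (n + 2)} {J : Finset (Fin D.k)} {ce : En D → X n} (hD : TOK Q D)
    (hF : (TFam κ ω Q D).Nonempty)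
    (hpos : ∀ e : En D, e.1 ∈ J → ce e = (F, (0, lo)) → ∃ y, InN q0 0 lo y ∧ pe D e = fr i a F y)
    (hFl : ∀ e ∈ FlS q0 lo, ω (e.map (fr i a F)) = true)
    (hok : ∀ q ∈ TN q0 0 lo, tr (fr i a F) ω' ∈ RS.reg q.1 q.2)
    (hag : ∀ e ∈ InE (fr i a F '' Col q0 0 lo), ω' e = true → ω e = true) :
    LeafOK κ ω D J (geo RS q0 i a ω') ce (F, (0, lo)) (mB n q0 + KK RS q0 i a ω' (F, (0, lo))) := by
  classical
  have hw2 : 2 ≤ 2 ^ (q0 + n + 10) := by
    calc 2 = 2 ^ 1 := rfl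
      _ ≤ 2 ^ (q0 + n + 10) := Nat.pow_le_pow_right (by norm_num) (by omega)
  -- the ends are open vertices
  have hopen : ∀ e : En D, κ = .site → ω s(pe D e, pe D e) = true := by
    intro e hκ
    have h := (rw_pe hD hF e)
    rw [rw_iff] at h
    obtain ⟨q, -, -, h3⟩ := h
    exact h3 hκ
  have hreg : (geo RS q0 i a ω').reg (F, (0, lo)) = fr i a F '' regS q0 0 lo := rfl
  have hzone : ∀ s, (geo RS q0 i a ω').zone (F, (0, lo)) s = fr i a F '' zoneS q0 0 lo s := fun _ => rfl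
  have himg : ∀ {U : Set (V (n + 2))} {y : V (n + 2)}, U ⊆ insert y (regS q0 0 lo) →
      fr i a F '' U ⊆ insert (fr i a F y) (fr i a F '' regS q0 0 lo) := by
    rintro U y hU _ ⟨v, hv, rfl⟩
    rcases hU hv with h | h
    · rw [h]; exact Or.inl rfl
    · exact Or.inr ⟨v, h, rfl⟩
  refine ⟨?_, ?_, ?_⟩
  · intro e heJ hex
    obtain ⟨y, hy, hpe⟩ := hpos e heJ hex
    obtain ⟨l, hl⟩ := Pool.Agent.H42.HG.token_one (2 ^ (q0 + n + 10)) (Leaf_lat lo) (Leaf_P_Gd q0 lo false)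
      (Leaf_Gd hy)
    obtain ⟨h, hn, hR⟩ := Leaf_route RS hFl hok hag false hy (fun hκ => hpe ▸ hopen e hκ) hl
    refine ⟨_, hpe ▸ hR, ?_⟩
    rw [hpe, hreg]
    exact himg (Leaf_reg hn hl.mem)
  · intro e f heJ hfJ hex hfx hef
    obtain ⟨y, hy, hpe⟩ := hpos e heJ hex
    obtain ⟨y', hy', hpf⟩ := hpos f hfJ hfx
    have hyy : y ≠ y' := by
      intro h
      apply hef
      apply pe_inj hD hF
      rw [hpe, hpf, h]
    have hlat : Leaf_lat y ≠ Leaf_lat y' := by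
      intro h
      apply hyy
      rw [← Leaf_pt y, ← Leaf_pt y', h, hy.1, hy'.1]
    -- general form
    have main : ∀ (e' f' : En D) (z z' : V (n + 2)) (l l' : List (V (n + 2))), InN q0 0 lo z → InN q0 0 lo z' →
        pe D e' = fr i a F z → pe D f' = fr i a F z' → z ≠ z' → l.Disjoint l' →
        Pool.Agent.H42.HG.PL (Pool.Agent.H42.HG.TB (2 ^ (q0 + n + 10)) (Leaf_lat lo) 1
          (Pool.Agent.H42.HG.HT n (2 ^ (q0 + n + 10)) : ℤ)) (Pool.Agent.H42.HG.pt 1 (Leaf_lat z))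
          (Pool.Agent.H42.HG.pt (Pool.Agent.H42.HG.HT n (2 ^ (q0 + n + 10)) : ℤ) (Leaf_P q0 lo false)) l →
        Pool.Agent.H42.HG.PL (Pool.Agent.H42.HG.TB (2 ^ (q0 + n + 10)) (Leaf_lat lo) 1
          (Pool.Agent.H42.HG.HT n (2 ^ (q0 + n + 10)) : ℤ)) (Pool.Agent.H42.HG.pt 1 (Leaf_lat z'))
          (Pool.Agent.H42.HG.pt (Pool.Agent.H42.HG.HT n (2 ^ (q0 + n + 10)) : ℤ) (Leaf_P q0 lo true)) l' →
        ∃ U U' : Set (V (n + 2)),
          Rw κ ω U (pe D e') ((geo RS q0 i a ω').hub (F, (0, lo)) false)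
            (mB n q0 + KK RS q0 i a ω' (F, (0, lo))) ∧
          Rw κ ω U' (pe D f') ((geo RS q0 i a ω').hub (F, (0, lo)) true)
            (mB n q0 + KK RS q0 i a ω' (F, (0, lo))) ∧
          U ⊆ insert (pe D e') ((geo RS q0 i a ω').reg (F, (0, lo))) ∧
          U' ⊆ insert (pe D f') ((geo RS q0 i a ω').reg (F, (0, lo))) ∧
          Disjoint U U' ∧ Disjoint U ((geo RS q0 i a ω').zone (F, (0, lo)) true) ∧
          Disjoint U' ((geo RS q0 i a ω').zone (F, (0, lo)) false) := by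
      intro e' f' z z' l l' hz hz' hpe' hpf' hzz hdis hl hl'
      obtain ⟨h, hn, hR⟩ := Leaf_route RS hFl hok hag false hz (fun hκ => hpe' ▸ hopen e' hκ) hl
      obtain ⟨h', hn', hR'⟩ := Leaf_route RS hFl hok hag true hz' (fun hκ => hpf' ▸ hopen f' hκ) hl'
      have hend : ∀ (s : Bool), Pool.Agent.H42.HG.pt (Pool.Agent.H42.HG.HT n (2 ^ (q0 + n + 10)) : ℤ)
          (Leaf_P q0 lo s) = Po q0 0 lo (hb n q0) (sg s * (16 * rho n q0 0)) := by
        intro s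
        have h1 := Leaf_pt (Po q0 0 lo (hb n q0) (sg s * (16 * rho n q0 0)))
        have h2 : Po q0 0 lo (hb n q0) (sg s * (16 * rho n q0 0)) 0 = (hb n q0 : ℤ) := by
          unfold Po; rw [if_pos rfl]
        rw [h2] at h1
        exact h1
      refine ⟨_, _, hpe' ▸ hR, hpf' ▸ hR', ?_, ?_, ?_, ?_, ?_⟩
      · rw [hpe', hreg]
        exact himg (Leaf_reg hn hl.mem)
      · rw [hpf', hreg]
        exact himg (Leaf_reg hn' hl'.mem)
      · rw [Set.disjoint_image_iff (fr i a F).injective]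
        refine Leaf_disj (by simp) hn hn' hz hz' hzz hl.mem hl'.mem hdis ?_ ?_
        · rw [← hend]
          exact List.mem_of_mem_getLast? (by rw [hl.last]; exact Option.mem_some_self _)
        · rw [← hend]
          exact List.mem_of_mem_getLast? (by rw [hl'.last]; exact Option.mem_some_self _)
      · rw [hzone, Set.disjoint_image_iff (fr i a F).injective]
        exact Leaf_zone (by simp) hn hz hl.mem
      · rw [hzone, Set.disjoint_image_iff (fr i a F).injective]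
        exact Leaf_zone (by simp) hn' hz' hl'.mem
    obtain ⟨l, l', hdis, ⟨h1, h2⟩ | ⟨h1, h2⟩⟩ := Pool.Agent.H42.HG.token (2 ^ (q0 + n + 10)) hw2 (Leaf_lat lo)
      (Leaf_P_Gd q0 lo false) (Leaf_P_Gd q0 lo true) (Leaf_P_ne q0 lo) (Leaf_Gd hy) (Leaf_Gd hy') hlat
    · exact ⟨e, f, Or.inl ⟨rfl, rfl⟩, main e f y y' l l' hy hy' hpe hpf hyy hdis h1 h2⟩
    · exact ⟨f, e, Or.inr ⟨rfl, rfl⟩, main f e y' y l' l hy' hy hpf hpe hyy.symm hdis.symm h2 h1⟩
  · intro e f heJ hfJ hex hfx hef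
    obtain ⟨y, hy, hpe⟩ := hpos e heJ hex
    obtain ⟨y', hy', hpf⟩ := hpos f hfJ hfx
    obtain ⟨l, hl⟩ := Pool.Agent.H42.HG.token_join (2 ^ (q0 + n + 10)) (Leaf_lat lo) (Leaf_Gd hy) (Leaf_Gd hy')
    have h1 : Rw κ (tr (fr i a F) ω) {v | v = y ∨ v ∈ l} y (Pool.Agent.H42.HG.pt 1 (Leaf_lat y'))
        (1 + (ClB q0 lo).card) := Leaf_first hy hFl (fun hκ => by
          show ω s(fr i a F y, fr i a F y) = true
          rw [← hpe]
          exact hopen e hκ) hl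
    have h2 : Rw κ (tr (fr i a F) ω) {v | v = y' ∨ v ∈ [Pool.Agent.H42.HG.pt 1 (Leaf_lat y')]} y'
        (Pool.Agent.H42.HG.pt 1 (Leaf_lat y')) (1 + (ClB q0 lo).card) := by
      refine Leaf_first hy' hFl (fun hκ => by
          show ω s(fr i a F y', fr i a F y') = true
          rw [← hpf]
          exact hopen f hκ) ?_
      have hlast : Pool.Agent.H42.HG.pt 1 (Leaf_lat y') ∈ l :=
        List.mem_of_mem_getLast? (by rw [hl.last]; exact Option.mem_some_self _)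
      exact Pool.Agent.H42.HG.PL.single (hl.mem _ hlast)
    have h3 := rw_tr (isAut_fr i a F) (rw_union h1 (rw_symm h2))
    obtain ⟨hc1, hc2⟩ := Leaf_card n q0 lo
    refine ⟨_, rw_mono (fun _ h => h) (Set.Subset.refl _) (by omega) (hpe ▸ hpf ▸ h3), ?_⟩
    rw [hreg, hpe, hpf]
    rintro _ ⟨v, hv, rfl⟩
    have hin : ∀ u ∈ l, u ∈ regS q0 0 lo := by
      intro u hu
      obtain ⟨-, g1, g2, g3⟩ := Leaf_TB (hl.mem u hu)
      refine ⟨⟨g1, g3⟩, ?_⟩
      have g4 : (hb n q0 : ℤ) ≤ Ht n q0 0 := by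
        show (hb n q0 : ℤ) ≤ ((hb n q0 + 16 * rho n q0 0 : ℕ) : ℤ)
        push_cast
        have : (0 : ℤ) ≤ rho n q0 0 := by positivity
        linarith
      have : (0 : ℤ) ≤ rho n q0 0 := by positivity
      linarith
    have hlast : Pool.Agent.H42.HG.pt 1 (Leaf_lat y') ∈ l :=
      List.mem_of_mem_getLast? (by rw [hl.last]; exact Option.mem_some_self _)
    rcases hv with (hv | hv) | (hv | hv)
    · rw [hv]; exact Or.inl rfl
    · exact Or.inr (Or.inr ⟨v, hin v hv, rfl⟩)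
    · rw [hv]; exact Or.inr (Or.inl rfl)
    · rw [List.mem_singleton] at hv
      rw [hv]
      exact Or.inr (Or.inr ⟨_, hin _ hlast, rfl⟩)

end Pool.Agent.H30.HG
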