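import Pool.Agent.H30.HG.Defs
import Pool.Agent.H94.BM.Splice

/-!
# HG module Lvl: arithmetic of the levels (no geometry)

`rho`, `sd`, `Ht`, `TT`. All by the laws of `/` and `2^`. Ht_TT: `∑_{1 ≤ t ≤ (n+1) m} rho t = (n+1) 2^q0 (2^m - 1)`, and
`n + 1 ≤ 2^n`.
-/

open MeasureTheory Filter Topology
open Pool.Agent.H17.IIC Pool.Agent.H41.QC Pool.Agent.H47.GM Pool.Agent.H17.QA
open Pool.Agent.H94.HG Pool.Agent.H94.BM Pool.Agent.H47.HJ

namespace Pool.Agent.H30.HG

variable {n d : ℕ}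

private lemma Lvl_div_eq {a b c : ℕ} (h1 : b * c ≤ a) (h2 : a < b * (c + 1)) : a / b = c := by
  have hb : 0 < b := by
    rcases Nat.eq_zero_or_pos b with h | h
    · subst h; simp at h2
    · exact h
  apply le_antisymm
  · exact Nat.lt_succ_iff.mp ((Nat.div_lt_iff_lt_mul hb).2 (by rw [mul_comm]; exact h2))
  · exact (Nat.le_div_iff_mul_le hb).2 (by rw [mul_comm]; exact h1)

lemma rho_succ_le (n q0 t : ℕ) : rho n q0 (t + 1) ≤ 2 * rho n q0 t := by
  unfold rho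
  rw [← pow_succ']
  apply Nat.pow_le_pow_right (by norm_num)
  have h : (t + 1 - 1) / (n + 1) ≤ (t - 1 + (n + 1)) / (n + 1) :=
    Nat.div_le_div_right (by omega)
  rw [Nat.add_div_right _ (show 0 < n + 1 from Nat.succ_pos n)] at h
  omega

lemma rho_zero (n q0 : ℕ) : rho n q0 0 = 2 ^ q0 := by
  simp [rho]

lemma rho_one (n q0 : ℕ) : rho n q0 1 = 2 ^ q0 := by
  simp [rho]

private lemma Lvl_jj_val (n t : ℕ) : ((jj n t : Fin (n + 2)) : ℕ) = t % (n + 1) + 1 := rfl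

private lemma Lvl_exp_jj (n t : ℕ) : (t + n + 1 - (t % (n + 1) + 1)) / (n + 1) = t / (n + 1) := by
  have h := Nat.div_add_mod t (n + 1)
  have h2 : t % (n + 1) < n + 1 := Nat.mod_lt t (Nat.succ_pos n)
  apply Lvl_div_eq
  · have : (n + 1) * (t / (n + 1)) + n = t + n - t % (n + 1) := by omega
    omega
  · rw [mul_add, mul_one]; omega

lemma sd_jj (n q0 t : ℕ) : sd n q0 t (jj n t) = 2 ^ (n + 10) * rho n q0 (t + 1) := by
  unfold sd rho
  rw [Lvl_jj_val, Lvl_exp_jj, ← pow_add, Nat.add_sub_cancel]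
  congr 1
  omega

lemma sd_ge (n q0 t : ℕ) (k : Fin (n + 2)) : 2 ^ (n + 10) * rho n q0 (t + 1) ≤ sd n q0 t k := by
  unfold sd rho
  rw [← pow_add, Nat.add_sub_cancel]
  apply Nat.pow_le_pow_right (by norm_num)
  have hk := k.2
  have h : t / (n + 1) ≤ (t + n + 1 - k) / (n + 1) := Nat.div_le_div_right (by omega)
  omega

private lemma Lvl_pos {k : Fin (n + 2)} (hk : k ≠ 0) : 1 ≤ (k : ℕ) := by
  rcases Nat.eq_zero_or_pos (k : ℕ) with h | h
  · exact absurd (Fin.ext h) hk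
  · exact h

lemma sd_le (n q0 t : ℕ) {k : Fin (n + 2)} (hk : k ≠ 0) : sd n q0 t k ≤ 2 ^ (n + 11) * rho n q0 (t + 1) := by
  unfold sd rho
  rw [← pow_add, Nat.add_sub_cancel]
  apply Nat.pow_le_pow_right (by norm_num)
  have hk' := Lvl_pos hk
  have h : (t + n + 1 - k) / (n + 1) ≤ (t + (n + 1)) / (n + 1) := Nat.div_le_div_right (by omega)
  rw [Nat.add_div_right _ (show 0 < n + 1 from Nat.succ_pos n)] at h
  omega

lemma sd_zero (n q0 : ℕ) {k : Fin (n + 2)} (hk : k ≠ 0) : sd n q0 0 k = 2 ^ (q0 + n + 10) := by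
  unfold sd
  have hk' := Lvl_pos hk
  rw [Nat.div_eq_of_lt (by omega : 0 + n + 1 - (k : ℕ) < n + 1)]

lemma sd_succ (n q0 t : ℕ) {k : Fin (n + 2)} (hk : k ≠ 0) :
    sd n q0 (t + 1) k = if k = jj n t then 2 * sd n q0 t k else sd n q0 t k := by
  have hk' := Lvl_pos hk
  have hk2 := k.2
  have h := Nat.div_add_mod t (n + 1)
  have h2 : t % (n + 1) < n + 1 := Nat.mod_lt t (Nat.succ_pos n)
  split_ifs with e
  · subst e
    unfold sd
    rw [Lvl_jj_val, Lvl_exp_jj, ← pow_succ']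
    congr 1
    have : (t + 1 + n + 1 - (t % (n + 1) + 1)) / (n + 1) = t / (n + 1) + 1 := by
      have e2 : t + 1 + n + 1 - (t % (n + 1) + 1) = (n + 1) * (t / (n + 1) + 1) := by
        rw [mul_add, mul_one]; omega
      rw [e2, Nat.mul_div_cancel_left _ (Nat.succ_pos n)]
    omega
  · have e' : (k : ℕ) ≠ t % (n + 1) + 1 := fun h' => e (Fin.ext h')
    unfold sd
    congr 2
    rcases lt_or_gt_of_ne e' with hlt | hgt
    · -- k ≤ t % (n+1): quotient is t/(n+1) + 1 for both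
      have e1 : (t + 1 + n + 1 - k) / (n + 1) = t / (n + 1) + 1 := by
        apply Lvl_div_eq
        · rw [mul_add, mul_one]; omega
        · rw [mul_add, mul_add, mul_one]; omega
      have e2 : (t + n + 1 - k) / (n + 1) = t / (n + 1) + 1 := by
        apply Lvl_div_eq
        · rw [mul_add, mul_one]; omega
        · rw [mul_add, mul_add, mul_one]; omega
      rw [e1, e2]
    · have e1 : (t + 1 + n + 1 - k) / (n + 1) = t / (n + 1) := by
        apply Lvl_div_eq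
        · omega
        · rw [mul_add, mul_one]; omega
      have e2 : (t + n + 1 - k) / (n + 1) = t / (n + 1) := by
        apply Lvl_div_eq
        · omega
        · rw [mul_add, mul_one]; omega
      rw [e1, e2]

/-- half of the side: no rounding -/
lemma sd_half (n q0 t : ℕ) (k : Fin (n + 2)) : 2 * (sd n q0 t k / 2) = sd n q0 t k := by
  unfold sd
  apply Nat.mul_div_cancel'
  apply dvd_pow_self 2
  have h0 : 0 ≤ (t + n + 1 - (k : ℕ)) / (n + 1) := Nat.zero_le _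
  generalize (t + n + 1 - (k : ℕ)) / (n + 1) = x at *
  omega

lemma jj_ne (n t : ℕ) : jj n t ≠ 0 := by
  intro h
  have := congrArg Fin.val h
  rw [Lvl_jj_val] at this
  simp at this

lemma sd_TT (n : ℕ) {q0 i : ℕ} (hi : q0 + n + 10 ≤ i) {k : Fin (n + 2)} (hk : k ≠ 0) :
    sd n q0 (TT n q0 i) k = 2 ^ i := by
  have hk' := Lvl_pos hk
  have hk2 := k.2
  unfold sd TT
  have e : ((n + 1) * (i - (q0 + n + 10)) + n + 1 - k) / (n + 1) = i - (q0 + n + 10) := by
    apply Lvl_div_eq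
    · omega
    · rw [mul_add, mul_one]; omega
  rw [e]
  congr 1
  omega

lemma rho_TT (n : ℕ) {q0 i : ℕ} (hi : q0 + n + 11 ≤ i) : 2 ^ (n + 11) * rho n q0 (TT n q0 i) = 2 ^ i := by
  unfold rho TT
  have e : ((n + 1) * (i - (q0 + n + 10)) - 1) / (n + 1) = i - (q0 + n + 10) - 1 := by
    obtain ⟨m, hm⟩ : ∃ m, i - (q0 + n + 10) = m + 1 := ⟨i - (q0 + n + 10) - 1, by omega⟩
    rw [hm, Nat.add_sub_cancel]
    apply Lvl_div_eq
    · rw [mul_add, mul_one]; omega
    · rw [mul_add, mul_one]; omega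
  rw [e, ← pow_add]
  congr 1
  omega

lemma hb_pos (n q0 : ℕ) : 1 ≤ hb n q0 := Pool.Agent.H42.HG.HT_pos _ _

lemma Ht_mono (n q0 : ℕ) {t t' : ℕ} (h : t ≤ t') : Ht n q0 t ≤ Ht n q0 t' := by
  have : Monotone (Ht n q0) := monotone_nat_of_le_succ (fun t => by simp only [Ht]; omega)
  exact this h

/-- everything of a level `≥ 1` is above the base boxes -/
lemma Ht_base (n q0 t : ℕ) : hb n q0 + 8 * rho n q0 0 + 6 * rho n q0 t ≤ Ht n q0 t := by
  induction t with
  | zero => simp only [Ht]; omega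
  | succ t ih => simp only [Ht]; omega

private lemma Lvl_Ht_step (n q0 m j : ℕ) (hj : j ≤ n + 1) :
    Ht n q0 ((n + 1) * m + j) = Ht n q0 ((n + 1) * m) + 40 * (j * 2 ^ (q0 + m)) := by
  induction j with
  | zero => simp
  | succ j ih =>
    have e : rho n q0 ((n + 1) * m + j + 1) = 2 ^ (q0 + m) := by
      unfold rho
      rw [Nat.add_sub_cancel, Lvl_div_eq (a := (n + 1) * m + j) (b := n + 1) (c := m)
        (by omega) (by rw [mul_add, mul_one]; omega)]
    rw [← add_assoc]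
    simp only [Ht]
    rw [ih (by omega), e]
    ring

private lemma Lvl_Ht_le (n q0 m : ℕ) :
    Ht n q0 ((n + 1) * m) ≤ hb n q0 + 16 * 2 ^ q0 + 40 * ((n + 1) * 2 ^ (q0 + m)) := by
  induction m with
  | zero => simp only [mul_zero, Ht, rho_zero]; omega
  | succ m ih =>
    rw [mul_add, mul_one, Lvl_Ht_step n q0 m (n + 1) le_rfl]
    have e : (2 : ℕ) ^ (q0 + (m + 1)) = 2 * 2 ^ (q0 + m) := by rw [← add_assoc, pow_succ']
    rw [e]
    nlinarith [ih]

lemma Ht_TT (n : ℕ) {q0 i : ℕ} (hi : q0 + n + 11 ≤ i) (hh : 32 * (hb n q0 + 16 * 2 ^ q0) ≤ 2 ^ i) :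
    8 * Ht n q0 (TT n q0 i) ≤ 2 ^ i := by
  have h1 := Lvl_Ht_le n q0 (i - (q0 + n + 10))
  unfold TT
  have e : (2 : ℕ) ^ i = 1024 * (2 ^ n * 2 ^ (q0 + (i - (q0 + n + 10)))) := by
    have : (1024 : ℕ) = 2 ^ 10 := by norm_num
    rw [this, ← pow_add, ← pow_add]
    congr 1
    omega
  have h2 : n + 1 ≤ 2 ^ n := Nat.lt_two_pow_self
  have h3 : (n + 1) * 2 ^ (q0 + (i - (q0 + n + 10))) ≤ 2 ^ n * 2 ^ (q0 + (i - (q0 + n + 10))) :=
    Nat.mul_le_mul_right _ h2
  omega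

end Pool.Agent.H30.HG
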