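import Pool.Agent.H30.HG.GadA
import Pool.Agent.H30.HG.GadB2
import Pool.Agent.H30.HG.GadC
import Pool.Agent.H30.HG.Road

/-!
# HG module Node: `NodeOK` for every node of level at least one

Each field: `road_of_lk` for the route (`lk_up`, `lk_jo`), region `fr i a F '' Zr Z`, cost `≤ KK` because the route is a subset of
`TN (t+1) lo` (`rw_mono`); `oneL`: upZ f f f 4; `oneR`: upZ t f f 3; `twoL`: upZ f f f 4, upZ f t t 3; `twoR`: upZ t f f 3, upZ t t t 4;
`pass`: upZ f f f 4, upZ t f t 4; `join`: joZ f; `j21`: joZ t, upZ f f f 4; `j12`: joZ f, upZ t t f 4; `j22`: joZ t, upZ f f f 4,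
upZ t t t 4. Inclusions and disjointness are images (injectivity of the frame) of GadB, GadC.
-/

open MeasureTheory Filter Topology
open Pool.Agent.H17.IIC Pool.Agent.H41.QC Pool.Agent.H47.GM Pool.Agent.H17.QA
open Pool.Agent.H94.HG Pool.Agent.H94.BM Pool.Agent.H47.HJ

namespace Pool.Agent.H30.HG

variable {n d : ℕ}

/-- the column of a child is inside the column of the node -/
private lemma Node_col {q0 t : ℕ} {lo : V (n + 2)} {c : Bool} {v : V (n + 2)}
    (hv : v ∈ Col q0 t (ch q0 t lo c)) : v ∈ Col q0 (t + 1) lo := by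
  refine ⟨hv.1, fun k hk => ?_⟩
  obtain ⟨h1, h2⟩ := hv.2 k hk
  have h3 := sd_succ n q0 t hk
  have h4 : lo k ≤ ch q0 t lo c k ∧ ch q0 t lo c k + sd n q0 t k ≤ lo k + sd n q0 (t + 1) k := by
    unfold ch
    by_cases hj : k = jj n t
    · rw [h3, if_pos hj]
      cases c
      · simp only [Bool.false_eq_true, if_false]
        push_cast
        constructor <;> linarith [(Nat.cast_nonneg (sd n q0 t k) : (0 : ℤ) ≤ _)]
      · simp only [if_true, Pi.add_apply]
        rw [← hj, Pi.single_eq_same]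
        push_cast
        constructor <;> linarith [(Nat.cast_nonneg (sd n q0 t k) : (0 : ℤ) ≤ _)]
    · rw [h3, if_neg hj]
      cases c
      · simp only [Bool.false_eq_true, if_false]
        constructor <;> linarith
      · simp only [if_true, Pi.add_apply]
        rw [Pi.single_eq_of_ne hj, add_zero]
        constructor <;> linarith
  constructor <;> linarith [h4.1, h4.2]

/-- the routes -/
private lemma Node_cases {q0 t : ℕ} {lo : V (n + 2)} {q : V (n + 2) × ℕ}
    (hq : q ∈ TN q0 (t + 1) lo) :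
    (∃ c s s' l, 2 ≤ l ∧ l ≤ 4 ∧ q ∈ upZ q0 t lo c s s' l) ∨ ∃ s, q ∈ joZ q0 t lo s := by
  unfold TN at hq
  simp only [Finset.mem_union] at hq
  rcases hq with ((((((h | h) | h) | h) | h) | h) | h) | h
  · exact Or.inl ⟨_, _, _, _, by norm_num, by norm_num, h⟩
  · exact Or.inl ⟨_, _, _, _, by norm_num, by norm_num, h⟩
  · exact Or.inl ⟨_, _, _, _, by norm_num, by norm_num, h⟩
  · exact Or.inl ⟨_, _, _, _, by norm_num, by norm_num, h⟩
  · exact Or.inl ⟨_, _, _, _, by norm_num, by norm_num, h⟩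
  · exact Or.inl ⟨_, _, _, _, by norm_num, by norm_num, h⟩
  · exact Or.inr ⟨_, h⟩
  · exact Or.inr ⟨_, h⟩

/-- heights of the routes: above the base boxes; in the column of the node -/
lemma up_high {q0 t : ℕ} {lo : V (n + 2)} {q : V (n + 2) × ℕ} (hq : q ∈ TN q0 (t + 1) lo) {v : V (n + 2)}
    (hv : v ∈ Bx q.1 q.2) : v ∈ Col q0 (t + 1) lo ∧ (hb n q0 : ℤ) + 8 * rho n q0 0 < v 0 ∧
      v 0 ≤ Ht n q0 (t + 1) + rho n q0 (t + 1) := by
  have hH : (Ht n q0 (t + 1) : ℤ) = Ht n q0 t + 40 * rho n q0 (t + 1) := by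
    have : Ht n q0 (t + 1) = Ht n q0 t + 40 * rho n q0 (t + 1) := rfl
    rw [this]; push_cast; ring
  have hbase : (hb n q0 : ℤ) + 8 * rho n q0 0 + 6 * rho n q0 t ≤ Ht n q0 t := by
    exact_mod_cast Ht_base n q0 t
  have hr : (1 : ℤ) ≤ rho n q0 t := by exact_mod_cast rho_pos n q0 t
  have hr' : (1 : ℤ) ≤ rho n q0 (t + 1) := by exact_mod_cast rho_pos n q0 (t + 1)
  have key : ∀ c s, v ∈ regS q0 (t + 1) lo ∪ zoneS q0 t (ch q0 t lo c) s →
      v ∈ Col q0 (t + 1) lo ∧ (hb n q0 : ℤ) + 8 * rho n q0 0 < v 0 := by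
    rintro c s (h | h)
    · exact ⟨h.1, by have := h.2.1; linarith⟩
    · exact ⟨Node_col h.1, by have := h.2.1; linarith⟩
  rcases Node_cases hq with ⟨c, s, s', l, h2, h4, h⟩ | ⟨s, h⟩
  · have hz : v ∈ Zr (upZ q0 t lo c s s' l) := ⟨q, h, hv⟩
    obtain ⟨k1, k2⟩ := key c s (up_sub h2 (by omega) hz)
    refine ⟨k1, k2, ?_⟩
    have hl4 : ((l : ℕ) : ℤ) ≤ 4 := by exact_mod_cast h4
    have hm : (8 * ((l : ℕ) : ℤ) + 1) * (rho n q0 (t + 1) : ℤ) ≤ 33 * rho n q0 (t + 1) :=
      mul_le_mul_of_nonneg_right (by linarith) (by linarith)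
    rcases up_prof h2 (by omega) hz with h | h | h
    · have := h.2.1; linarith
    · have := h.2.1; linarith
    · have := h.2.1; linarith
  · have hz : v ∈ Zr (joZ q0 t lo s) := ⟨q, h, hv⟩
    have k : v ∈ Col q0 (t + 1) lo ∧ (hb n q0 : ℤ) + 8 * rho n q0 0 < v 0 := by
      rcases jo_sub hz with (h | h) | h
      · exact key false s (Or.inl h)
      · exact key false s (Or.inr h)
      · exact key true false (Or.inr h)
    refine ⟨k.1, k.2, ?_⟩
    rcases jo_prof hz with h | h | h
    · have := h.2.1; linarith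
    · have := h.2.1; linarith
    · have := h.2.1; linarith

theorem node_ok {κ : Kind} {p : unitInterval} (RS : RoadSys κ (n + 2) p) {q0 i : ℕ} {a : V (n + 2)}
    {F : Face n} {t : ℕ} {lo : V (n + 2)} {ω ω' : El (n + 2) → Bool}
    (hok : ∀ q ∈ TN q0 (t + 1) lo, tr (fr i a F) ω' ∈ RS.reg q.1 q.2)
    (hag : ∀ e ∈ InE (fr i a F '' {v | v ∈ Col q0 (t + 1) lo ∧ (hb n q0 : ℤ) + 8 * rho n q0 0 < v 0}),
      ω' e = true → ω e = true) :
    NodeOK κ ω (geo RS q0 i a ω') (F, (t + 1, lo)) (F, (t, ch q0 t lo false)) (F, (t, ch q0 t lo true))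
      (KK RS q0 i a ω' (F, (t + 1, lo))) := by
  classical
  -- roads
  have road : ∀ Z : Finset (V (n + 2) × ℕ), Z ⊆ TN q0 (t + 1) lo → ∀ x y : V (n + 2) × ℕ, Lk Z x y →
      Rw κ ω (fr i a F '' Zr Z) (fr i a F (RS.hub x.1 x.2 (tr (fr i a F) ω')))
        (fr i a F (RS.hub y.1 y.2 (tr (fr i a F) ω'))) (KK RS q0 i a ω' (F, (t + 1, lo))) := by
    intro Z hZ x y h
    have h1 := road_of_lk RS (isAut_fr i a F) (ω := ω) (ω' := ω') (Z := Z)
      (fun q hq => ⟨(TN_rad q0 (t + 1) lo (hZ hq)).2.1, hok q (hZ hq)⟩)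
      (fun e he => hag e fun v hv => by
        obtain ⟨u, ⟨q, hq, hu⟩, rfl⟩ := he v hv
        have := up_high (hZ hq) hu
        exact ⟨u, ⟨this.1, this.2.1⟩, rfl⟩) h
    refine rw_mono (fun _ h => h) subset_rfl ?_ h1
    exact Finset.sum_le_sum_of_subset hZ
  -- inclusions of the routes
  have s1 : upZ q0 t lo false false false 4 ⊆ TN q0 (t + 1) lo := by
    intro q hq; unfold TN; simp only [Finset.mem_union, hq, true_or, or_true]
  have s2 : upZ q0 t lo false true true 3 ⊆ TN q0 (t + 1) lo := by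
    intro q hq; unfold TN; simp only [Finset.mem_union, hq, true_or, or_true]
  have s3 : upZ q0 t lo true false false 3 ⊆ TN q0 (t + 1) lo := by
    intro q hq; unfold TN; simp only [Finset.mem_union, hq, true_or, or_true]
  have s4 : upZ q0 t lo true true true 4 ⊆ TN q0 (t + 1) lo := by
    intro q hq; unfold TN; simp only [Finset.mem_union, hq, true_or, or_true]
  have s5 : upZ q0 t lo true false true 4 ⊆ TN q0 (t + 1) lo := by
    intro q hq; unfold TN; simp only [Finset.mem_union, hq, true_or, or_true]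
  have s6 : upZ q0 t lo true true false 4 ⊆ TN q0 (t + 1) lo := by
    intro q hq; unfold TN; simp only [Finset.mem_union, hq, true_or, or_true]
  have s7 : joZ q0 t lo false ⊆ TN q0 (t + 1) lo := by
    intro q hq; unfold TN; simp only [Finset.mem_union, hq, true_or, or_true]
  have s8 : joZ q0 t lo true ⊆ TN q0 (t + 1) lo := by
    intro q hq; unfold TN; simp only [Finset.mem_union, hq, true_or, or_true]
  have up : ∀ c s s' l, upZ q0 t lo c s s' l ⊆ TN q0 (t + 1) lo →
      Rw κ ω (fr i a F '' Zr (upZ q0 t lo c s s' l))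
        ((geo RS q0 i a ω').hub (F, (t, ch q0 t lo c)) s) ((geo RS q0 i a ω').hub (F, (t + 1, lo)) s')
        (KK RS q0 i a ω' (F, (t + 1, lo))) := fun c s s' l h =>
    road _ h _ _ (lk_up q0 t lo c s s' l)
  have jo : ∀ s, joZ q0 t lo s ⊆ TN q0 (t + 1) lo →
      Rw κ ω (fr i a F '' Zr (joZ q0 t lo s))
        ((geo RS q0 i a ω').hub (F, (t, ch q0 t lo false)) s)
        ((geo RS q0 i a ω').hub (F, (t, ch q0 t lo true)) false)
        (KK RS q0 i a ω' (F, (t + 1, lo))) := fun s h => road _ h _ _ (lk_jo q0 t lo s)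
  have ups : ∀ (c s s' : Bool) (l : ℕ), 2 ≤ l → l ≤ 4 → fr i a F '' Zr (upZ q0 t lo c s s' l) ⊆
      (geo RS q0 i a ω').reg (F, (t + 1, lo)) ∪ (geo RS q0 i a ω').zone (F, (t, ch q0 t lo c)) s := by
    rintro c s s' l h2 h4 _ ⟨v, hv, rfl⟩
    rcases up_sub h2 (by omega) hv with h | h
    · exact Or.inl ⟨v, h, rfl⟩
    · exact Or.inr ⟨v, h, rfl⟩
  have jos : ∀ s : Bool, fr i a F '' Zr (joZ q0 t lo s) ⊆
      (geo RS q0 i a ω').reg (F, (t + 1, lo)) ∪ (geo RS q0 i a ω').zone (F, (t, ch q0 t lo false)) s ∪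
        (geo RS q0 i a ω').zone (F, (t, ch q0 t lo true)) false := by
    rintro s _ ⟨v, hv, rfl⟩
    rcases jo_sub hv with (h | h) | h
    · exact Or.inl (Or.inl ⟨v, h, rfl⟩)
    · exact Or.inl (Or.inr ⟨v, h, rfl⟩)
    · exact Or.inr ⟨v, h, rfl⟩
  have upa : ∀ (c s s' : Bool) (l : ℕ), 2 ≤ l → l ≤ 4 →
      Disjoint (fr i a F '' Zr (upZ q0 t lo c s s' l)) ((geo RS q0 i a ω').zone (F, (t + 1, lo)) (!s')) := by
    intro c s s' l h2 h4
    refine (Set.disjoint_image_iff (fr i a F).injective).2 ?_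
    rw [Set.disjoint_left]
    exact fun v hv => up_av h2 h4 hv
  have joa : ∀ s s' : Bool,
      Disjoint (fr i a F '' Zr (joZ q0 t lo s)) ((geo RS q0 i a ω').zone (F, (t + 1, lo)) s') := by
    intro s s'
    refine (Set.disjoint_image_iff (fr i a F).injective).2 ?_
    rw [Set.disjoint_left]
    exact fun v hv => jo_av hv s'
  have dj : ∀ {A B : Set (V (n + 2))}, Disjoint A B → Disjoint (fr i a F '' A) (fr i a F '' B) :=
    fun h => (Set.disjoint_image_iff (fr i a F).injective).2 h
  exact {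
    oneL := ⟨_, up false false false 4 s1, ups false false false 4 (by norm_num) le_rfl⟩
    oneR := ⟨_, up true false false 3 s3, ups true false false 3 (by norm_num) (by norm_num)⟩
    twoL := ⟨_, _, up false false false 4 s1, up false true true 3 s2,
      ups false false false 4 (by norm_num) le_rfl, ups false true true 3 (by norm_num) (by norm_num),
      dj (dj_twoL q0 t lo), upa false false false 4 (by norm_num) le_rfl,
      upa false true true 3 (by norm_num) (by norm_num)⟩
    twoR := ⟨_, _, up true false false 3 s3, up true true true 4 s4,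
      ups true false false 3 (by norm_num) (by norm_num), ups true true true 4 (by norm_num) le_rfl,
      dj (dj_twoR q0 t lo), upa true false false 3 (by norm_num) (by norm_num),
      upa true true true 4 (by norm_num) le_rfl⟩
    pass := ⟨_, _, up false false false 4 s1, up true false true 4 s5,
      ups false false false 4 (by norm_num) le_rfl, ups true false true 4 (by norm_num) le_rfl,
      dj (dj_pass q0 t lo), upa false false false 4 (by norm_num) le_rfl,
      upa true false true 4 (by norm_num) le_rfl⟩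
    join := ⟨_, jo false s7, jos false⟩
    j21 := ⟨_, _, jo true s8, up false false false 4 s1, jos true,
      ups false false false 4 (by norm_num) le_rfl, dj (dj_j21 q0 t lo), joa true false⟩
    j12 := ⟨_, _, jo false s7, up true true false 4 s6, jos false,
      ups true true false 4 (by norm_num) le_rfl, dj (dj_j12 q0 t lo), joa false false⟩
    j22 := ⟨_, _, _, jo true s8, up false false false 4 s1, up true true true 4 s4, jos true,
      ups false false false 4 (by norm_num) le_rfl, ups true true true 4 (by norm_num) le_rfl,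
      dj (dj_j21 q0 t lo), dj (dj_j22a q0 t lo), dj (dj_j22b q0 t lo), joa true false, joa true true,
      upa false false false 4 (by norm_num) le_rfl, upa true true true 4 (by norm_num) le_rfl⟩ }

end Pool.Agent.H30.HG
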