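import Pool.Agent.H30.HG.Lvl

/-!
# HG module Nodes: the nodes of the tree

Induction on `t`; the two children have disjoint boxes (coordinate `jj t`) whose union is the box of the parent.
-/

open MeasureTheory Filter Topology
open Pool.Agent.H17.IIC Pool.Agent.H41.QC Pool.Agent.H47.GM Pool.Agent.H17.QA
open Pool.Agent.H94.HG Pool.Agent.H94.BM Pool.Agent.H47.HJ

namespace Pool.Agent.H30.HG

variable {n d : ℕ}

lemma mem_nodes_zero {q0 : ℕ} {lo : V (n + 2)} {x : ℕ × V (n + 2)} :
    x ∈ nodes q0 0 lo ↔ x = (0, lo) := by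
  simp [nodes]

lemma mem_nodes_succ {q0 t : ℕ} {lo : V (n + 2)} {x : ℕ × V (n + 2)} :
    x ∈ nodes q0 (t + 1) lo ↔ x = (t + 1, lo) ∨ x ∈ nodes q0 t (ch q0 t lo false) ∨
      x ∈ nodes q0 t (ch q0 t lo true) := by
  simp [nodes]

lemma self_mem_nodes (q0 t : ℕ) (lo : V (n + 2)) : (t, lo) ∈ nodes q0 t lo := by
  cases t with
  | zero => exact mem_nodes_zero.2 rfl
  | succ t => exact mem_nodes_succ.2 (Or.inl rfl)

lemma nodes_le {q0 t : ℕ} {lo : V (n + 2)} {x : ℕ × V (n + 2)} (h : x ∈ nodes q0 t lo) : x.1 ≤ t := by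
  induction t generalizing lo with
  | zero =>
    rw [mem_nodes_zero] at h
    rw [h]
  | succ t ih =>
    rcases mem_nodes_succ.1 h with h | h | h
    · rw [h]
    · exact (ih h).trans (Nat.le_succ t)
    · exact (ih h).trans (Nat.le_succ t)

lemma ch_false (q0 t : ℕ) (lo : V (n + 2)) : ch q0 t lo false = lo := rfl

lemma ch_true_jj (q0 t : ℕ) (lo : V (n + 2)) :
    ch q0 t lo true (jj n t) = lo (jj n t) + (sd n q0 t (jj n t) : ℤ) := by
  simp [ch]

lemma ch_true_ne (q0 t : ℕ) (lo : V (n + 2)) {k : Fin (n + 2)} (hk : k ≠ jj n t) :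
    ch q0 t lo true k = lo k := by
  simp [ch, hk]

lemma nodes_lo_zero {q0 t : ℕ} {lo : V (n + 2)} {x : ℕ × V (n + 2)} (h : x ∈ nodes q0 t lo) :
    x.2 0 = lo 0 := by
  induction t generalizing lo with
  | zero =>
    rw [mem_nodes_zero] at h
    rw [h]
  | succ t ih =>
    rcases mem_nodes_succ.1 h with h | h | h
    · rw [h]
    · exact ih h
    · rw [ih h, ch_true_ne _ _ _ (jj_ne n t).symm]

/-- lateral box of a node -/
def Lat (q0 t : ℕ) (lo v : V (n + 2)) : Prop := ∀ k, k ≠ 0 → lo k ≤ v k ∧ v k < lo k + sd n q0 t k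

/-- lateral box of a child -/
lemma Lat_ch {q0 t : ℕ} {lo v : V (n + 2)} {c : Bool} (h : Lat q0 t (ch q0 t lo c) v) :
    Lat q0 (t + 1) lo v := by
  intro k hk
  have h1 := h k hk
  rw [sd_succ n q0 t hk]
  have h3 : (0 : ℤ) ≤ (sd n q0 t k : ℤ) := Int.natCast_nonneg _
  by_cases hj : k = jj n t
  · subst hj
    rw [if_pos rfl]
    push_cast
    cases c with
    | false =>
      rw [ch_false] at h1
      constructor
      · exact h1.1
      · linarith [h1.2]
    | true =>
      rw [ch_true_jj] at h1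
      constructor
      · linarith [h1.1]
      · linarith [h1.2]
  · rw [if_neg hj]
    cases c with
    | false => exact h1
    | true =>
      rw [ch_true_ne _ _ _ hj] at h1
      exact h1

/-- the boxes of the two children are disjoint -/
lemma Lat_ch_disj {q0 t : ℕ} {lo v : V (n + 2)} (h : Lat q0 t (ch q0 t lo false) v)
    (h' : Lat q0 t (ch q0 t lo true) v) : False := by
  have h1 := h (jj n t) (jj_ne n t)
  have h2 := h' (jj n t) (jj_ne n t)
  rw [ch_false] at h1
  rw [ch_true_jj] at h2
  linarith [h1.2, h2.1]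

/-- the boxes of the two children cover the box of the parent -/
lemma Lat_split {q0 t : ℕ} {lo v : V (n + 2)} (h : Lat q0 (t + 1) lo v) :
    Lat q0 t (ch q0 t lo false) v ∨ Lat q0 t (ch q0 t lo true) v := by
  by_cases hc : v (jj n t) < lo (jj n t) + (sd n q0 t (jj n t) : ℤ)
  · left
    intro k hk
    have h1 := h k hk
    rw [sd_succ n q0 t hk] at h1
    rw [ch_false]
    by_cases hj : k = jj n t
    · subst hj
      exact ⟨h1.1, hc⟩
    · rw [if_neg hj] at h1
      exact h1
  · right
    intro k hk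
    have h1 := h k hk
    rw [sd_succ n q0 t hk] at h1
    by_cases hj : k = jj n t
    · subst hj
      rw [if_pos rfl] at h1
      push_cast at h1
      rw [ch_true_jj]
      constructor
      · exact not_lt.1 hc
      · linarith [h1.2]
    · rw [if_neg hj] at h1
      rw [ch_true_ne _ _ _ hj]
      exact h1

lemma mem_Col {q0 t : ℕ} {lo v : V (n + 2)} : v ∈ Col q0 t lo ↔ 1 ≤ v 0 ∧ Lat q0 t lo v := Iff.rfl

/-- the column of a child -/
lemma Col_ch (q0 t : ℕ) (lo : V (n + 2)) (c : Bool) : Col q0 t (ch q0 t lo c) ⊆ Col q0 (t + 1) lo := by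
  intro v hv
  exact ⟨hv.1, Lat_ch (mem_Col.1 hv).2⟩

lemma Col_ch_disj (q0 t : ℕ) (lo : V (n + 2)) :
    Disjoint (Col q0 t (ch q0 t lo false)) (Col q0 t (ch q0 t lo true)) := by
  rw [Set.disjoint_left]
  intro v h1 h2
  exact Lat_ch_disj (mem_Col.1 h1).2 (mem_Col.1 h2).2

lemma Lat_nodes {q0 t : ℕ} {lo v : V (n + 2)} {x : ℕ × V (n + 2)} (h : x ∈ nodes q0 t lo)
    (hv : Lat q0 x.1 x.2 v) : Lat q0 t lo v := by
  induction t generalizing lo with
  | zero =>
    rw [mem_nodes_zero] at h
    rw [h] at hv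
    exact hv
  | succ t ih =>
    rcases mem_nodes_succ.1 h with h | h | h
    · rw [h] at hv
      exact hv
    · exact Lat_ch (ih h)
    · exact Lat_ch (ih h)

lemma Col_nodes {q0 t : ℕ} {lo : V (n + 2)} {x : ℕ × V (n + 2)} (h : x ∈ nodes q0 t lo) :
    Col q0 x.1 x.2 ⊆ Col q0 t lo := by
  intro v hv
  exact ⟨hv.1, Lat_nodes h (mem_Col.1 hv).2⟩

lemma Lat_self (q0 t : ℕ) (lo : V (n + 2)) : Lat q0 t lo lo := by
  intro k hk
  refine ⟨le_refl _, ?_⟩
  have h : 0 < sd n q0 t k := Nat.pow_pos (by norm_num)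
  have h' : (0 : ℤ) < (sd n q0 t k : ℤ) := by exact_mod_cast h
  linarith

/-- nodes of the same level are disjoint -/
theorem nodes_unique {q0 t : ℕ} {lo v : V (n + 2)} {x y : ℕ × V (n + 2)} (hx : x ∈ nodes q0 t lo)
    (hy : y ∈ nodes q0 t lo) (hxy : x.1 = y.1) (h1 : Lat q0 x.1 x.2 v) (h2 : Lat q0 y.1 y.2 v) : x = y := by
  induction t generalizing lo with
  | zero =>
    rw [mem_nodes_zero] at hx hy
    rw [hx, hy]
  | succ t ih =>
    rcases mem_nodes_succ.1 hx with hx | hx | hx
    · rcases mem_nodes_succ.1 hy with hy | hy | hy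
      · rw [hx, hy]
      · have := nodes_le hy
        rw [hx] at hxy
        simp only at hxy
        omega
      · have := nodes_le hy
        rw [hx] at hxy
        simp only at hxy
        omega
    · rcases mem_nodes_succ.1 hy with hy | hy | hy
      · have := nodes_le hx
        rw [hy] at hxy
        simp only at hxy
        omega
      · exact ih hx hy
      · exact (Lat_ch_disj (Lat_nodes hx h1) (Lat_nodes hy h2)).elim
    · rcases mem_nodes_succ.1 hy with hy | hy | hy
      · have := nodes_le hx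
        rw [hy] at hxy
        simp only at hxy
        omega
      · exact (Lat_ch_disj (Lat_nodes hy h2) (Lat_nodes hx h1)).elim
      · exact ih hx hy

/-- nodes of all levels over every point -/
theorem nodes_exists {q0 t : ℕ} {lo v : V (n + 2)} (hv : Lat q0 t lo v) {t' : ℕ} (ht : t' ≤ t) :
    ∃ l', (t', l') ∈ nodes q0 t lo ∧ Lat q0 t' l' v := by
  induction t generalizing lo with
  | zero =>
    obtain rfl : t' = 0 := by omega
    exact ⟨lo, self_mem_nodes _ _ _, hv⟩
  | succ t ih =>
    rcases Nat.lt_or_ge t t' with h | h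
    · obtain rfl : t' = t + 1 := by omega
      exact ⟨lo, self_mem_nodes _ _ _, hv⟩
    · rcases Lat_split hv with h' | h'
      · obtain ⟨l', h1, h2⟩ := ih h' h
        exact ⟨l', mem_nodes_succ.2 (Or.inr (Or.inl h1)), h2⟩
      · obtain ⟨l', h1, h2⟩ := ih h' h
        exact ⟨l', mem_nodes_succ.2 (Or.inr (Or.inr h1)), h2⟩

/-- a node under a node of the tree -/
lemma nodes_trans {q0 t : ℕ} {lo : V (n + 2)} {x y : ℕ × V (n + 2)} (hx : x ∈ nodes q0 t lo)
    (hy : y ∈ nodes q0 x.1 x.2) : y ∈ nodes q0 t lo := by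
  induction t generalizing lo with
  | zero =>
    rw [mem_nodes_zero] at hx
    rw [hx] at hy
    exact hy
  | succ t ih =>
    rcases mem_nodes_succ.1 hx with hx | hx | hx
    · rw [hx] at hy
      exact hy
    · exact mem_nodes_succ.2 (Or.inr (Or.inl (ih hx)))
    · exact mem_nodes_succ.2 (Or.inr (Or.inr (ih hx)))

/-- a node which contains a point of a smaller node contains this node -/
theorem nodes_nested {q0 t : ℕ} {lo v : V (n + 2)} {x y : ℕ × V (n + 2)} (hx : x ∈ nodes q0 t lo)
    (hy : y ∈ nodes q0 t lo) (hxy : x.1 ≤ y.1) (h1 : Lat q0 x.1 x.2 v) (h2 : Lat q0 y.1 y.2 v) :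
    x ∈ nodes q0 y.1 y.2 := by
  obtain ⟨l', h3, h4⟩ := nodes_exists h2 hxy
  have h5 := nodes_trans hy h3
  have h6 : x = (x.1, l') := nodes_unique hx h5 rfl h1 h4
  rw [h6]
  exact h3

/-- number of nodes of a level -/
theorem nodes_card (q0 t t' : ℕ) (lo : V (n + 2)) :
    ((nodes q0 t lo).filter fun x => x.1 = t').card ≤ 2 ^ (t - t') := by
  classical
  induction t generalizing lo with
  | zero =>
    refine (Finset.card_filter_le _ _).trans ?_
    have : nodes q0 0 lo = {(0, lo)} := rfl
    rw [this, Finset.card_singleton]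
    exact Nat.one_le_two_pow
  | succ t ih =>
    rcases Nat.lt_or_ge t t' with h | h
    · -- only the root
      have hsub : ((nodes q0 (t + 1) lo).filter fun x => x.1 = t') ⊆ {(t + 1, lo)} := by
        intro x hx
        rw [Finset.mem_filter] at hx
        obtain ⟨hx, hx'⟩ := hx
        rcases mem_nodes_succ.1 hx with hx | hx | hx
        · exact Finset.mem_singleton.2 hx
        · have := nodes_le hx
          omega
        · have := nodes_le hx
          omega
      refine (Finset.card_le_card hsub).trans ?_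
      rw [Finset.card_singleton]
      exact Nat.one_le_two_pow
    · have hsub : ((nodes q0 (t + 1) lo).filter fun x => x.1 = t') ⊆
          ((nodes q0 t (ch q0 t lo false)).filter fun x => x.1 = t') ∪
            ((nodes q0 t (ch q0 t lo true)).filter fun x => x.1 = t') := by
        intro x hx
        rw [Finset.mem_filter] at hx
        obtain ⟨hx, hx'⟩ := hx
        rw [Finset.mem_union, Finset.mem_filter, Finset.mem_filter]
        rcases mem_nodes_succ.1 hx with hx | hx | hx
        · rw [hx] at hx'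
          simp only at hx'
          omega
        · exact Or.inl ⟨hx, hx'⟩
        · exact Or.inr ⟨hx, hx'⟩
      refine (Finset.card_le_card hsub).trans ((Finset.card_union_le _ _).trans ?_)
      have h1 := ih (ch q0 t lo false)
      have h2 := ih (ch q0 t lo true)
      have h3 : t + 1 - t' = (t - t') + 1 := by omega
      rw [h3, pow_succ]
      omega

end Pool.Agent.H30.HG
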