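import Pool.Agent.H30.HG.Defs
import Pool.Agent.H94.BM.Splice

/-!
# HG: hypotheses on the parameters of a top route (frame coordinates), definition only
-/

open MeasureTheory Filter Topology
open Pool.Agent.H17.IIC Pool.Agent.H41.QC Pool.Agent.H47.GM Pool.Agent.H17.QA
open Pool.Agent.H94.HG Pool.Agent.H94.BM Pool.Agent.H47.HJ

namespace Pool.Agent.H30.HG

variable {n d : ℕ}

/-- hypotheses on the parameters of a top route -/
structure TopH (n q0 i : ℕ) (C : V (n + 2)) (A r6 : ℕ) : Prop where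
  hi : q0 + n + 11 ≤ i
  hH : 8 * Ht n q0 (TT n q0 i) ≤ 2 ^ i
  hC : ∀ k, 64 * |C k| ≤ (A : ℤ)
  hA : 64 * 2 ^ i ≤ A
  hr : 1 ≤ r6
  hr6 : r6 ≤ rho n q0 (TT n q0 i)

end Pool.Agent.H30.HG
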