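import Pool.Agent.H30.HG.Lvl
import Pool.Agent.H30.HG.Stair
import Pool.Agent.H30.HG.TopH

/-!
# HG module TopA: the top route is connected; number and radii of its requirements

`R = 2^i`, `H = Ht TT ≤ R/8`, `rho = rho TT = R / 2^(n+11)`. `ln` has the coordinates `H, R/2 ± 16 rho, …`; `tp2 k` is `R/2`
(`k = 0`), `3R/2` or `-R/2`; `tpD = |C k ± A - tp2 k| ≥ A (1 - 1/64 - 3/128)`, so `tpe … tpD = tp3` and
`min rho (tpD / 16) = rho`. `lk_top`: `St_lk` three times, then one step at a time along the last leg (`e / 16` changes by at most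
`1` and is at least `r6 ≥ 1`).
-/

open MeasureTheory Filter Topology
open Pool.Agent.H17.IIC Pool.Agent.H41.QC Pool.Agent.H47.GM Pool.Agent.H17.QA
open Pool.Agent.H94.HG Pool.Agent.H94.BM Pool.Agent.H47.HJ

namespace Pool.Agent.H30.HG

variable {n d : ℕ}

/-! ### coordinates -/

lemma TopA_sg (δ : Bool) : (δ = true ∧ (sg δ : ℤ) = 1) ∨ (δ = false ∧ (sg δ : ℤ) = -1) := by
  cases δ
  · right; simp [sg]
  · left; simp [sg]

/-- `2^i = 2 * 2^(i-1)`, `2048 rho ≤ 2^i` -/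
lemma TopA_num {q0 i : ℕ} {C : V (n + 2)} {A r6 : ℕ} (h : TopH n q0 i C A r6) :
    ∃ H ρ : ℤ, H = 2 ^ (i - 1) ∧ ρ = rho n q0 (TT n q0 i) ∧ (2 : ℤ) ^ i = 2 * H ∧ 1024 * ρ ≤ H ∧ 1 ≤ ρ ∧
      (r6 : ℤ) ≤ ρ ∧ 4 * (Ht n q0 (TT n q0 i) : ℤ) ≤ H ∧ 128 * H ≤ A ∧ 1 ≤ (r6 : ℤ) := by
  have h1 := rho_TT n h.hi
  have h2 := h.hH
  have h3 := h.hA
  have h4 : 2 ^ i = 2 * 2 ^ (i - 1) := by
    rw [← pow_succ']; congr 1; have := h.hi; omega
  have h5 : 2048 * rho n q0 (TT n q0 i) ≤ 2 ^ i := by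
    rw [← h1]
    apply Nat.mul_le_mul_right
    calc 2048 = 2 ^ 11 := by norm_num
      _ ≤ 2 ^ (n + 11) := Nat.pow_le_pow_right (by norm_num) (by omega)
  have h6 := h.hr
  have h7 := h.hr6
  have h8 := rho_pos n q0 (TT n q0 i)
  refine ⟨2 ^ (i - 1), rho n q0 (TT n q0 i), rfl, rfl, by exact_mod_cast h4, ?_, by exact_mod_cast h8,
    by exact_mod_cast h7, ?_, ?_, by exact_mod_cast h6⟩
  · have : 1024 * rho n q0 (TT n q0 i) ≤ 2 ^ (i - 1) := by omega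
    exact_mod_cast this
  · have : 4 * Ht n q0 (TT n q0 i) ≤ 2 ^ (i - 1) := by omega
    exact_mod_cast this
  · have : 128 * 2 ^ (i - 1) ≤ A := by omega
    exact_mod_cast this

lemma TopA_ln_zero (q0 i : ℕ) (σ : Bool) :
    (ln q0 (TT n q0 i) 0 σ : V (n + 2)) 0 = Ht n q0 (TT n q0 i) := by
  simp [ln, Po]

lemma TopA_ln_ne {q0 i : ℕ} (hi : q0 + n + 11 ≤ i) (σ : Bool) {j : Fin (n + 2)} (hj : j ≠ 0) :
    (ln q0 (TT n q0 i) 0 σ : V (n + 2)) j = 2 ^ (i - 1) + sg σ * (16 * rho n q0 (TT n q0 i)) := by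
  have h1 := sd_TT n (q0 := q0) (i := i) (by omega) hj
  have h4 : 2 ^ i / 2 = 2 ^ (i - 1) := by
    have : 2 ^ i = 2 * 2 ^ (i - 1) := by
      rw [← pow_succ']; congr 1; omega
    omega
  simp only [ln, Po, if_neg hj, h1, h4]
  push_cast
  simp

lemma TopA_tp1_zero (q0 i : ℕ) (σ : Bool) : tp1 n q0 i σ 0 = 2 ^ (i - 1) := by
  simp [tp1]

lemma TopA_tp1_ne (q0 i : ℕ) (σ : Bool) {j : Fin (n + 2)} (hj : j ≠ 0) :
    tp1 n q0 i σ j = ln q0 (TT n q0 i) 0 σ j := by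
  simp [tp1, hj]

lemma TopA_tp2_self (q0 i : ℕ) (σ δ : Bool) {k : Fin (n + 2)} (hk : k ≠ 0) :
    tp2 n q0 i σ k δ k = if δ then 3 * 2 ^ (i - 1) else -2 ^ (i - 1) := by
  simp [tp2, hk]

lemma TopA_tp2_zero (q0 i : ℕ) (σ δ : Bool) : tp2 n q0 i σ 0 δ 0 = 2 ^ (i - 1) := by
  simp [tp2, TopA_tp1_zero]

lemma TopA_tp2_ne (q0 i : ℕ) (σ δ : Bool) {k j : Fin (n + 2)} (hj : j ≠ k) :
    tp2 n q0 i σ k δ j = tp1 n q0 i σ j := by
  unfold tp2
  by_cases hk : k = 0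
  · rw [if_pos hk]
  · rw [if_neg hk, Function.update_of_ne hj]

lemma TopA_tp3_self (q0 i : ℕ) (σ δ : Bool) {k : Fin (n + 2)} (C : V (n + 2)) :
    tp3 n q0 i σ k δ C k = tp2 n q0 i σ k δ k := by simp [tp3]

lemma TopA_tp3_ne (q0 i : ℕ) (σ δ : Bool) {k j : Fin (n + 2)} (C : V (n + 2)) (hj : j ≠ k) :
    tp3 n q0 i σ k δ C j = C j := by simp [tp3, hj]

lemma TopA_tpe_self (C : V (n + 2)) (A e : ℕ) (k : Fin (n + 2)) (δ : Bool) :
    tpe C A k δ e k = C k + sg δ * ((A : ℤ) - e) := by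
  simp [tpe]

lemma TopA_tpe_ne (C : V (n + 2)) (A e : ℕ) (δ : Bool) {k j : Fin (n + 2)} (hj : j ≠ k) :
    tpe C A k δ e j = C j := by
  simp [tpe, hj]

/-- the turning value of coordinate `k`: bounds, and the length of the last leg -/
lemma TopA_turn {q0 i : ℕ} {C : V (n + 2)} {A r6 : ℕ} (h : TopH n q0 i C A r6) (σ : Bool)
    {k : Fin (n + 2)} {δ : Bool} (hk : k = 0 → δ = true) : ∃ τ : ℤ, τ = tp2 n q0 i σ k δ k ∧
    (sg δ * τ = 2 ^ (i - 1) ∧ k = 0 ∨ sg δ * τ = 3 * 2 ^ (i - 1) ∧ k ≠ 0 ∧ δ = true ∨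
      sg δ * τ = 2 ^ (i - 1) ∧ k ≠ 0 ∧ δ = false) ∧
    (tpD n q0 i σ k δ C A : ℤ) = A + sg δ * (C k - τ) := by
  obtain ⟨H, ρ, hH, hρ, g1, g2, g3, g4, g5, g6, g7⟩ := TopA_num h
  have hC := abs_le.1 (show |C k| ≤ A / 64 by have := h.hC k; omega)
  have main : ∀ τ : ℤ, τ = tp2 n q0 i σ k δ k → |τ| ≤ 3 * H →
      (tpD n q0 i σ k δ C A : ℤ) = A + sg δ * (C k - τ) := by
    intro τ hτ hb
    have hb' := abs_le.1 hb
    unfold tpD
    rw [← hτ]
    apply Int.toNat_of_nonneg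
    rcases TopA_sg δ with ⟨_, h⟩ | ⟨_, h⟩ <;> rw [h] <;> omega
  by_cases hk0 : k = 0
  · subst hk0
    have hδ := hk rfl
    subst hδ
    refine ⟨_, rfl, Or.inl ⟨?_, rfl⟩, main _ rfl ?_⟩
    · rw [TopA_tp2_zero]; simp [sg]
    · rw [TopA_tp2_zero, ← hH, abs_of_nonneg (by omega)]; omega
  · refine ⟨_, rfl, Or.inr ?_, main _ rfl ?_⟩
    · cases δ
      · right
        refine ⟨?_, hk0, rfl⟩
        rw [TopA_tp2_self _ _ _ _ hk0]; simp [sg]
      · left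
        refine ⟨?_, hk0, rfl⟩
        rw [TopA_tp2_self _ _ _ _ hk0]; simp [sg]
    · rw [TopA_tp2_self _ _ _ _ hk0, ← hH]
      cases δ
      · simp only [Bool.false_eq_true, if_false, abs_neg]
        rw [abs_of_nonneg (by omega)]; omega
      · simp only [if_true]
        rw [abs_of_nonneg (by omega)]

lemma tpe_tpD {q0 i : ℕ} {C : V (n + 2)} {A r6 : ℕ} (h : TopH n q0 i C A r6) (σ : Bool) {k : Fin (n + 2)}
    {δ : Bool} (hk : k = 0 → δ = true) :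
    tpe C A k δ (tpD n q0 i σ k δ C A) = tp3 n q0 i σ k δ C ∧
      16 * rho n q0 (TT n q0 i) ≤ tpD n q0 i σ k δ C A ∧ tpD n q0 i σ k δ C A ≤ 2 * A := by
  obtain ⟨H, ρ, hH, hρ, g1, g2, g3, g4, g5, g6, g7⟩ := TopA_num h
  obtain ⟨τ, hτ, t1, t2⟩ := TopA_turn h σ hk
  rw [← hH] at t1
  have hC := abs_le.1 (show |C k| ≤ A / 64 by have := h.hC k; omega)
  have hD : (A : ℤ) - 4 * H - A / 64 ≤ tpD n q0 i σ k δ C A ∧
      (tpD n q0 i σ k δ C A : ℤ) ≤ A + A / 64 := by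
    rw [t2]
    rcases TopA_sg δ with ⟨_, h⟩ | ⟨_, h⟩ <;> rw [h] at t1 ⊢ <;> omega
  refine ⟨?_, ?_, ?_⟩
  · funext j
    by_cases hj : j = k
    · subst hj
      rw [TopA_tpe_self, TopA_tp3_self, t2, ← hτ]
      rcases TopA_sg δ with ⟨_, h⟩ | ⟨_, h⟩ <;> rw [h] <;> ring
    · rw [TopA_tpe_ne _ _ _ _ hj, TopA_tp3_ne _ _ _ _ _ hj]
  · have h1 : (16 : ℤ) * rho n q0 (TT n q0 i) ≤ tpD n q0 i σ k δ C A := by rw [← hρ]; omega
    exact_mod_cast h1
  · have h1 : (tpD n q0 i σ k δ C A : ℤ) ≤ 2 * A := by omega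
    exact_mod_cast h1

lemma TopA_adj (C : V (n + 2)) (A e : ℕ) (k : Fin (n + 2)) (δ : Bool) :
    LatAdj (tpe C A k δ (e + 1)) (tpe C A k δ e) := by
  refine ⟨(k, δ), ?_⟩
  funext j
  rw [Pi.add_apply]
  unfold stepVec
  by_cases hj : j = k
  · subst hj
    rw [TopA_tpe_self, TopA_tpe_self]
    cases δ
    · simp [sg]; ring
    · simp [sg]; ring
  · rw [TopA_tpe_ne _ _ _ _ hj, TopA_tpe_ne _ _ _ _ hj, Pi.single_eq_of_ne hj, add_zero]

lemma TopA_mem_last {q0 i : ℕ} {C : V (n + 2)} {A r6 : ℕ} {σ : Bool} {k : Fin (n + 2)} {δ : Bool}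
    {q : V (n + 2) × ℕ} : q ∈ lastZ n q0 i σ k δ C A r6 ↔
      ∃ e, 16 * r6 ≤ e ∧ e ≤ tpD n q0 i σ k δ C A ∧
        q = (tpe C A k δ e, min (rho n q0 (TT n q0 i)) (e / 16)) := by
  classical
  rw [lastZ, Finset.mem_image]
  constructor
  · rintro ⟨e, he, rfl⟩
    rw [Finset.mem_Icc] at he
    exact ⟨e, he.1, he.2, rfl⟩
  · rintro ⟨e, h1, h2, rfl⟩
    exact ⟨e, Finset.mem_Icc.2 ⟨h1, h2⟩, rfl⟩

lemma TopA_last_lk {q0 i : ℕ} {C : V (n + 2)} {A r6 : ℕ} (h : TopH n q0 i C A r6) (σ : Bool)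
    (k : Fin (n + 2)) (δ : Bool) (e : ℕ) : 16 * r6 ≤ e → e ≤ tpD n q0 i σ k δ C A →
    Lk (lastZ n q0 i σ k δ C A r6) (tpe C A k δ e, min (rho n q0 (TT n q0 i)) (e / 16))
      (tpe C A k δ (16 * r6), r6) := by
  have h1 := h.hr
  have h2 := h.hr6
  induction e with
  | zero => intro h3; omega
  | succ e ih =>
    intro h3 h4
    rcases Nat.eq_or_lt_of_le h3 with h5 | h5
    · rw [← h5]
      have h6 : min (rho n q0 (TT n q0 i)) (16 * r6 / 16) = r6 := by omega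
      rw [h6]
      refine ⟨TopA_mem_last.2 ⟨16 * r6, le_rfl, by omega, by rw [h6]⟩, Relation.ReflTransGen.refl⟩
    · have h6 := ih (by omega) (by omega)
      refine Lk.trans (Lk.single (TopA_mem_last.2 ⟨e + 1, h3, h4, rfl⟩) h6.1 ?_) h6
      refine ⟨Or.inr (TopA_adj C A e k δ), ?_, ?_⟩
      · dsimp only; omega
      · dsimp only; omega

theorem lk_top {q0 i : ℕ} {C : V (n + 2)} {A r6 : ℕ} (h : TopH n q0 i C A r6) (σ : Bool) {k : Fin (n + 2)}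
    {δ : Bool} (hk : k = 0 → δ = true) :
    Lk (topZ n q0 i σ k δ C A r6) (ln q0 (TT n q0 i) 0 σ, rho n q0 (TT n q0 i))
      (tpe C A k δ (16 * r6), r6) := by
  classical
  obtain ⟨e1, e2, e3⟩ := tpe_tpD h σ hk
  have hsub : ∀ S : Finset (V (n + 2)), S ⊆ St (ln q0 (TT n q0 i) 0 σ) (tp1 n q0 i σ) ∪
      St (tp1 n q0 i σ) (tp2 n q0 i σ k δ) ∪ St (tp2 n q0 i σ k δ) (tp3 n q0 i σ k δ C) →
      im (rho n q0 (TT n q0 i)) S ⊆ topZ n q0 i σ k δ C A r6 := by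
    intro S hS q hq
    rw [mem_im] at hq
    unfold topZ
    rw [Finset.mem_union]
    left
    rw [mem_im]
    exact ⟨hS hq.1, hq.2⟩
  have l1 := Lk.mono (St_lk (rho n q0 (TT n q0 i)) (ln q0 (TT n q0 i) 0 σ) (tp1 n q0 i σ))
    (hsub _ (Finset.subset_union_left.trans Finset.subset_union_left))
  have l2 := Lk.mono (St_lk (rho n q0 (TT n q0 i)) (tp1 n q0 i σ) (tp2 n q0 i σ k δ))
    (hsub _ (Finset.subset_union_right.trans Finset.subset_union_left))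
  have l3 := Lk.mono (St_lk (rho n q0 (TT n q0 i)) (tp2 n q0 i σ k δ) (tp3 n q0 i σ k δ C))
    (hsub _ Finset.subset_union_right)
  have h2 := h.hr6
  have l4 := TopA_last_lk h σ k δ (tpD n q0 i σ k δ C A) (by omega) le_rfl
  have h6 : min (rho n q0 (TT n q0 i)) (tpD n q0 i σ k δ C A / 16) = rho n q0 (TT n q0 i) := by omega
  rw [h6, e1] at l4
  have l5 := Lk.mono l4 (show lastZ n q0 i σ k δ C A r6 ⊆ topZ n q0 i σ k δ C A r6 from
    Finset.subset_union_right)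
  exact ((l1.trans l2).trans l3).trans l5

lemma top_rad {q0 i : ℕ} {C : V (n + 2)} {A r6 : ℕ} (h : TopH n q0 i C A r6) {σ : Bool} {k : Fin (n + 2)}
    {δ : Bool} {q : V (n + 2) × ℕ} (hq : q ∈ topZ n q0 i σ k δ C A r6) :
    r6 ≤ q.2 ∧ 1 ≤ q.2 ∧ q.2 ≤ rho n q0 (TT n q0 i) := by
  classical
  have h1 := h.hr
  have h2 := h.hr6
  unfold topZ at hq
  rw [Finset.mem_union, mem_im] at hq
  rcases hq with ⟨_, hq⟩ | hq
  · rw [hq]; omega
  · obtain ⟨e, he1, he2, rfl⟩ := TopA_mem_last.1 hq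
    dsimp only; omega

/-- number of requirements of the first three legs -/
lemma TopA_im_card {q0 i : ℕ} {C : V (n + 2)} {A r6 : ℕ} (h : TopH n q0 i C A r6) {σ : Bool}
    {k : Fin (n + 2)} {δ : Bool} :
    (im (rho n q0 (TT n q0 i)) (St (ln q0 (TT n q0 i) 0 σ) (tp1 n q0 i σ) ∪
      St (tp1 n q0 i σ) (tp2 n q0 i σ k δ) ∪
      St (tp2 n q0 i σ k δ) (tp3 n q0 i σ k δ C))).card ≤ (n + 2) * A := by
  classical
  obtain ⟨H, ρ, hH, hρ, g1, g2, g3, g4, g5, g6, g7⟩ := TopA_num h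
  have hC := fun j => abs_le.1 (show |C j| ≤ A / 64 by have := h.hC j; omega)
  have hln : ∀ j, |(ln q0 (TT n q0 i) 0 σ : V (n + 2)) j| ≤ 2 * H := by
    intro j
    by_cases hj : j = 0
    · subst hj
      rw [TopA_ln_zero, abs_of_nonneg (by positivity)]; omega
    · rw [TopA_ln_ne h.hi σ hj, ← hH, ← hρ, abs_le]
      rcases TopA_sg σ with ⟨_, h⟩ | ⟨_, h⟩ <;> rw [h] <;> constructor <;> omega
  have h1 : ∀ j, |tp1 n q0 i σ j| ≤ 2 * H := by
    intro j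
    by_cases hj : j = 0
    · subst hj
      rw [TopA_tp1_zero, ← hH, abs_of_nonneg (by omega)]; omega
    · rw [TopA_tp1_ne _ _ _ hj]; exact hln j
  have h2 : ∀ j, |tp2 n q0 i σ k δ j| ≤ 3 * H := by
    intro j
    by_cases hj : j = k
    · subst hj
      by_cases hj0 : j = 0
      · subst hj0
        rw [TopA_tp2_zero, ← hH, abs_of_nonneg (by omega)]; omega
      · rw [TopA_tp2_self _ _ _ _ hj0, ← hH]
        cases δ
        · simp only [Bool.false_eq_true, if_false, abs_neg]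
          rw [abs_of_nonneg (by omega)]; omega
        · simp only [if_true]
          rw [abs_of_nonneg (by omega)]
    · rw [TopA_tp2_ne _ _ _ _ hj]
      have := h1 j
      omega
  have h3 : ∀ j, |tp3 n q0 i σ k δ C j| ≤ 3 * H + A / 64 := by
    intro j
    by_cases hj : j = k
    · subst hj
      rw [TopA_tp3_self]
      have := h2 j
      omega
    · rw [TopA_tp3_ne _ _ _ _ _ hj, abs_le]
      have := hC j
      constructor <;> omega
  obtain ⟨B, hB⟩ : ∃ B : ℕ, B = A / 8 := ⟨_, rfl⟩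
  have c1 := St_card (p := (ln q0 (TT n q0 i) 0 σ : V (n + 2))) (q := tp1 n q0 i σ) (B := B) (by
    intro j
    have a1 := abs_le.1 (hln j)
    have a2 := abs_le.1 (h1 j)
    rw [abs_le]; constructor <;> omega)
  have c2 := St_card (p := tp1 n q0 i σ) (q := tp2 n q0 i σ k δ) (B := B) (by
    intro j
    have a1 := abs_le.1 (h1 j)
    have a2 := abs_le.1 (h2 j)
    rw [abs_le]; constructor <;> omega)
  have c3 := St_card (p := tp2 n q0 i σ k δ) (q := tp3 n q0 i σ k δ C) (B := B) (by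
    intro j
    have a1 := abs_le.1 (h2 j)
    have a2 := abs_le.1 (h3 j)
    rw [abs_le]; constructor <;> omega)
  have c4 : (im (rho n q0 (TT n q0 i)) (St (ln q0 (TT n q0 i) 0 σ) (tp1 n q0 i σ) ∪
      St (tp1 n q0 i σ) (tp2 n q0 i σ k δ) ∪
      St (tp2 n q0 i σ k δ) (tp3 n q0 i σ k δ C))).card ≤
      (n + 2) * (B + 1) + (n + 2) * (B + 1) + (n + 2) * (B + 1) := by
    refine Finset.card_image_le.trans ?_
    refine (Finset.card_union_le _ _).trans ?_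
    refine add_le_add ((Finset.card_union_le _ _).trans (add_le_add c1 c2)) c3
  refine c4.trans ?_
  have c5 : 3 * (B + 1) ≤ A := by
    have : (1024 : ℤ) ≤ A := by omega
    omega
  calc (n + 2) * (B + 1) + (n + 2) * (B + 1) + (n + 2) * (B + 1) = (n + 2) * (3 * (B + 1)) := by ring
    _ ≤ (n + 2) * A := Nat.mul_le_mul_left _ c5

theorem top_card {q0 i : ℕ} {C : V (n + 2)} {A r6 : ℕ} (h : TopH n q0 i C A r6) {σ : Bool} {k : Fin (n + 2)}
    {δ : Bool} (hk : k = 0 → δ = true) : (topZ n q0 i σ k δ C A r6).card ≤ 8 * (n + 2) * A := by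
  classical
  obtain ⟨e1, e2, e3⟩ := tpe_tpD h σ hk
  obtain ⟨H, ρ, hH, hρ, g1, g2, g3, g4, g5, g6, g7⟩ := TopA_num h
  have h1 := TopA_im_card h (σ := σ) (k := k) (δ := δ)
  have h2 : (lastZ n q0 i σ k δ C A r6).card ≤ 2 * A + 1 := by
    refine Finset.card_image_le.trans ?_
    rw [Nat.card_Icc]
    omega
  have h3 : 1 ≤ A := by
    have : (1 : ℤ) ≤ A := by omega
    exact_mod_cast this
  refine (Finset.card_union_le _ _).trans ((add_le_add h1 h2).trans ?_)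
  nlinarith

/-- sums of a function of the radius over a top route -/
theorem top_sum {q0 i : ℕ} {C : V (n + 2)} {A r6 : ℕ} (h : TopH n q0 i C A r6) {σ : Bool} {k : Fin (n + 2)}
    {δ : Bool} (hk : k = 0 → δ = true) (f : ℕ → ℝ) (hf : ∀ r, 0 ≤ f r) :
    ∑ q ∈ topZ n q0 i σ k δ C A r6, f q.2 ≤ 4 * (n + 2) * A * f (rho n q0 (TT n q0 i)) +
      ∑ e ∈ Finset.Icc (16 * r6) (2 * A), f (min (rho n q0 (TT n q0 i)) (e / 16)) := by
  classical
  obtain ⟨e1, e2, e3⟩ := tpe_tpD h σ hk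
  have h0 := TopA_im_card h (σ := σ) (k := k) (δ := δ)
  obtain ⟨Z, hZ⟩ : ∃ Z, Z = im (rho n q0 (TT n q0 i)) (St (ln q0 (TT n q0 i) 0 σ) (tp1 n q0 i σ) ∪
      St (tp1 n q0 i σ) (tp2 n q0 i σ k δ) ∪
      St (tp2 n q0 i σ k δ) (tp3 n q0 i σ k δ C)) := ⟨_, rfl⟩
  have hZ2 : topZ n q0 i σ k δ C A r6 = Z ∪ lastZ n q0 i σ k δ C A r6 := by rw [hZ]; rfl
  have hZr : ∀ q ∈ Z, q.2 = rho n q0 (TT n q0 i) := by
    intro q hq
    rw [hZ, mem_im] at hq
    exact hq.2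
  rw [← hZ] at h0
  rw [hZ2]
  have s1 : ∑ q ∈ Z ∪ lastZ n q0 i σ k δ C A r6, f q.2 ≤
      ∑ q ∈ Z, f q.2 + ∑ q ∈ lastZ n q0 i σ k δ C A r6, f q.2 := by
    rw [← Finset.sum_union_inter]
    exact le_add_of_nonneg_right (Finset.sum_nonneg fun q _ => hf _)
  have s2 : ∑ q ∈ Z, f q.2 ≤ 4 * (n + 2) * A * f (rho n q0 (TT n q0 i)) := by
    rw [Finset.sum_congr rfl fun q hq => by rw [hZr q hq], Finset.sum_const, nsmul_eq_mul]
    apply mul_le_mul_of_nonneg_right _ (hf _)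
    have : ((Z.card : ℕ) : ℝ) ≤ (((n + 2) * A : ℕ) : ℝ) := by exact_mod_cast h0
    push_cast at this
    have hp : (0 : ℝ) ≤ (n + 2) * A := by positivity
    linarith
  have s3 : ∑ q ∈ lastZ n q0 i σ k δ C A r6, f q.2 ≤
      ∑ e ∈ Finset.Icc (16 * r6) (2 * A), f (min (rho n q0 (TT n q0 i)) (e / 16)) := by
    rw [lastZ, Finset.sum_image]
    · apply Finset.sum_le_sum_of_subset_of_nonneg
      · exact Finset.Icc_subset_Icc le_rfl e3
      · intro e _ _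
        exact hf _
    · intro a _ b _ hab
      have h1 := congrArg (fun q : V (n + 2) × ℕ => q.1 k) hab
      dsimp only at h1
      rw [TopA_tpe_self, TopA_tpe_self] at h1
      rcases TopA_sg δ with ⟨_, h⟩ | ⟨_, h⟩ <;> rw [h] at h1 <;> omega
  linarith

end Pool.Agent.H30.HG
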