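import Pool.Agent.H30.HG.Lvl
import Pool.Agent.H30.HG.Stair
import Pool.Agent.H30.HG.TopH

/-!
# HG module TopB: where the top routes are (frame coordinates)

Leg by leg with `Zr_St`, `Zr_St_single`. First leg: over the port, heights `H … R/2`. Second leg: height `R/2`, coordinate `k` moves
to `3R/2` or `-R/2`. Third leg: coordinate `k` fixed. Last leg: coordinate `k` from `tp2 k` outwards, the others those of `C`.
-/

open MeasureTheory Filter Topology
open Pool.Agent.H17.IIC Pool.Agent.H41.QC Pool.Agent.H47.GM Pool.Agent.H17.QA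
open Pool.Agent.H94.HG Pool.Agent.H94.BM Pool.Agent.H47.HJ

namespace Pool.Agent.H30.HG

variable {n d : ℕ}

/-- numerical facts -/
lemma topB_num {q0 i : ℕ} {C : V (n + 2)} {A r6 : ℕ} (h : TopH n q0 i C A r6) :
    (2 : ℤ) * 2 ^ (i - 1) = 2 ^ i ∧ 2048 * (rho n q0 (TT n q0 i) : ℤ) ≤ 2 ^ i ∧
    8 * (Ht n q0 (TT n q0 i) : ℤ) ≤ 2 ^ i ∧ 64 * (2 : ℤ) ^ i ≤ A ∧ 1 ≤ (rho n q0 (TT n q0 i) : ℤ) := by
  have hi := h.hi
  refine ⟨?_, ?_, ?_, ?_, ?_⟩
  · have e : i = (i - 1) + 1 := by omega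
    conv_rhs => rw [e, pow_succ]
    ring
  · have h1 := rho_TT n hi
    have h2 : 2048 ≤ 2 ^ (n + 11) := by
      have : (2 : ℕ) ^ 11 ≤ 2 ^ (n + 11) := Nat.pow_le_pow_right (by norm_num) (by omega)
      simpa using this
    have h3 : 2048 * rho n q0 (TT n q0 i) ≤ 2 ^ i := by
      rw [← h1]
      exact Nat.mul_le_mul_right _ h2
    exact_mod_cast h3
  · exact_mod_cast h.hH
  · exact_mod_cast h.hA
  · exact_mod_cast rho_pos n q0 (TT n q0 i)

lemma topB_ln0 (n q0 i : ℕ) (σ : Bool) :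
    ln (n := n) q0 (TT n q0 i) 0 σ 0 = (Ht n q0 (TT n q0 i) : ℤ) := by
  unfold ln Po
  rw [if_pos rfl]

lemma topB_lnk {q0 i : ℕ} (hi : q0 + n + 11 ≤ i) (σ : Bool) {m : Fin (n + 2)} (hm : m ≠ 0) :
    ln (n := n) q0 (TT n q0 i) 0 σ m = 2 ^ (i - 1) + sg σ * (16 * rho n q0 (TT n q0 i)) := by
  unfold ln Po
  rw [if_neg hm, sd_TT n (by omega) hm]
  have e : (2 : ℕ) ^ i / 2 = 2 ^ (i - 1) := by
    have e1 : i = (i - 1) + 1 := by omega
    conv_lhs => rw [e1, pow_succ]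
    exact Nat.mul_div_cancel _ (by norm_num)
  rw [e, Pi.zero_apply, zero_add]
  push_cast
  rfl

lemma topB_tp10 (n q0 i : ℕ) (σ : Bool) : tp1 n q0 i σ 0 = 2 ^ (i - 1) := by
  unfold tp1
  rw [Function.update_self]

lemma topB_tp1k (n q0 i : ℕ) (σ : Bool) {m : Fin (n + 2)} (hm : m ≠ 0) :
    tp1 n q0 i σ m = ln q0 (TT n q0 i) 0 σ m := by
  unfold tp1
  rw [Function.update_of_ne hm]

lemma topB_tp2_zero (n q0 i : ℕ) (σ δ : Bool) : tp2 n q0 i σ 0 δ = tp1 n q0 i σ := by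
  unfold tp2
  rw [if_pos rfl]

lemma topB_tp2k (n q0 i : ℕ) (σ δ : Bool) {k : Fin (n + 2)} (hk : k ≠ 0) :
    tp2 n q0 i σ k δ k = if δ then 3 * 2 ^ (i - 1) else -2 ^ (i - 1) := by
  unfold tp2
  rw [if_neg hk, Function.update_self]

lemma topB_tp2_ne (n q0 i : ℕ) (σ δ : Bool) {k m : Fin (n + 2)} (hm : m ≠ k) :
    tp2 n q0 i σ k δ m = tp1 n q0 i σ m := by
  unfold tp2
  by_cases hk : k = 0
  · rw [if_pos hk]
  · rw [if_neg hk, Function.update_of_ne hm]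

lemma topB_tp3k (n q0 i : ℕ) (σ δ : Bool) (k : Fin (n + 2)) (C : V (n + 2)) :
    tp3 n q0 i σ k δ C k = tp2 n q0 i σ k δ k := by
  unfold tp3
  rw [Function.update_self]

lemma topB_tp3_ne (n q0 i : ℕ) (σ δ : Bool) {k m : Fin (n + 2)} (hm : m ≠ k) (C : V (n + 2)) :
    tp3 n q0 i σ k δ C m = C m := by
  unfold tp3
  rw [Function.update_of_ne hm]

/-- the four legs -/
lemma topB_cases {q0 i : ℕ} {C : V (n + 2)} {A r6 : ℕ} {σ : Bool} {k : Fin (n + 2)} {δ : Bool}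
    {v : V (n + 2)} (hv : v ∈ Zr (topZ n q0 i σ k δ C A r6)) :
    v ∈ Zr (im (rho n q0 (TT n q0 i)) (St (ln q0 (TT n q0 i) 0 σ) (tp1 n q0 i σ))) ∨
    v ∈ Zr (im (rho n q0 (TT n q0 i)) (St (tp1 n q0 i σ) (tp2 n q0 i σ k δ))) ∨
    v ∈ Zr (im (rho n q0 (TT n q0 i)) (St (tp2 n q0 i σ k δ) (tp3 n q0 i σ k δ C))) ∨
    ∃ e : ℕ, 16 * r6 ≤ e ∧ (e ≤ tpD n q0 i σ k δ C A) ∧
      ∀ m, |v m - tpe C A k δ e m| ≤ ((min (rho n q0 (TT n q0 i)) (e / 16) : ℕ) : ℤ) := by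
  classical
  obtain ⟨q, hq, hvq⟩ := hv
  unfold topZ at hq
  rw [Finset.mem_union, mem_im, Finset.mem_union, Finset.mem_union] at hq
  rcases hq with ⟨(h1 | h1) | h1, h2⟩ | h1
  · exact Or.inl ⟨q, mem_im.2 ⟨h1, h2⟩, hvq⟩
  · exact Or.inr (Or.inl ⟨q, mem_im.2 ⟨h1, h2⟩, hvq⟩)
  · exact Or.inr (Or.inr (Or.inl ⟨q, mem_im.2 ⟨h1, h2⟩, hvq⟩))
  · right; right; right
    unfold lastZ at h1
    rw [Finset.mem_image] at h1
    obtain ⟨e, he, rfl⟩ := h1
    rw [Finset.mem_Icc] at he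
    exact ⟨e, he.1, he.2, mem_Bx.1 hvq⟩

/-- first leg -/
lemma topB_leg1 {q0 i : ℕ} {C : V (n + 2)} {A r6 : ℕ} (h : TopH n q0 i C A r6) {σ : Bool} {v : V (n + 2)}
    (hv : v ∈ Zr (im (rho n q0 (TT n q0 i)) (St (ln q0 (TT n q0 i) 0 σ) (tp1 n q0 i σ)))) :
    (Ht n q0 (TT n q0 i) : ℤ) - rho n q0 (TT n q0 i) ≤ v 0 ∧
      v 0 ≤ 2 ^ (i - 1) + (rho n q0 (TT n q0 i) : ℤ) ∧
      ∀ m, m ≠ 0 → |v m - ln q0 (TT n q0 i) 0 σ m| ≤ rho n q0 (TT n q0 i) := by
  obtain ⟨n1, n2, n3, n4, n5⟩ := topB_num h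
  obtain ⟨h1, h2, h3⟩ := Zr_St_single (k := 0) (fun m hm => (topB_tp1k n q0 i σ hm).symm) hv
  rw [topB_ln0, topB_tp10] at h2 h3
  refine ⟨?_, ?_, h1⟩
  · rw [min_eq_left (by linarith)] at h2
    exact h2
  · rw [max_eq_right (by linarith)] at h3
    exact h3

/-- second leg -/
lemma topB_leg2 {q0 i : ℕ} {σ : Bool} {k : Fin (n + 2)} {δ : Bool} {v : V (n + 2)}
    (hv : v ∈ Zr (im (rho n q0 (TT n q0 i)) (St (tp1 n q0 i σ) (tp2 n q0 i σ k δ)))) :
    (∀ m, m ≠ k → |v m - tp1 n q0 i σ m| ≤ rho n q0 (TT n q0 i)) ∧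
    min (tp1 n q0 i σ k) (tp2 n q0 i σ k δ k) - rho n q0 (TT n q0 i) ≤ v k ∧
    v k ≤ max (tp1 n q0 i σ k) (tp2 n q0 i σ k δ k) + rho n q0 (TT n q0 i) :=
  Zr_St_single (k := k) (fun _ hm => (topB_tp2_ne n q0 i σ δ hm).symm) hv

/-- third leg: coordinate `k` -/
lemma topB_leg3k {q0 i : ℕ} {C : V (n + 2)} {σ : Bool} {k : Fin (n + 2)} {δ : Bool} {v : V (n + 2)}
    (hv : v ∈ Zr (im (rho n q0 (TT n q0 i)) (St (tp2 n q0 i σ k δ) (tp3 n q0 i σ k δ C)))) :
    tp2 n q0 i σ k δ k - rho n q0 (TT n q0 i) ≤ v k ∧ v k ≤ tp2 n q0 i σ k δ k + rho n q0 (TT n q0 i) := by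
  have h1 := Zr_St hv k
  rw [topB_tp3k, min_self, max_self] at h1
  exact h1

/-- last leg: coordinate `k` -/
lemma topB_leg4 {q0 i : ℕ} {C : V (n + 2)} {A r6 : ℕ} (h : TopH n q0 i C A r6) {σ : Bool} {k : Fin (n + 2)}
    {δ : Bool} {v : V (n + 2)} {e : ℕ} (he : 16 * r6 ≤ e) (he' : e ≤ tpD n q0 i σ k δ C A)
    (hv : ∀ m, |v m - tpe C A k δ e m| ≤ ((min (rho n q0 (TT n q0 i)) (e / 16) : ℕ) : ℤ)) :
    (∀ m, m ≠ k → |v m - C m| ≤ rho n q0 (TT n q0 i)) ∧
    |v k - (C k + sg δ * ((A : ℤ) - e))| ≤ rho n q0 (TT n q0 i) ∧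
    16 * |v k - (C k + sg δ * ((A : ℤ) - e))| ≤ e ∧
    (e : ℤ) ≤ (A : ℤ) + sg δ * (C k - tp2 n q0 i σ k δ k) := by
  have hr := h.hr
  have h0 : ∀ m, |v m - tpe C A k δ e m| ≤ rho n q0 (TT n q0 i) := fun m =>
    (hv m).trans (by exact_mod_cast min_le_left _ _)
  have hk : tpe C A k δ e k = C k + sg δ * ((A : ℤ) - e) := by
    unfold tpe
    rw [Function.update_self]
  refine ⟨fun m hm => ?_, ?_, ?_, ?_⟩
  · have h1 := h0 m
    unfold tpe at h1
    rwa [Function.update_of_ne hm] at h1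
  · have h1 := h0 k
    rwa [hk] at h1
  · have h1 := hv k
    rw [hk] at h1
    have h2 : (min (rho n q0 (TT n q0 i)) (e / 16) : ℕ) ≤ e / 16 := min_le_right _ _
    have h3 : 16 * (min (rho n q0 (TT n q0 i)) (e / 16) : ℕ) ≤ e := by omega
    have h4 : 16 * ((min (rho n q0 (TT n q0 i)) (e / 16) : ℕ) : ℤ) ≤ e := by exact_mod_cast h3
    linarith
  · unfold tpD at he'
    omega

/-- half of the size: all the way points -/
lemma topB_side1 {q0 i : ℕ} {C : V (n + 2)} {A r6 : ℕ} (h : TopH n q0 i C A r6) (σ : Bool) (m : Fin (n + 2)) :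
    0 ≤ tp1 n q0 i σ m ∧ tp1 n q0 i σ m ≤ 2 ^ i := by
  obtain ⟨n1, n2, n3, n4, n5⟩ := topB_num h
  by_cases hm : m = 0
  · subst hm
    rw [topB_tp10]
    constructor <;> linarith
  · rw [topB_tp1k n q0 i σ hm, topB_lnk h.hi σ hm]
    cases σ
    · simp only [sg, Bool.false_eq_true, if_false]
      constructor <;> linarith
    · simp only [sg, if_true]
      constructor <;> linarith

/-- `v` is over the port or high or far in the direction `k` -/
lemma topB_far {q0 i : ℕ} {C : V (n + 2)} {A r6 : ℕ} (h : TopH n q0 i C A r6) {σ : Bool} {k : Fin (n + 2)}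
    {δ : Bool} (hk : k = 0 → δ = true) {v : V (n + 2)}
    (h1 : δ = true → tp2 n q0 i σ k δ k - rho n q0 (TT n q0 i) ≤ v k)
    (h2 : δ = false → v k ≤ tp2 n q0 i σ k δ k + rho n q0 (TT n q0 i)) :
    2 ^ i ≤ 4 * v 0 ∨ (k ≠ 0 ∧ δ = true ∧ 5 * 2 ^ i ≤ 4 * v k) ∨
    (k ≠ 0 ∧ δ = false ∧ 4 * v k ≤ -2 ^ i) := by
  obtain ⟨n1, n2, n3, n4, n5⟩ := topB_num h
  by_cases hk0 : k = 0
  · subst hk0
    left
    have h3 := h1 (hk rfl)
    rw [topB_tp2_zero, topB_tp10] at h3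
    linarith
  · right
    rw [topB_tp2k n q0 i σ δ hk0] at h1 h2
    cases hδ : δ
    · right
      have h3 := h2 hδ
      rw [hδ] at h3
      simp only [Bool.false_eq_true, if_false] at h3
      exact ⟨hk0, rfl, by linarith⟩
    · left
      have h3 := h1 hδ
      rw [hδ] at h3
      simp only [if_true] at h3
      exact ⟨hk0, rfl, by linarith⟩

/-- last leg: beyond `tp2` -/
lemma topB_leg4' {q0 i : ℕ} {C : V (n + 2)} {A r6 : ℕ} (h : TopH n q0 i C A r6) {σ : Bool} {k : Fin (n + 2)}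
    {δ : Bool} {v : V (n + 2)} {e : ℕ} (he : 16 * r6 ≤ e) (he' : e ≤ tpD n q0 i σ k δ C A)
    (hv : ∀ m, |v m - tpe C A k δ e m| ≤ ((min (rho n q0 (TT n q0 i)) (e / 16) : ℕ) : ℤ)) :
    (δ = true → tp2 n q0 i σ k δ k - rho n q0 (TT n q0 i) ≤ v k) ∧
    (δ = false → v k ≤ tp2 n q0 i σ k δ k + rho n q0 (TT n q0 i)) := by
  obtain ⟨-, h2, -, h4⟩ := topB_leg4 h he he' hv
  rw [abs_le] at h2
  constructor
  · intro hδ
    rw [hδ] at h2 h4 ⊢
    simp only [sg, if_true] at h2 h4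
    linarith [h2.1]
  · intro hδ
    rw [hδ] at h2 h4 ⊢
    simp only [sg, Bool.false_eq_true, if_false] at h2 h4
    linarith [h2.2]

/-- the three kinds of points of the balls of a top route -/
theorem top_reg {q0 i : ℕ} {C : V (n + 2)} {A r6 : ℕ} (h : TopH n q0 i C A r6) {σ : Bool} {k : Fin (n + 2)}
    {δ : Bool} (hk : k = 0 → δ = true) {v : V (n + 2)} (hv : v ∈ Zr (topZ n q0 i σ k δ C A r6)) :
    ((Ht n q0 (TT n q0 i) : ℤ) - rho n q0 (TT n q0 i) ≤ v 0 ∧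
      v 0 ≤ 2 ^ (i - 1) + (rho n q0 (TT n q0 i) : ℤ) ∧
      ∀ m, m ≠ 0 → |v m - ln q0 (TT n q0 i) 0 σ m| ≤ rho n q0 (TT n q0 i)) ∨
    2 ^ i ≤ 4 * v 0 ∨ (k ≠ 0 ∧ δ = true ∧ 5 * 2 ^ i ≤ 4 * v k) ∨
    (k ≠ 0 ∧ δ = false ∧ 4 * v k ≤ -2 ^ i) := by
  obtain ⟨n1, n2, n3, n4, n5⟩ := topB_num h
  rcases topB_cases hv with h1 | h1 | h1 | ⟨e, he, he', h1⟩
  · exact Or.inl (topB_leg1 h h1)
  · right; left
    obtain ⟨h2, h3, -⟩ := topB_leg2 h1
    by_cases hk0 : k = 0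
    · subst hk0
      rw [topB_tp2_zero, min_self, topB_tp10] at h3
      linarith
    · have h4 := h2 0 (Ne.symm hk0)
      rw [topB_tp10, abs_le] at h4
      linarith [h4.1]
  · right
    have h2 := topB_leg3k h1
    exact topB_far h hk (fun _ => h2.1) (fun _ => h2.2)
  · right
    have h2 := topB_leg4' h he he' h1
    exact topB_far h hk h2.1 h2.2

/-- lateral direction: half space -/
theorem top_side {q0 i : ℕ} {C : V (n + 2)} {A r6 : ℕ} (h : TopH n q0 i C A r6) {σ : Bool} {k : Fin (n + 2)}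
    {δ : Bool} (hk : k ≠ 0) {v : V (n + 2)} (hv : v ∈ Zr (topZ n q0 i σ k δ C A r6)) :
    (δ = true → 2 ^ (i - 1) + sg σ * (16 * rho n q0 (TT n q0 i)) - (rho n q0 (TT n q0 i) : ℤ) ≤ v k) ∧
    (δ = false → v k ≤ 2 ^ (i - 1) + sg σ * (16 * rho n q0 (TT n q0 i)) + (rho n q0 (TT n q0 i) : ℤ)) := by
  obtain ⟨n1, n2, n3, n4, n5⟩ := topB_num h
  have hl := topB_lnk (n := n) h.hi σ hk
  have hb : -(16 * (rho n q0 (TT n q0 i) : ℤ)) ≤ sg σ * (16 * rho n q0 (TT n q0 i)) ∧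
      sg σ * (16 * rho n q0 (TT n q0 i)) ≤ 16 * (rho n q0 (TT n q0 i) : ℤ) := by
    cases σ
    · simp only [sg, Bool.false_eq_true, if_false]
      constructor <;> linarith
    · simp only [sg, if_true]
      constructor <;> linarith
  have h2k := topB_tp2k n q0 i σ δ hk
  have key : ∀ w : V (n + 2), ((δ = true → tp2 n q0 i σ k δ k - rho n q0 (TT n q0 i) ≤ w k) ∧
      (δ = false → w k ≤ tp2 n q0 i σ k δ k + rho n q0 (TT n q0 i))) →
      (δ = true → 2 ^ (i - 1) + sg σ * (16 * rho n q0 (TT n q0 i)) - (rho n q0 (TT n q0 i) : ℤ) ≤ w k) ∧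
      (δ = false → w k ≤ 2 ^ (i - 1) + sg σ * (16 * rho n q0 (TT n q0 i)) + (rho n q0 (TT n q0 i) : ℤ)) := by
    intro w ⟨g1, g2⟩
    constructor
    · intro hδ
      have g3 := g1 hδ
      rw [h2k, if_pos hδ] at g3
      linarith [hb.2]
    · intro hδ
      have g3 := g2 hδ
      rw [h2k, hδ] at g3
      simp only [Bool.false_eq_true, if_false] at g3
      linarith [hb.1]
  rcases topB_cases hv with h1 | h1 | h1 | ⟨e, he, he', h1⟩
  · obtain ⟨-, -, h2⟩ := topB_leg1 h h1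
    have h3 := h2 k hk
    rw [hl, abs_le] at h3
    exact ⟨fun _ => by linarith [h3.1], fun _ => by linarith [h3.2]⟩
  · obtain ⟨-, h2, h3⟩ := topB_leg2 h1
    rw [topB_tp1k n q0 i σ hk, hl, h2k] at h2 h3
    constructor
    · intro hδ
      rw [if_pos hδ, min_eq_left (by linarith [hb.2])] at h2
      exact h2
    · intro hδ
      rw [hδ] at h3
      simp only [Bool.false_eq_true, if_false] at h3
      rw [max_eq_left (by linarith [hb.1])] at h3
      exact h3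
  · have h2 := topB_leg3k h1
    exact key v ⟨fun _ => h2.1, fun _ => h2.2⟩
  · exact key v (topB_leg4' h he he' h1)

/-- vertical direction: above the tree -/
theorem top_zero {q0 i : ℕ} {C : V (n + 2)} {A r6 : ℕ} (h : TopH n q0 i C A r6) {σ : Bool} {v : V (n + 2)}
    (hv : v ∈ Zr (topZ n q0 i σ 0 true C A r6)) :
    (Ht n q0 (TT n q0 i) : ℤ) - rho n q0 (TT n q0 i) ≤ v 0 := by
  obtain ⟨n1, n2, n3, n4, n5⟩ := topB_num h
  rcases topB_cases hv with h1 | h1 | h1 | ⟨e, he, he', h1⟩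
  · exact (topB_leg1 h h1).1
  · obtain ⟨-, h2, -⟩ := topB_leg2 h1
    rw [topB_tp2_zero, min_self, topB_tp10] at h2
    linarith
  · have h2 := (topB_leg3k h1).1
    rw [topB_tp2_zero, topB_tp10] at h2
    linarith
  · have h2 := (topB_leg4' h he he' h1).1 rfl
    rw [topB_tp2_zero, topB_tp10] at h2
    linarith

/-- everything is within `A` of `C` -/
theorem top_bd {q0 i : ℕ} {C : V (n + 2)} {A r6 : ℕ} (h : TopH n q0 i C A r6) {σ : Bool} {k : Fin (n + 2)}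
    {δ : Bool} (hk : k = 0 → δ = true) {v : V (n + 2)} (hv : v ∈ Zr (topZ n q0 i σ k δ C A r6))
    (m : Fin (n + 2)) : |v m - C m| ≤ (A : ℤ) := by
  obtain ⟨n1, n2, n3, n4, n5⟩ := topB_num h
  have hC : ∀ k, -(A : ℤ) ≤ 64 * C k ∧ 64 * C k ≤ A := by
    intro k
    have h1 := h.hC k
    have h2 : |64 * C k| ≤ (A : ℤ) := by
      rw [abs_mul]
      exact h1
    exact abs_le.1 h2
  have hCm := hC m
  have b1 : ∀ m, 0 ≤ tp1 n q0 i σ m ∧ tp1 n q0 i σ m ≤ 2 ^ i := fun m => topB_side1 h σ m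
  have b2 : ∀ m, -2 ^ i ≤ tp2 n q0 i σ k δ m ∧ tp2 n q0 i σ k δ m ≤ 2 * 2 ^ i := by
    intro m
    by_cases hm : m = k
    · subst hm
      by_cases hm0 : m = 0
      · subst hm0
        rw [topB_tp2_zero]
        have := b1 0
        constructor <;> linarith
      · rw [topB_tp2k n q0 i σ δ hm0]
        cases δ
        · simp only [Bool.false_eq_true, if_false]
          constructor <;> linarith
        · simp only [if_true]
          constructor <;> linarith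
    · rw [topB_tp2_ne n q0 i σ δ hm]
      have := b1 m
      constructor <;> linarith
  have b1m := b1 m
  have b2m := b2 m
  have small : -2 ^ i - (rho n q0 (TT n q0 i) : ℤ) ≤ v m → v m ≤ 2 * 2 ^ i + (rho n q0 (TT n q0 i) : ℤ) →
      |v m - C m| ≤ (A : ℤ) := by
    intro h1 h2
    rw [abs_le]
    constructor <;> linarith
  rcases topB_cases hv with h1 | h1 | h1 | ⟨e, he, he', h1⟩
  · obtain ⟨h2, h3, h4⟩ := topB_leg1 h h1
    by_cases hm : m = 0
    · subst hm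
      apply small <;> linarith
    · have h5 := h4 m hm
      rw [← topB_tp1k n q0 i σ hm, abs_le] at h5
      apply small <;> linarith [h5.1, h5.2]
  · have h2 := Zr_St h1 m
    apply small
    · have : min (tp1 n q0 i σ m) (tp2 n q0 i σ k δ m) ≥ -2 ^ i := le_min (by linarith) (by linarith)
      linarith [h2.1]
    · have : max (tp1 n q0 i σ m) (tp2 n q0 i σ k δ m) ≤ 2 * 2 ^ i := max_le (by linarith) (by linarith)
      linarith [h2.2]
  · have h2 := Zr_St h1 m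
    by_cases hm : m = k
    · subst hm
      rw [topB_tp3k, min_self, max_self] at h2
      apply small <;> linarith [h2.1, h2.2]
    · rw [topB_tp3_ne n q0 i σ δ hm] at h2
      have h3 : min (tp2 n q0 i σ k δ m) (C m) ≥ -2 ^ i - |C m| := by
        apply le_min
        · have := abs_nonneg (C m)
          linarith
        · have := neg_abs_le (C m)
          have : (0 : ℤ) < 2 ^ i := by positivity
          linarith
      have h4 : max (tp2 n q0 i σ k δ m) (C m) ≤ 2 * 2 ^ i + |C m| := by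
        apply max_le
        · have := abs_nonneg (C m)
          linarith
        · have := le_abs_self (C m)
          have : (0 : ℤ) < 2 ^ i := by positivity
          linarith
      have h5 := h.hC m
      have h6 := neg_abs_le (C m)
      have h7 := le_abs_self (C m)
      rw [abs_le]
      constructor <;> linarith [h2.1, h2.2]
  · obtain ⟨g1, g2, g3, g4⟩ := topB_leg4 h he he' h1
    by_cases hm : m = k
    · subst hm
      rw [abs_le] at g2
      have g5 : |v m - (C m + sg δ * ((A : ℤ) - e))| ≤ (e : ℤ) / 16 := by omega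
      rw [abs_le] at g5
      rw [abs_le]
      cases δ
      · simp only [sg, Bool.false_eq_true, if_false] at g2 g3 g4 g5
        constructor
        · have : (e : ℤ) / 16 ≤ e := by omega
          linarith [g5.1]
        · linarith [g2.2]
      · simp only [sg, if_true] at g2 g3 g4 g5
        constructor
        · linarith [g2.1]
        · have : (e : ℤ) / 16 ≤ e := by omega
          linarith [g5.2]
    · exact (g1 m hm).trans (by linarith)

end Pool.Agent.H30.HG
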