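import Pool.Agent.H30.HG.TopH

/-!
# HG module TopC: frame and actual coordinates of ports, half balls, centre

`fr_normal`, `fr_lat` of `H94/HG/Frame.lean`. `C = (fr i a F).symm (cen n m h)`, `A = 2^(m-h+7) U`; the direction `g` (`≠ -F`) is the
frame direction `dk F g` with sign `dδ F g`.
-/

open MeasureTheory Filter Topology
open Pool.Agent.H17.IIC Pool.Agent.H41.QC Pool.Agent.H47.GM Pool.Agent.H17.QA
open Pool.Agent.H94.HG Pool.Agent.H94.BM Pool.Agent.H47.HJ

namespace Pool.Agent.H30.HG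

variable {n d : ℕ}

private lemma topC_sg_abs (s : Bool) (x : ℤ) : |sg s * x| = |x| := by
  cases s <;> simp [sg]

private lemma topC_sg_sq (s : Bool) : sg s * sg s = 1 := by
  cases s <;> simp [sg]

private lemma topC_fr (i : ℕ) (a : V (n + 2)) (F : Face n) (z : V (n + 2)) (k : Fin (n + 2)) :
    fr i a F z k = sg (if k = F.1 then F.2 else true) * z (Equiv.swap 0 F.1 k) + frt i a F k := rfl

/-- the frame direction `0` only has the sign `true` -/
lemma dk_zero {F g : Face n} (_hg : g ≠ (F.1, !F.2)) : dk F g = 0 → dδ F g = true := by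
  intro h
  by_cases hk : g.1 = F.1
  · unfold dδ
    rw [if_pos hk]
  · exact absurd h (swap_ne hk)

/-- last ball of the route: in the half ball (frame coordinates) -/
theorem top_end {C : V (n + 2)} {A r6 : ℕ} {k : Fin (n + 2)} {δ : Bool} {v : V (n + 2)}
    (hv : v ∈ Bx (tpe C A k δ (16 * r6)) r6) :
    (∀ m, |v m - tpe C A k δ 0 m| ≤ 32 * (r6 : ℤ)) ∧ sg δ * (v k - C k) ≤ (A : ℤ) := by
  rw [mem_Bx] at hv
  have hr : (0 : ℤ) ≤ (r6 : ℤ) := Int.natCast_nonneg _
  constructor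
  · intro m
    have h1 := hv m
    unfold tpe at h1 ⊢
    by_cases hm : m = k
    · subst hm
      rw [Function.update_self] at h1 ⊢
      rw [abs_le] at h1 ⊢
      push_cast at h1 ⊢
      cases δ <;> simp only [sg, Bool.false_eq_true, if_false, if_true] at h1 ⊢ <;>
        constructor <;> linarith [h1.1, h1.2]
    · rw [Function.update_of_ne hm] at h1 ⊢
      linarith
  · have h1 := hv k
    unfold tpe at h1
    rw [Function.update_self] at h1
    rw [abs_le] at h1
    push_cast at h1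
    cases δ <;> simp only [sg, Bool.false_eq_true, if_false, if_true] at h1 ⊢ <;>
      linarith [h1.1, h1.2]

/-- difference of coordinates in the direction `g` -/
theorem fr_dir {i : ℕ} {a : V (n + 2)} {F g : Face n} (hg : g ≠ (F.1, !F.2)) (z z' : V (n + 2)) :
    sg g.2 * (fr i a F z g.1 - fr i a F z' g.1) = sg (dδ F g) * (z (dk F g) - z' (dk F g)) := by
  rw [topC_fr, topC_fr]
  by_cases hk : g.1 = F.1
  · have h2 : g.2 = F.2 := by
      by_contra h
      apply hg
      refine Prod.ext hk ?_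
      show g.2 = !F.2
      revert h
      cases g.2 <;> cases F.2 <;> simp
    unfold dδ dk
    rw [if_pos hk, if_pos hk, h2]
    have h3 := topC_sg_sq F.2
    simp only [sg, if_true] at h3 ⊢
    linear_combination (z ((Equiv.swap 0 F.1) g.1) - z' ((Equiv.swap 0 F.1) g.1)) * h3
  · unfold dδ dk
    rw [if_neg hk, if_neg hk]
    simp only [sg, if_true]
    ring

/-- other coordinates do not change -/
private lemma topC_other {i : ℕ} {a : V (n + 2)} {F g : Face n} {z z' : V (n + 2)}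
    (h : ∀ k, k ≠ dk F g → z k = z' k) {k : Fin (n + 2)} (hk : k ≠ g.1) :
    fr i a F z k = fr i a F z' k := by
  rw [topC_fr, topC_fr, h]
  unfold dk
  intro h'
  exact hk ((Equiv.swap 0 F.1).injective h')

theorem port_fr {i : ℕ} {a : V (n + 2)} {F g : Face n} (hg : g ≠ (F.1, !F.2)) (m h U : ℕ) :
    fr i a F (tpe ((fr i a F).symm (cen n m h)) (2 ^ (m - h + 7) * U) (dk F g) (dδ F g) 0) = Port n m h U g := by
  set C := (fr i a F).symm (cen n m h) with hC
  have hC' : fr i a F C = cen n m h := by rw [hC, Equiv.apply_symm_apply]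
  funext k
  unfold Port
  rw [← hC']
  simp only [Pi.add_apply, Pi.smul_apply, smul_eq_mul]
  by_cases hk : k = g.1
  · subst hk
    rw [Pi.single_eq_same]
    have h1 := fr_dir (i := i) (a := a) hg (tpe C (2 ^ (m - h + 7) * U) (dk F g) (dδ F g) 0) C
    have h2 : tpe C (2 ^ (m - h + 7) * U) (dk F g) (dδ F g) 0 (dk F g) =
        C (dk F g) + sg (dδ F g) * (2 ^ (m - h + 7) * U) := by
      unfold tpe
      rw [Function.update_self]
      push_cast
      ring
    rw [h2] at h1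
    have h3 := topC_sg_sq (dδ F g)
    have h4 := topC_sg_sq g.2
    set y := fr i a F (tpe C (2 ^ (m - h + 7) * U) (dk F g) (dδ F g) 0) g.1
    set x := fr i a F C g.1
    have h5 : sg g.2 * (y - x) = 2 ^ (m - h + 7) * U := by
      rw [h1]
      linear_combination (2 ^ (m - h + 7) * (U : ℤ)) * h3
    have h6 : sg g.2 * (sg g.2 * (y - x)) = sg g.2 * (2 ^ (m - h + 7) * U) := by rw [h5]
    linear_combination h6 - (y - x) * h4
  · rw [Pi.single_eq_of_ne hk]
    rw [topC_other (z := tpe C (2 ^ (m - h + 7) * U) (dk F g) (dδ F g) 0) (z' := C) (F := F) (g := g)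
      (fun k' hk' => ?_) hk]
    · ring
    · unfold tpe
      rw [Function.update_of_ne hk']

/-- distances are the same in the frame -/
lemma fr_dist {i : ℕ} {a : V (n + 2)} {F : Face n} {z z' : V (n + 2)} {r : ℤ} :
    (∀ k, |fr i a F z k - fr i a F z' k| ≤ r) ↔ ∀ k, |z k - z' k| ≤ r := by
  have key : ∀ k, |fr i a F z k - fr i a F z' k| =
      |z (Equiv.swap 0 F.1 k) - z' (Equiv.swap 0 F.1 k)| := by
    intro k
    rw [topC_fr, topC_fr, add_sub_add_right_eq_sub, ← mul_sub, topC_sg_abs]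
  constructor
  · intro h k
    have h1 := h (Equiv.swap 0 F.1 k)
    rw [key, Equiv.swap_apply_self] at h1
    exact h1
  · intro h k
    rw [key]
    exact h _

/-- half ball in the frame -/
theorem HB_fr {i : ℕ} {a : V (n + 2)} {F g : Face n} (hg : g ≠ (F.1, !F.2)) (m h U r6 : ℕ) (z : V (n + 2)) :
    fr i a F z ∈ HB n m h U r6 g ↔
      (∀ k, |z k - tpe ((fr i a F).symm (cen n m h)) (2 ^ (m - h + 7) * U) (dk F g) (dδ F g) 0 k| ≤ 32 * (r6 : ℤ)) ∧
      sg (dδ F g) * (z (dk F g) - (fr i a F).symm (cen n m h) (dk F g)) ≤ ((2 ^ (m - h + 7) * U : ℕ) : ℤ) := by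
  unfold HB
  rw [Finset.mem_filter, mem_Bx, ← port_fr (i := i) (a := a) hg m h U]
  refine and_congr ?_ ?_
  · push_cast
    exact fr_dist
  · have h1 := fr_dir (i := i) (a := a) hg z ((fr i a F).symm (cen n m h))
    rw [Equiv.apply_symm_apply] at h1
    rw [h1]
    push_cast
    exact Iff.rfl

/-- the corners of the small cube are in the big one -/
private lemma topC_sub {i M : ℕ} {a : V (n + 2)} (hcube : cube i a ⊆ cube M 0) (k : Fin (n + 2)) :
    0 ≤ a k * 2 ^ i ∧ (a k + 1) * 2 ^ i ≤ 2 ^ M := by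
  have hp : (1 : ℤ) ≤ 2 ^ i := one_le_pow₀ (by norm_num)
  have h1 : (fun k => a k * 2 ^ i : V (n + 2)) ∈ cube i a := by
    rw [mem_cube]
    intro k
    constructor
    · exact le_refl _
    · have e : (a k + 1) * 2 ^ i = a k * 2 ^ i + 2 ^ i := by ring
      rw [e]
      omega
  have h2 : (fun k => (a k + 1) * 2 ^ i - 1 : V (n + 2)) ∈ cube i a := by
    rw [mem_cube]
    intro k
    have e : (a k + 1) * 2 ^ i = a k * 2 ^ i + 2 ^ i := by ring
    constructor
    · show a k * 2 ^ i ≤ (a k + 1) * 2 ^ i - 1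
      rw [e]
      omega
    · show (a k + 1) * 2 ^ i - 1 < (a k + 1) * 2 ^ i
      omega
  have h3 := (mem_cube.1 (hcube h1)) k
  have h4 := (mem_cube.1 (hcube h2)) k
  simp only [Pi.zero_apply, zero_mul, zero_add, one_mul] at h3 h4
  exact ⟨h3.1, by omega⟩

/-- the centre of the big cube in the frame -/
theorem cen_bd {i m h : ℕ} {a : V (n + 2)} (hcube : cube i a ⊆ cube (m - h) 0) (hm : 1 ≤ m - h) (F : Face n)
    (k : Fin (n + 2)) : |(fr i a F).symm (cen n m h) k| ≤ 2 ^ (m - h) := by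
  set C := (fr i a F).symm (cen n m h) with hC
  have hC' : fr i a F C = cen n m h := by rw [hC, Equiv.apply_symm_apply]
  have hsub := topC_sub hcube
  have h1 := congrFun hC' (Equiv.swap 0 F.1 k)
  rw [topC_fr, Equiv.swap_apply_self] at h1
  unfold cen at h1
  obtain ⟨M, hM⟩ : ∃ M, m - h = M + 1 := ⟨m - h - 1, by omega⟩
  rw [hM] at h1 hsub ⊢
  rw [Nat.add_sub_cancel] at h1
  have hpi : (1 : ℤ) ≤ 2 ^ i := one_le_pow₀ (by norm_num)
  have hpM : (1 : ℤ) ≤ 2 ^ M := one_le_pow₀ (by norm_num)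
  have hpM1 : (2 : ℤ) ^ (M + 1) = 2 * 2 ^ M := by ring
  have h2 : 0 ≤ frt i a F (Equiv.swap 0 F.1 k) ∧ frt i a F (Equiv.swap 0 F.1 k) ≤ 2 ^ (M + 1) := by
    have h3 := hsub (Equiv.swap 0 F.1 k)
    have e : (a (Equiv.swap 0 F.1 k) + 1) * 2 ^ i = a (Equiv.swap 0 F.1 k) * 2 ^ i + 2 ^ i := by ring
    unfold frt
    split_ifs
    · rw [e] at h3 ⊢
      constructor <;> omega
    · rw [e] at h3
      constructor <;> omega
  have h4 : |C k| = |sg (if Equiv.swap 0 F.1 k = F.1 then F.2 else true) * C k| := (topC_sg_abs _ _).symm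
  rw [h4]
  have h5 : sg (if Equiv.swap 0 F.1 k = F.1 then F.2 else true) * C k =
      2 ^ M - frt i a F (Equiv.swap 0 F.1 k) := by linarith
  rw [h5, abs_le]
  constructor <;> linarith [h2.1, h2.2]

/-- the hypotheses `TopH` -/
theorem topH_of {q0 i m h U r6 : ℕ} {a : V (n + 2)} (hcube : cube i a ⊆ cube (m - h) 0)
    (hi : q0 + n + 11 ≤ i) (hH : 8 * Ht n q0 (TT n q0 i) ≤ 2 ^ i) (hU : 1 ≤ U) (hr : 1 ≤ r6)
    (hr6 : r6 ≤ rho n q0 (TT n q0 i)) (F : Face n) :
    TopH n q0 i ((fr i a F).symm (cen n m h)) (2 ^ (m - h + 7) * U) r6 := by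
  have hsub := topC_sub hcube F.1
  have e : (a F.1 + 1) * 2 ^ i = a F.1 * 2 ^ i + 2 ^ i := by ring
  have hle : (2 : ℤ) ^ i ≤ 2 ^ (m - h) := by
    rw [e] at hsub
    linarith [hsub.1, hsub.2]
  have hle' : 2 ^ i ≤ 2 ^ (m - h) := by exact_mod_cast hle
  have him : i ≤ m - h := (Nat.pow_le_pow_iff_right (by norm_num)).1 hle'
  have hA : 128 * 2 ^ (m - h) ≤ 2 ^ (m - h + 7) * U := by
    calc 128 * 2 ^ (m - h) = 2 ^ (m - h + 7) * 1 := by ring
      _ ≤ _ := Nat.mul_le_mul_left _ hU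
  refine ⟨hi, hH, ?_, ?_, hr, hr6⟩
  · intro k
    have h1 := cen_bd hcube (by omega : 1 ≤ m - h) F k
    have hA' : (128 : ℤ) * 2 ^ (m - h) ≤ ((2 ^ (m - h + 7) * U : ℕ) : ℤ) := by exact_mod_cast hA
    have hp : (0 : ℤ) ≤ 2 ^ (m - h) := by positivity
    linarith
  · omega

end Pool.Agent.H30.HG
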