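import Pool.Agent.H30.HG.Nodes

/-!
# HG module TreeL: the trees as `HJ.Tree`: labels, leaves, regions, separation

Induction on `t`. `Reg` of the tree `⊆` column, heights `≤ Ht t + 2 rho t`; region of the node `t + 1`: heights `> Ht t + 2 rho t`.
`Tree.Sep`: disjoint images under the injective map `fr i a F`.
-/

open MeasureTheory Filter Topology
open Pool.Agent.H17.IIC Pool.Agent.H41.QC Pool.Agent.H47.GM Pool.Agent.H17.QA
open Pool.Agent.H94.HG Pool.Agent.H94.BM Pool.Agent.H47.HJ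

namespace Pool.Agent.H30.HG

variable {n d : ℕ}

theorem mem_verts {q0 : ℕ} {F : Face n} {t : ℕ} {lo : V (n + 2)} {x : X n} :
    x ∈ (tree q0 F t lo).verts ↔ x.1 = F ∧ x.2 ∈ nodes q0 t lo := by
  induction t generalizing lo with
  | zero =>
    show x ∈ ({(F, (0, lo))} : Set (X n)) ↔ _
    rw [Set.mem_singleton_iff, mem_nodes_zero, Prod.ext_iff]
  | succ t ih =>
    show x ∈ ({(F, (t + 1, lo))} ∪ (tree q0 F t (ch q0 t lo false)).verts ∪
      (tree q0 F t (ch q0 t lo true)).verts : Set (X n)) ↔ _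
    rw [Set.mem_union, Set.mem_union, ih, ih, mem_nodes_succ, Set.mem_singleton_iff, Prod.ext_iff]
    simp only
    tauto

theorem mem_leaves {q0 : ℕ} {F : Face n} {t : ℕ} {lo : V (n + 2)} {x : X n} :
    x ∈ (tree q0 F t lo).leaves ↔ x.1 = F ∧ x.2 ∈ nodes q0 t lo ∧ x.2.1 = 0 := by
  induction t generalizing lo with
  | zero =>
    show x ∈ ({(F, (0, lo))} : Set (X n)) ↔ _
    rw [Set.mem_singleton_iff, mem_nodes_zero]
    constructor
    · intro h
      rw [h]
      exact ⟨rfl, rfl, rfl⟩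
    · rintro ⟨h1, h2, -⟩
      exact Prod.ext h1 h2
  | succ t ih =>
    show x ∈ ((tree q0 F t (ch q0 t lo false)).leaves ∪
      (tree q0 F t (ch q0 t lo true)).leaves : Set (X n)) ↔ _
    rw [Set.mem_union, ih, ih, mem_nodes_succ]
    constructor
    · rintro (⟨h1, h2, h3⟩ | ⟨h1, h2, h3⟩)
      · exact ⟨h1, Or.inr (Or.inl h2), h3⟩
      · exact ⟨h1, Or.inr (Or.inr h2), h3⟩
    · rintro ⟨h1, h2 | h2 | h2, h3⟩
      · rw [h2] at h3
        exact absurd h3 (Nat.succ_ne_zero t)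
      · exact Or.inl ⟨h1, h2, h3⟩
      · exact Or.inr ⟨h1, h2, h3⟩

lemma tree_root (q0 : ℕ) (F : Face n) (t : ℕ) (lo : V (n + 2)) : (tree q0 F t lo).root = (F, (t, lo)) := by
  cases t <;> rfl

lemma regS_sub (q0 t : ℕ) (lo : V (n + 2)) :
    regS q0 t lo ⊆ {v | v ∈ Col q0 t lo ∧ v 0 ≤ (Ht n q0 t : ℤ) + 2 * rho n q0 t} := by
  cases t with
  | zero => exact fun v h => h
  | succ t => exact fun v h => ⟨h.1, h.2.2⟩

theorem Reg_sub {κ : Kind} {p : unitInterval} (RS : RoadSys κ (n + 2) p) (q0 i : ℕ) (a : V (n + 2))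
    (ω' : El (n + 2) → Bool) (F : Face n) (t : ℕ) (lo : V (n + 2)) :
    (geo RS q0 i a ω').Reg (tree q0 F t lo) ⊆
      fr i a F '' {v | v ∈ Col q0 t lo ∧ v 0 ≤ (Ht n q0 t : ℤ) + 2 * rho n q0 t} := by
  rintro v ⟨x, hx, hv⟩
  obtain ⟨h1, h2⟩ := mem_verts.1 hx
  obtain ⟨z, hz, hzv⟩ : v ∈ fr i a x.1 '' regS q0 x.2.1 x.2.2 := hv
  rw [h1] at hzv
  refine ⟨z, ?_, hzv⟩
  obtain ⟨h3, h4⟩ := regS_sub _ _ _ hz
  refine ⟨Col_nodes h2 h3, h4.trans ?_⟩
  have h5 : (Ht n q0 x.2.1 : ℤ) ≤ Ht n q0 t := by exact_mod_cast Ht_mono n q0 (nodes_le h2)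
  have h6 : (rho n q0 x.2.1 : ℤ) ≤ rho n q0 t := by exact_mod_cast rho_mono n q0 (nodes_le h2)
  linarith

theorem tree_sep {κ : Kind} {p : unitInterval} (RS : RoadSys κ (n + 2) p) (q0 i : ℕ) (a : V (n + 2))
    (ω' : El (n + 2) → Bool) (F : Face n) (t : ℕ) (lo : V (n + 2)) :
    Pool.Agent.H47.HJ.Tree.Sep (geo RS q0 i a ω') (tree q0 F t lo) := by
  induction t generalizing lo with
  | zero => exact trivial
  | succ t ih =>
    have key : ∀ c : Bool, Disjoint ((geo RS q0 i a ω').reg (F, (t + 1, lo)))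
        ((geo RS q0 i a ω').Reg (tree q0 F t (ch q0 t lo c))) := by
      intro c
      rw [Set.disjoint_left]
      intro v hv hv'
      obtain ⟨z, hz, hzv⟩ : v ∈ fr i a F '' regS q0 (t + 1) lo := hv
      obtain ⟨z', hz', hzv'⟩ := Reg_sub RS q0 i a ω' F t _ hv'
      have he : z' = z := (fr i a F).injective (hzv'.trans hzv.symm)
      rw [he] at hz'
      have h1 : (Ht n q0 t : ℤ) + 2 * rho n q0 t < z 0 := hz.2.1
      have h2 : z 0 ≤ (Ht n q0 t : ℤ) + 2 * rho n q0 t := hz'.2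
      exact absurd h1 (not_lt.2 h2)
    have key2 : ∀ c : Bool, ((F, (t + 1, lo)) : X n) ∉ (tree q0 F t (ch q0 t lo c)).verts := by
      intro c h
      have h1 := nodes_le (mem_verts.1 h).2
      simp only at h1
      omega
    refine ⟨ih _, ih _, key false, key true, ?_, ?_, key2 false, key2 true⟩
    · rw [Set.disjoint_left]
      intro v hv hv'
      obtain ⟨z, hz, hzv⟩ := Reg_sub RS q0 i a ω' F t _ hv
      obtain ⟨z', hz', hzv'⟩ := Reg_sub RS q0 i a ω' F t _ hv'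
      have he : z' = z := (fr i a F).injective (hzv'.trans hzv.symm)
      rw [he] at hz'
      exact Set.disjoint_left.1 (Col_ch_disj q0 t lo) hz.1 hz'.1
    · rw [Set.disjoint_left]
      intro x hx hx'
      have h1 := (mem_verts.1 hx).2
      have h2 := (mem_verts.1 hx').2
      exact Lat_ch_disj (Lat_nodes h1 (Lat_self _ _ _)) (Lat_nodes h2 (Lat_self _ _ _))

/-- points over the root -/
lemma over_of_Col {q0 i : ℕ} (hi : q0 + n + 11 ≤ i) {z : V (n + 2)}
    (h : z ∈ Col q0 (TT n q0 i) 0) : Over i z 0 := by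
  refine ⟨h.1, fun k hk => ?_⟩
  have h1 := h.2 k hk
  rw [sd_TT n (by omega) hk] at h1
  simp only [Pi.zero_apply, zero_add] at h1
  push_cast at h1
  exact h1

/-- separation of the trees of different faces -/
theorem trees_disj {κ : Kind} {p : unitInterval} (RS : RoadSys κ (n + 2) p) {q0 i : ℕ}
    (hi : q0 + n + 11 ≤ i) (a : V (n + 2)) (ω' : El (n + 2) → Bool) {F F' : Face n} (hF : F ≠ F') :
    Disjoint ((geo RS q0 i a ω').Reg (tree q0 F (TT n q0 i) 0)) ((geo RS q0 i a ω').Reg (tree q0 F' (TT n q0 i) 0)) ∧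
      Disjoint (tree q0 F (TT n q0 i) 0).verts (tree q0 F' (TT n q0 i) 0).verts := by
  constructor
  · rw [Set.disjoint_left]
    intro v hv hv'
    obtain ⟨z, hz, hzv⟩ := Reg_sub RS q0 i a ω' F _ _ hv
    obtain ⟨z', hz', hzv'⟩ := Reg_sub RS q0 i a ω' F' _ _ hv'
    exact fr_disj hF (over_of_Col hi hz.1) (over_of_Col hi hz'.1) (hzv.trans hzv'.symm)
  · rw [Set.disjoint_left]
    intro x hx hx'
    exact hF ((mem_verts.1 hx).1.symm.trans (mem_verts.1 hx').1)

/-- the regions of the trees are outside the cube -/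
theorem trees_out {κ : Kind} {p : unitInterval} (RS : RoadSys κ (n + 2) p) (q0 i : ℕ) (a : V (n + 2))
    (ω' : El (n + 2) → Bool) (F : Face n) :
    Disjoint ((geo RS q0 i a ω').Reg (tree q0 F (TT n q0 i) 0)) (cube i a : Set (V (n + 2))) := by
  rw [Set.disjoint_left]
  intro v hv hv'
  obtain ⟨z, hz, hzv⟩ := Reg_sub RS q0 i a ω' F _ _ hv
  rw [← hzv] at hv'
  exact fr_over_not_mem i a F z hz.1.1 (Finset.mem_coe.1 hv')

/-- inner vertices of the tree: the vertices and the children -/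
theorem isSub_node {q0 : ℕ} {F : Face n} {t : ℕ} {lo : V (n + 2)} {x : X n} {l r : Pool.Agent.H47.HJ.Tree (X n)}
    (h : Pool.Agent.H47.HJ.Tree.IsSub (.node x l r) (tree q0 F t lo)) : ∃ t' lo', (t' + 1, lo') ∈ nodes q0 t lo ∧
      x = (F, (t' + 1, lo')) ∧ l = tree q0 F t' (ch q0 t' lo' false) ∧ r = tree q0 F t' (ch q0 t' lo' true) := by
  induction t generalizing lo with
  | zero =>
    have h' : (Pool.Agent.H47.HJ.Tree.node x l r) = Pool.Agent.H47.HJ.Tree.leaf (F, (0, lo)) := h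
    exact absurd h' (by intro h; cases h)
  | succ t ih =>
    have h' : (Pool.Agent.H47.HJ.Tree.node x l r) = Pool.Agent.H47.HJ.Tree.node (F, (t + 1, lo))
        (tree q0 F t (ch q0 t lo false)) (tree q0 F t (ch q0 t lo true)) ∨
        Pool.Agent.H47.HJ.Tree.IsSub (.node x l r) (tree q0 F t (ch q0 t lo false)) ∨
        Pool.Agent.H47.HJ.Tree.IsSub (.node x l r) (tree q0 F t (ch q0 t lo true)) := h
    rcases h' with h' | h' | h'
    · injection h' with h1 h2 h3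
      exact ⟨t, lo, self_mem_nodes _ _ _, h1, h2, h3⟩
    · obtain ⟨t', lo', h1, h2⟩ := ih h'
      exact ⟨t', lo', mem_nodes_succ.2 (Or.inr (Or.inl h1)), h2⟩
    · obtain ⟨t', lo', h1, h2⟩ := ih h'
      exact ⟨t', lo', mem_nodes_succ.2 (Or.inr (Or.inr h1)), h2⟩

/-- `Tree.OK` from its ingredients -/
theorem tree_ok {κ : Kind} {p : unitInterval} (RS : RoadSys κ (n + 2) p) {q0 i : ℕ} {a : V (n + 2)}
    {ω ω' : El (n + 2) → Bool} {D : TData (n + 2)} {J : Finset (Fin D.k)} {ce : En D → X n}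
    {mb K : X n → ℕ} {F : Face n} {t : ℕ} {lo : V (n + 2)}
    (hleaf : ∀ c, (0, c) ∈ nodes q0 t lo → LeafOK κ ω D J (geo RS q0 i a ω') ce (F, (0, c)) (mb (F, (0, c))))
    (hnode : ∀ t' lo', (t' + 1, lo') ∈ nodes q0 t lo →
      (∃ e : En D, e.1 ∈ J ∧ ce e ∈ (tree q0 F (t' + 1) lo').leaves) →
      NodeOK κ ω (geo RS q0 i a ω') (F, (t' + 1, lo')) (F, (t', ch q0 t' lo' false)) (F, (t', ch q0 t' lo' true))
        (K (F, (t' + 1, lo')))) :
    Pool.Agent.H47.HJ.Tree.OK κ ω D J (geo RS q0 i a ω') ce mb K (tree q0 F t lo) := by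
  induction t generalizing lo with
  | zero => exact hleaf lo (self_mem_nodes _ _ _)
  | succ t ih =>
    refine ⟨ih (fun c hc => hleaf c (mem_nodes_succ.2 (Or.inr (Or.inl hc))))
      (fun t' lo' h1 h2 => hnode t' lo' (mem_nodes_succ.2 (Or.inr (Or.inl h1))) h2),
      ih (fun c hc => hleaf c (mem_nodes_succ.2 (Or.inr (Or.inr hc))))
      (fun t' lo' h1 h2 => hnode t' lo' (mem_nodes_succ.2 (Or.inr (Or.inr h1))) h2), ?_⟩
    rintro ⟨e, he, h⟩
    rw [tree_root, tree_root]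
    exact hnode t lo (self_mem_nodes _ _ _) ⟨e, he, h⟩

end Pool.Agent.H30.HG
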